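import Pool.Agent.Work.MP_8d2b2d_co.PL.Fin

/-!
# The final statement for large `k`
-/

set_option autoImplicit false
set_option linter.unusedSectionVars false

namespace Pool.Agent.Work.MP_8d2b2d_co.PL

open Matrix
open scoped ComplexOrder

variable {m : ℕ}

/-- the matrix with columns `b` -/
noncomputable def colM (b : Fin m → Fin m → ℂ) : Matrix (Fin m) (Fin m) ℂ :=
  Matrix.of fun c j => b j c

lemma colM_col (b : Fin m → Fin m → ℂ) : (fun (j : Fin m) (c : Fin m) => colM b c j) = b := rfl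

lemma gram_diag (B : Matrix (Fin m) (Fin m) ℂ) (i : Fin m) :
    (B.conjTranspose * B) i i = ((∑ c, ‖B c i‖ ^ 2 : ℝ) : ℂ) := by
  rw [Matrix.mul_apply]
  push_cast
  refine Finset.sum_congr rfl fun c _ => ?_
  rw [Matrix.conjTranspose_apply]
  exact Complex.conj_mul' _

/-- unit vectors, not necessarily independent -/
theorem eventually_unit' (m : ℕ) (hm : 0 < m) :
    ∃ k₀ : ℕ, ∀ k : ℕ, k₀ ≤ k → ∀ b : Fin m → Fin m → ℂ, (∀ i, ∑ c, ‖b i c‖ ^ 2 = 1) →
      (k.factorial : ℝ) ^ m * N (∏ i, L (b i)) ^ k ≤ N ((∏ i, L (b i)) ^ k) := by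
  obtain ⟨k₀, h⟩ := eventually_unit m hm
  refine ⟨k₀, fun k hk b hb => ?_⟩
  set M : Matrix (Fin m) (Fin m) ℂ := (colM b).conjTranspose * colM b with hM
  have hMp : M.PosSemidef := Matrix.posSemidef_conjTranspose_mul_self _
  have hMd : ∀ i, M i i = 1 := by
    intro i
    rw [hM, gram_diag]
    have : ∑ c, ‖colM b c i‖ ^ 2 = 1 := hb i
    rw [this, Complex.ofReal_one]
  have hkey := limit_re (M := M) k
    (f := fun t => ((1 - t : ℝ) : ℂ) • M + (t : ℂ) • (1 : Matrix (Fin m) (Fin m) ℂ))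
    (by fun_prop) (by simp) (A := (k.factorial : ℝ) ^ m) (B := 1) (fun t ht ht1 => ?_)
  · rw [one_mul, hM, perm_eq, kron_eq, Complex.ofReal_re, Complex.ofReal_re] at hkey
    exact hkey
  · have h1 : (((1 - t : ℝ) : ℂ) • M).PosSemidef := by
      have : (0 : ℂ) ≤ ((1 - t : ℝ) : ℂ) := by
        have h2 : (0 : ℝ) ≤ 1 - t := by linarith
        exact_mod_cast h2
      exact hMp.smul this
    have hp := posDef_add h1 ht
    obtain ⟨B, hB⟩ := exists_conjTranspose_mul hp.posSemidef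
    have hunit : ∀ i, ∑ c, ‖B c i‖ ^ 2 = 1 := by
      intro i
      have h2 := gram_diag B i
      rw [← hB, Matrix.add_apply, Matrix.smul_apply, Matrix.smul_apply, hMd,
        Matrix.one_apply_eq] at h2
      have h3 : ((∑ c, ‖B c i‖ ^ 2 : ℝ) : ℂ) = ((1 : ℝ) : ℂ) := by
        rw [← h2]
        push_cast
        simp
      exact_mod_cast h3
    rw [hB] at hp
    have h4 := h k hk (fun (j : Fin m) (c : Fin m) => B c j) (indep_of_posDef hp) hunit
    rw [hB, one_mul, perm_eq, kron_eq, Complex.ofReal_re, Complex.ofReal_re]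
    exact h4

lemma L_smul {d : Type} [Fintype d] [DecidableEq d] (r : ℂ) (a : d → ℂ) :
    L (fun c => r * a c) = MvPolynomial.C r * L a := by
  rw [L, L, Finset.mul_sum]
  refine Finset.sum_congr rfl fun c _ => ?_
  rw [MvPolynomial.C_mul, mul_assoc]

/-- general vectors -/
theorem eventually_all (m : ℕ) (hm : 0 < m) :
    ∃ k₀ : ℕ, ∀ k : ℕ, k₀ ≤ k → ∀ b : Fin m → Fin m → ℂ,
      (k.factorial : ℝ) ^ m * N (∏ i, L (b i)) ^ k ≤ N ((∏ i, L (b i)) ^ k) := by
  obtain ⟨k₀, h⟩ := eventually_unit' m hm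
  refine ⟨max k₀ 1, fun k hk b => ?_⟩
  have hk0 : k₀ ≤ k := (le_max_left _ _).trans hk
  have hk1 : k ≠ 0 := by
    have := (le_max_right k₀ 1).trans hk
    omega
  by_cases hz : ∃ i, ∑ c, ‖b i c‖ ^ 2 = 0
  · obtain ⟨i, hi⟩ := hz
    have h1 : L (b i) = 0 := by
      rw [Finset.sum_eq_zero_iff_of_nonneg (fun _ _ => sq_nonneg _)] at hi
      rw [L]
      refine Finset.sum_eq_zero fun c hc => ?_
      have := hi c hc
      rw [sq_eq_zero_iff, norm_eq_zero] at this
      rw [this, MvPolynomial.C_0, zero_mul]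
    have h2 : ∏ i, L (b i) = 0 := Finset.prod_eq_zero (Finset.mem_univ i) h1
    have h3 : N (∏ i, L (b i)) = 0 := by
      rw [h2, N, ip_zero_right, Complex.zero_re]
    rw [h3, zero_pow hk1, mul_zero]
    exact N_nonneg _
  · push Not at hz
    have hpos : ∀ i, 0 < ∑ c, ‖b i c‖ ^ 2 := fun i =>
      lt_of_le_of_ne (Finset.sum_nonneg fun _ _ => sq_nonneg _) (Ne.symm (hz i))
    set r : Fin m → ℝ := fun i => √(∑ c, ‖b i c‖ ^ 2) with hr
    have hr0 : ∀ i, 0 < r i := fun i => Real.sqrt_pos.2 (hpos i)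
    have hr2 : ∀ i, r i ^ 2 = ∑ c, ‖b i c‖ ^ 2 := fun i => Real.sq_sqrt (hpos i).le
    set b' : Fin m → Fin m → ℂ := fun i c => ((r i : ℂ))⁻¹ * b i c with hb'
    have hunit : ∀ i, ∑ c, ‖b' i c‖ ^ 2 = 1 := by
      intro i
      simp only [hb', norm_mul, norm_inv, Complex.norm_real, Real.norm_of_nonneg (hr0 i).le,
        mul_pow]
      rw [← Finset.mul_sum, ← hr2 i]
      have := (hr0 i).ne'
      field_simp
    have h1 := h k hk0 b' hunit
    set R : ℂ := ∏ i, (r i : ℂ) with hR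
    have hprod : ∏ i, L (b i) = MvPolynomial.C R * ∏ i, L (b' i) := by
      rw [hR, map_prod, ← Finset.prod_mul_distrib]
      refine Finset.prod_congr rfl fun i _ => ?_
      rw [← L_smul]
      congr 1
      funext c
      rw [hb']
      have : (r i : ℂ) ≠ 0 := by
        rw [Ne, Complex.ofReal_eq_zero]
        exact (hr0 i).ne'
      field_simp
    have h2 : N (∏ i, L (b i)) = ‖R‖ ^ 2 * N (∏ i, L (b' i)) := by
      rw [hprod, N_C_mul]
    have h3 : N ((∏ i, L (b i)) ^ k) = (‖R‖ ^ 2) ^ k * N ((∏ i, L (b' i)) ^ k) := by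
      rw [hprod, mul_pow, ← map_pow, N_C_mul, norm_pow]
      ring
    rw [h2, h3, mul_pow]
    calc (k.factorial : ℝ) ^ m * ((‖R‖ ^ 2) ^ k * N (∏ i, L (b' i)) ^ k)
        = (‖R‖ ^ 2) ^ k * ((k.factorial : ℝ) ^ m * N (∏ i, L (b' i)) ^ k) := by ring
      _ ≤ _ := mul_le_mul_of_nonneg_left h1 (by positivity)

/-- (C), real form -/
theorem eventually_re (m : ℕ) : ∃ k₀ : ℕ, ∀ k : ℕ, k₀ ≤ k →
    ∀ M : Matrix (Fin m) (Fin m) ℂ, M.PosSemidef →
      (k.factorial : ℝ) ^ m * M.permanent.re ^ k ≤ (JM k M).permanent.re := by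
  rcases Nat.eq_zero_or_pos m with rfl | hm
  · refine ⟨0, fun k _ M _ => ?_⟩
    have h1 : M.permanent = 1 := by
      rw [Matrix.permanent]; simp
    have h2 : (JM k M).permanent = 1 := by
      rw [Matrix.permanent]; simp
    rw [h1, h2]
    simp
  obtain ⟨k₀, h⟩ := eventually_all m hm
  refine ⟨k₀, fun k hk M hM => ?_⟩
  obtain ⟨B, hB⟩ := exists_conjTranspose_mul hM
  rw [hB, perm_eq, kron_eq, Complex.ofReal_re, Complex.ofReal_re]
  exact h k hk _

end Pool.Agent.Work.MP_8d2b2d_co.PL
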