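import Pool.Agent.Work.MP_8d2b2d_co.PL.Kern

/-!
# From vectors to matrices
-/

set_option autoImplicit false
set_option linter.unusedSectionVars false

namespace Pool.Agent.Work.MP_8d2b2d_co.PL

open Matrix
open scoped ComplexOrder

variable {m : ℕ}

/-- the Kronecker product of the matrix of ones with `M` -/
noncomputable def JM (k : ℕ) (M : Matrix (Fin m) (Fin m) ℂ) :
    Matrix (Fin k × Fin m) (Fin k × Fin m) ℂ :=
  Matrix.kroneckerMap (fun x y => x * y) (Matrix.of fun _ _ : Fin k => (1 : ℂ)) M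

lemma perm_eq (B : Matrix (Fin m) (Fin m) ℂ) :
    (B.conjTranspose * B).permanent = (N (∏ i, L (fun c => B c i)) : ℂ) := by
  have h := permanent_gram' (fun (j : Fin m) (c : Fin m) => B c j)
  rw [← ip_self, ← h]
  congr 1

lemma kron_eq (B : Matrix (Fin m) (Fin m) ℂ) (k : ℕ) :
    (JM k (B.conjTranspose * B)).permanent = (N ((∏ i, L (fun c => B c i)) ^ k) : ℂ) := by
  have h4 := permanent_gram' (fun (p : Fin k × Fin m) (c : Fin m) => B c p.2)
  have h5 : ∏ p : Fin k × Fin m, L (fun c => B c p.2) = (∏ i, L (fun c => B c i)) ^ k := by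
    rw [Fintype.prod_prod_type]
    simp only [Finset.prod_const, Finset.card_univ, Fintype.card_fin]
  rw [h5] at h4
  rw [← ip_self, ← h4]
  congr 1
  ext p q
  rw [JM, Matrix.kroneckerMap_apply, Matrix.of_apply, Matrix.of_apply, one_mul]
  rfl

lemma indep_of_posDef {B : Matrix (Fin m) (Fin m) ℂ} (hM : (B.conjTranspose * B).PosDef) :
    Indep (fun (j : Fin m) (c : Fin m) => B c j) := by
  intro η hη
  by_contra hcon
  push Not at hcon
  have h1 : B *ᵥ η = 0 := by
    funext c
    rw [Matrix.mulVec, dotProduct, Pi.zero_apply, ← hcon c]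
    refine Finset.sum_congr rfl fun j _ => ?_
    ring
  have h2 := hM.dotProduct_mulVec_pos hη
  rw [← Matrix.mulVec_mulVec, h1, Matrix.mulVec_zero, dotProduct_zero] at h2
  exact lt_irrefl _ h2

lemma continuous_permanent {n : Type*} [Fintype n] [DecidableEq n] :
    Continuous fun M : Matrix n n ℂ => M.permanent := by
  unfold Matrix.permanent
  fun_prop

lemma continuous_JM (k : ℕ) : Continuous fun M : Matrix (Fin m) (Fin m) ℂ => JM k M := by
  unfold JM
  refine continuous_matrix fun i j => ?_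
  simp only [Matrix.kroneckerMap_apply, Matrix.of_apply, one_mul]
  exact continuous_id.matrix_elem _ _

lemma posDef_add {M : Matrix (Fin m) (Fin m) ℂ} (hM : M.PosSemidef) {t : ℝ} (ht : 0 < t) :
    (M + (t : ℂ) • (1 : Matrix (Fin m) (Fin m) ℂ)).PosDef := by
  have h1 : ((t : ℂ) • (1 : Matrix (Fin m) (Fin m) ℂ)).PosDef := by
    have : (0 : ℂ) < (t : ℂ) := by exact_mod_cast ht
    exact Matrix.PosDef.one.smul this
  rw [add_comm]
  exact h1.add_posSemidef hM

/-- passage to the limit -/
lemma limit_re {M : Matrix (Fin m) (Fin m) ℂ} (k : ℕ) {f : ℝ → Matrix (Fin m) (Fin m) ℂ}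
    (hf : Continuous f) (hf0 : f 0 = M) {A B : ℝ}
    (h : ∀ t : ℝ, 0 < t → t < 1 →
      A * (f t).permanent.re ^ k ≤ B * (JM k (f t)).permanent.re) :
    A * M.permanent.re ^ k ≤ B * (JM k M).permanent.re := by
  have h1 : Continuous fun t : ℝ => A * (f t).permanent.re ^ k :=
    continuous_const.mul ((Complex.continuous_re.comp (continuous_permanent.comp hf)).pow k)
  have h2 : Continuous fun t : ℝ => B * (JM k (f t)).permanent.re :=
    continuous_const.mul (Complex.continuous_re.comp
      (continuous_permanent.comp ((continuous_JM k).comp hf)))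
  have h3 := (h1.tendsto 0).mono_left (nhdsWithin_le_nhds (s := Set.Ioi 0))
  have h4 := (h2.tendsto 0).mono_left (nhdsWithin_le_nhds (s := Set.Ioi 0))
  rw [hf0] at h3 h4
  refine le_of_tendsto_of_tendsto h3 h4 ?_
  filter_upwards [self_mem_nhdsWithin, mem_nhdsWithin_of_mem_nhds (Iio_mem_nhds zero_lt_one)]
    with t ht ht1
  exact h t ht ht1

/-- (A), real form -/
theorem polyLoss_re {M : Matrix (Fin m) (Fin m) ℂ} (hM : M.PosSemidef) (k : ℕ) :
    ((m * k).factorial : ℝ) * M.permanent.re ^ k ≤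
      (m : ℝ) ^ (m * k) * (JM k M).permanent.re := by
  rcases Nat.eq_zero_or_pos m with rfl | hm
  · have h1 : M.permanent = 1 := by
      rw [Matrix.permanent]; simp
    have h2 : (JM k M).permanent = 1 := by
      rw [Matrix.permanent]; simp
    rw [h1, h2]
    simp
  have : Nonempty (Fin m) := ⟨⟨0, hm⟩⟩
  refine limit_re k (f := fun t => M + (t : ℂ) • (1 : Matrix (Fin m) (Fin m) ℂ)) (by fun_prop)
    (by simp) fun t ht _ => ?_
  have hp := posDef_add hM ht
  obtain ⟨B, hB⟩ := exists_conjTranspose_mul hp.posSemidef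
  rw [hB] at hp ⊢
  have h := polyLoss_indep (indep_of_posDef hp) k
  rw [Fintype.card_fin] at h
  rw [perm_eq, kron_eq, Complex.ofReal_re, Complex.ofReal_re]
  exact h

lemma perm_ofReal {M : Matrix (Fin m) (Fin m) ℂ} (hM : M.PosSemidef) :
    M.permanent = (M.permanent.re : ℂ) := by
  obtain ⟨B, hB⟩ := exists_conjTranspose_mul hM
  rw [hB, perm_eq, Complex.ofReal_re]

lemma perm_JM_ofReal {M : Matrix (Fin m) (Fin m) ℂ} (hM : M.PosSemidef) (k : ℕ) :
    (JM k M).permanent = ((JM k M).permanent.re : ℂ) := by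
  obtain ⟨B, hB⟩ := exists_conjTranspose_mul hM
  rw [hB, kron_eq, Complex.ofReal_re]

end Pool.Agent.Work.MP_8d2b2d_co.PL
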