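import Pool.Agent.Work.MP_8d2b2d_co.PL.Pad

/-!
# The algebraic identity behind the monotonicity of `V`
-/

set_option autoImplicit false
set_option linter.unusedSectionVars false

namespace Pool.Agent.Work.MP_8d2b2d_co.PL

open Matrix Finset MvPolynomial

variable {ι : Type*} [Fintype ι] [DecidableEq ι]

/-- decomposition of `v` against a family of numbers -/
lemma sum_v_mul {M : Matrix ι ι ℝ} (hM : M.PosDef) (v : ι → ℝ) (S : Finset ι) (m : ι → ℂ) :
    ∑ k, (v k : ℂ) * m k = ∑ i ∈ S, (al M v S i : ℂ) * (∑ k, (M i k : ℂ) * m k) +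
      ∑ l ∈ Sᶜ, (rr M v S l : ℂ) * m l := by
  have hsymm : ∀ i j, M i j = M j i := fun i j => by
    have := hM.isHermitian.apply i j
    simpa using this.symm
  have h1 : ∀ k, (v k : ℂ) = (rr M v S k : ℂ) + ∑ i ∈ S, (M k i : ℂ) * (al M v S i : ℂ) := by
    intro k
    rw [rr]
    push_cast
    ring
  have h2 : ∑ l ∈ Sᶜ, (rr M v S l : ℂ) * m l = ∑ l, (rr M v S l : ℂ) * m l := by
    refine Finset.sum_subset (Finset.subset_univ _) fun l _ hl => ?_
    rw [Finset.mem_compl, not_not] at hl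
    rw [rr_of_mem hM v hl]
    simp
  rw [h2]
  calc ∑ k, (v k : ℂ) * m k
      = ∑ k, ((rr M v S k : ℂ) + ∑ i ∈ S, (M k i : ℂ) * (al M v S i : ℂ)) * m k := by
        refine Finset.sum_congr rfl fun k _ => ?_
        rw [← h1 k]
    _ = ∑ k, (rr M v S k : ℂ) * m k +
          ∑ k, ∑ i ∈ S, (M k i : ℂ) * (al M v S i : ℂ) * m k := by
        rw [← Finset.sum_add_distrib]
        refine Finset.sum_congr rfl fun k _ => ?_
        rw [add_mul, Finset.sum_mul]
    _ = _ := by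
        rw [add_comm, Finset.sum_comm]
        congr 1
        refine Finset.sum_congr rfl fun i _ => ?_
        rw [Finset.mul_sum]
        refine Finset.sum_congr rfl fun k _ => ?_
        rw [hsymm k i]
        ring

/-- the linear form `∑ v_k X_k` -/
noncomputable def lin (v : ι → ℝ) : MvPolynomial ι ℝ := ∑ k, C (v k) * X k

/-- square-free monomial -/
noncomputable def xS (S : Finset ι) : MvPolynomial ι ℝ := ∏ i ∈ S, X i

lemma X_mul_xS {S : Finset ι} {l : ι} (hl : l ∉ S) : X l * xS S = xS (insert l S) := by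
  rw [xS, xS, Finset.prod_insert hl]

lemma X_mul_xS_erase {S : Finset ι} {i : ι} (hi : i ∈ S) : X i * xS (S.erase i) = xS S := by
  rw [xS, xS, Finset.mul_prod_erase S (fun i => (X i : MvPolynomial ι ℝ)) hi]

lemma pderiv_xS {S : Finset ι} {i : ι} (hi : i ∉ S) : pderiv i (xS S : MvPolynomial ι ℝ) = 0 := by
  rw [xS]
  induction S using Finset.induction_on with
  | empty => simp
  | insert j S hj ih =>
    rw [Finset.prod_insert hj, pderiv_mul, ih (fun h => hi (Finset.mem_insert_of_mem h)), mul_zero,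
      add_zero, pderiv_X_of_ne (by rintro rfl; exact hi (Finset.mem_insert_self _ _)), zero_mul]

lemma pderiv_lin (v : ι → ℝ) (i : ι) : pderiv i (lin v) = C (v i) := by
  rw [lin, map_sum, Finset.sum_eq_single i]
  · rw [pderiv_mul, pderiv_C, zero_mul, zero_add, pderiv_X_self, mul_one]
  · intro j _ hj
    rw [pderiv_mul, pderiv_C, zero_mul, zero_add, pderiv_X_of_ne hj, mul_zero]
  · intro h
    exact absurd (Finset.mem_univ i) h

/-- The recursion satisfied by the moments. -/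
def Rec (M : Matrix ι ι ℝ) (a : ℂ) (μ : MvPolynomial ι ℝ →ₗ[ℝ] ℂ) : Prop :=
  ∀ i p, ∑ j, (M i j : ℂ) * μ (X i * X j * p) = -a * μ p + μ (X i * pderiv i p)

lemma map_lin_mul (μ : MvPolynomial ι ℝ →ₗ[ℝ] ℂ) (v : ι → ℝ) (p : MvPolynomial ι ℝ) :
    μ (lin v * p) = ∑ k, (v k : ℂ) * μ (X k * p) := by
  rw [lin, Finset.sum_mul, map_sum]
  refine Finset.sum_congr rfl fun k _ => ?_
  rw [mul_assoc, ← smul_eq_C_mul, map_smul, Complex.real_smul]

lemma E2 {M : Matrix ι ι ℝ} (hM : M.PosDef) {a : ℂ} {μ : MvPolynomial ι ℝ →ₗ[ℝ] ℂ}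
    (hμ : Rec M a μ) (v : ι → ℝ) (U : Finset ι) :
    μ (lin v * xS U) = -a * ∑ i ∈ U, (al M v U i : ℂ) * μ (xS (U.erase i)) +
      ∑ l ∈ Uᶜ, (rr M v U l : ℂ) * μ (xS (insert l U)) := by
  rw [map_lin_mul, sum_v_mul hM v U]
  congr 1
  · rw [Finset.mul_sum]
    refine Finset.sum_congr rfl fun i hi => ?_
    have h := hμ i (xS (U.erase i))
    rw [pderiv_xS (Finset.notMem_erase i U), mul_zero, map_zero, add_zero] at h
    have h2 : ∑ k, (M i k : ℂ) * μ (X k * xS U) =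
        ∑ j, (M i j : ℂ) * μ (X i * X j * xS (U.erase i)) := by
      refine Finset.sum_congr rfl fun k _ => ?_
      congr 2
      rw [mul_comm (X i) (X k), mul_assoc, X_mul_xS_erase hi]
    rw [h2, h]
    ring
  · refine Finset.sum_congr rfl fun l hl => ?_
    rw [X_mul_xS (Finset.mem_compl.1 hl)]

lemma E1 {M : Matrix ι ι ℝ} (hM : M.PosDef) {a : ℂ} {μ : MvPolynomial ι ℝ →ₗ[ℝ] ℂ}
    (hμ : Rec M a μ) (v : ι → ℝ) (S : Finset ι) :
    μ (lin v * (lin v * xS S)) - (∑ i ∈ S, (v i : ℂ) * (al M v S i : ℂ)) * μ (xS S) =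
      -a * ∑ i ∈ S, (al M v S i : ℂ) * μ (lin v * xS (S.erase i)) +
      ∑ l ∈ Sᶜ, (rr M v S l : ℂ) * μ (lin v * xS (insert l S)) := by
  rw [map_lin_mul μ v (lin v * xS S), sum_v_mul hM v S]
  have h1 : ∀ i ∈ S, ∑ k, (M i k : ℂ) * μ (X k * (lin v * xS S)) =
      -a * μ (lin v * xS (S.erase i)) + (v i : ℂ) * μ (xS S) := by
    intro i hi
    have h := hμ i (lin v * xS (S.erase i))
    rw [pderiv_mul, pderiv_xS (Finset.notMem_erase i S), mul_zero, add_zero, pderiv_lin] at h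
    have h3 : (X i : MvPolynomial ι ℝ) * (C (v i) * xS (S.erase i)) = v i • xS S := by
      rw [smul_eq_C_mul, ← X_mul_xS_erase hi]
      ring
    rw [h3, map_smul, Complex.real_smul] at h
    rw [← h]
    refine Finset.sum_congr rfl fun k _ => ?_
    congr 2
    rw [← X_mul_xS_erase hi]
    ring
  have h2 : ∑ i ∈ S, (al M v S i : ℂ) * (∑ k, (M i k : ℂ) * μ (X k * (lin v * xS S))) =
      -a * ∑ i ∈ S, (al M v S i : ℂ) * μ (lin v * xS (S.erase i)) +
        (∑ i ∈ S, (v i : ℂ) * (al M v S i : ℂ)) * μ (xS S) := by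
    rw [Finset.mul_sum, Finset.sum_mul, ← Finset.sum_add_distrib]
    refine Finset.sum_congr rfl fun i hi => ?_
    rw [h1 i hi]
    ring
  have h3 : ∑ l ∈ Sᶜ, (rr M v S l : ℂ) * μ (X l * (lin v * xS S)) =
      ∑ l ∈ Sᶜ, (rr M v S l : ℂ) * μ (lin v * xS (insert l S)) := by
    refine Finset.sum_congr rfl fun l hl => ?_
    rw [← X_mul_xS (Finset.mem_compl.1 hl)]
    congr 2
    ring
  rw [h2, h3]
  ring

/-- exchange of summation between pairs `(S, i ∈ S)` and `(U, i ∉ U)` -/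
lemma sum_mem_eq {R : Type*} [AddCommMonoid R] (F : Finset ι → ι → R) :
    ∑ S : Finset ι, ∑ i ∈ S, F S i = ∑ U : Finset ι, ∑ i ∈ Uᶜ, F (insert i U) i := by
  rw [Finset.sum_sigma', Finset.sum_sigma']
  refine Finset.sum_bij' (fun x _ => ⟨x.1.erase x.2, x.2⟩) (fun x _ => ⟨insert x.2 x.1, x.2⟩)
    ?_ ?_ ?_ ?_ ?_
  · rintro ⟨S, i⟩ h
    simp
  · rintro ⟨S, i⟩ h
    simp
  · rintro ⟨S, i⟩ h
    rw [Finset.mem_sigma] at h
    simp only [Sigma.mk.injEq, heq_eq_eq, and_true]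
    exact Finset.insert_erase h.2
  · rintro ⟨S, i⟩ h
    rw [Finset.mem_sigma, Finset.mem_compl] at h
    simp only [Sigma.mk.injEq, heq_eq_eq, and_true]
    exact Finset.erase_insert h.2
  · rintro ⟨S, i⟩ h
    rw [Finset.mem_sigma] at h
    rw [Finset.insert_erase h.2]

/-- The key identity. -/
theorem key {M : Matrix ι ι ℝ} (hM : M.PosDef) {a : ℂ} (ha : a ≠ 0)
    {μ : MvPolynomial ι ℝ →ₗ[ℝ] ℂ} (hμ : Rec M a μ) (v : ι → ℝ) :
    ∑ S : Finset ι, ((pad M S).det : ℂ) * ((‖a‖ : ℂ) ^ S.card)⁻¹ *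
      ((starRingEnd ℂ) (μ (xS S)) *
        (μ (lin v * (lin v * xS S)) - (∑ i ∈ S, (v i : ℂ) * (al M v S i : ℂ)) * μ (xS S))) =
    -a * ∑ U : Finset ι, ((pad M U).det : ℂ) * ((‖a‖ : ℂ) ^ (U.card + 1))⁻¹ *
      (μ (lin v * xS U) * (starRingEnd ℂ) (μ (lin v * xS U))) := by
  have hn : (‖a‖ : ℂ) ≠ 0 := by
    rw [Ne, Complex.ofReal_eq_zero, norm_eq_zero]
    exact ha
  have haa : a * (starRingEnd ℂ) a = (‖a‖ : ℂ) ^ 2 := by
    rw [Complex.mul_conj, Complex.normSq_eq_norm_sq]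
    push_cast
    rfl
  -- abbreviations
  set d : Finset ι → ℂ := fun S => ((pad M S).det : ℂ) with hd
  set w : Finset ι → ℂ := fun S => ((‖a‖ : ℂ) ^ S.card)⁻¹ with hw
  have hcr : ∀ (U : Finset ι) (i : ι), i ∉ U →
      d (insert i U) * (al M v (insert i U) i : ℂ) = d U * (rr M v U i : ℂ) := by
    intro U i hi
    have := det_mul_al hM v hi
    simp only [hd]
    exact_mod_cast this
  have step1 : ∑ S : Finset ι, d S * w S * ((starRingEnd ℂ) (μ (xS S)) *
        (μ (lin v * (lin v * xS S)) - (∑ i ∈ S, (v i : ℂ) * (al M v S i : ℂ)) * μ (xS S))) =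
      ∑ S : Finset ι, ∑ i ∈ S, d S * w S * (starRingEnd ℂ) (μ (xS S)) *
        (-a * ((al M v S i : ℂ) * μ (lin v * xS (S.erase i)))) +
      ∑ S : Finset ι, ∑ l ∈ Sᶜ, d S * w S * (starRingEnd ℂ) (μ (xS S)) *
        ((rr M v S l : ℂ) * μ (lin v * xS (insert l S))) := by
    rw [← Finset.sum_add_distrib]
    refine Finset.sum_congr rfl fun S _ => ?_
    rw [E1 hM hμ v S, ← Finset.mul_sum, ← Finset.mul_sum, ← Finset.mul_sum]
    ring
  have step2 : ∑ S : Finset ι, ∑ i ∈ S, d S * w S * (starRingEnd ℂ) (μ (xS S)) *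
        (-a * ((al M v S i : ℂ) * μ (lin v * xS (S.erase i)))) =
      ∑ U : Finset ι, ∑ i ∈ Uᶜ, -a * (d U * ((‖a‖ : ℂ) ^ (U.card + 1))⁻¹ * μ (lin v * xS U)) *
        ((rr M v U i : ℂ) * (starRingEnd ℂ) (μ (xS (insert i U)))) := by
    rw [sum_mem_eq (fun S i => d S * w S * (starRingEnd ℂ) (μ (xS S)) *
        (-a * ((al M v S i : ℂ) * μ (lin v * xS (S.erase i)))))]
    refine Finset.sum_congr rfl fun U _ => Finset.sum_congr rfl fun i hi => ?_
    rw [Finset.mem_compl] at hi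
    rw [Finset.erase_insert hi]
    have h1 := hcr U i hi
    have h2 : w (insert i U) = ((‖a‖ : ℂ) ^ (U.card + 1))⁻¹ := by
      simp only [hw, Finset.card_insert_of_notMem hi]
    rw [h2]
    linear_combination (-a * ((‖a‖ : ℂ) ^ (U.card + 1))⁻¹ *
      (starRingEnd ℂ) (μ (xS (insert i U))) * μ (lin v * xS U)) * h1
  have step3 : ∑ S : Finset ι, ∑ l ∈ Sᶜ, d S * w S * (starRingEnd ℂ) (μ (xS S)) *
        ((rr M v S l : ℂ) * μ (lin v * xS (insert l S))) =
      ∑ U : Finset ι, ∑ l ∈ U, -a * (d U * ((‖a‖ : ℂ) ^ (U.card + 1))⁻¹ * μ (lin v * xS U)) *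
        (-(starRingEnd ℂ) a * ((al M v U l : ℂ) * (starRingEnd ℂ) (μ (xS (U.erase l))))) := by
    rw [sum_mem_eq (fun U l => -a * (d U * ((‖a‖ : ℂ) ^ (U.card + 1))⁻¹ * μ (lin v * xS U)) *
        (-(starRingEnd ℂ) a * ((al M v U l : ℂ) * (starRingEnd ℂ) (μ (xS (U.erase l))))))]
    refine Finset.sum_congr rfl fun S _ => Finset.sum_congr rfl fun l hl => ?_
    rw [Finset.mem_compl] at hl
    rw [Finset.erase_insert hl, Finset.card_insert_of_notMem hl]
    have h1 := hcr S l hl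
    have h2 : a * (starRingEnd ℂ) a * ((‖a‖ : ℂ) ^ (S.card + 1 + 1))⁻¹ = w S := by
      simp only [hw]
      rw [haa, pow_add, pow_add, mul_inv, mul_inv]
      field_simp
    rw [← h2]
    linear_combination (-(a * (starRingEnd ℂ) a * ((‖a‖ : ℂ) ^ (S.card + 1 + 1))⁻¹ *
      (starRingEnd ℂ) (μ (xS S)) * μ (lin v * xS (insert l S)))) * h1
  have step4 : ∀ U : Finset ι, (starRingEnd ℂ) (μ (lin v * xS U)) =
      -(starRingEnd ℂ) a * ∑ i ∈ U, (al M v U i : ℂ) * (starRingEnd ℂ) (μ (xS (U.erase i))) +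
      ∑ l ∈ Uᶜ, (rr M v U l : ℂ) * (starRingEnd ℂ) (μ (xS (insert l U))) := by
    intro U
    rw [E2 hM hμ v U]
    simp only [map_add, map_mul, map_neg, map_sum, Complex.conj_ofReal]
  rw [step1, step2, step3, ← Finset.sum_add_distrib, Finset.mul_sum]
  refine Finset.sum_congr rfl fun U _ => ?_
  rw [step4 U, ← Finset.mul_sum, ← Finset.mul_sum, ← Finset.mul_sum]
  ring

end Pool.Agent.Work.MP_8d2b2d_co.PL
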