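import Mathlib

/-!
# The standard complex Gaussian
-/

set_option autoImplicit false
set_option linter.unusedSectionVars false

namespace Pool.Agent.Work.MP_8d2b2d_co.PL

open MeasureTheory
open scoped Real

/-- density of the standard complex Gaussian -/
noncomputable def dC (z : ℂ) : ℝ := π⁻¹ * Real.exp (-‖z‖ ^ 2)

lemma dC_pos (z : ℂ) : 0 < dC z := by
  unfold dC
  have := Real.pi_pos
  positivity

lemma measurable_dC : Measurable dC := by
  unfold dC
  fun_prop

/-- standard complex Gaussian measure -/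
noncomputable def gC : Measure ℂ := volume.withDensity fun z => ENNReal.ofReal (dC z)

lemma integral_gC {E : Type*} [NormedAddCommGroup E] [NormedSpace ℝ E] (f : ℂ → E) :
    ∫ z, f z ∂gC = ∫ z, dC z • f z := by
  rw [gC, integral_withDensity_eq_integral_toReal_smul measurable_dC.ennreal_ofReal
    (ae_of_all _ fun _ => ENNReal.ofReal_lt_top)]
  congr 1
  funext z
  rw [ENNReal.toReal_ofReal (dC_pos z).le]

lemma integrable_gC {E : Type*} [NormedAddCommGroup E] [NormedSpace ℝ E] {f : ℂ → E} :
    Integrable f gC ↔ Integrable (fun z => dC z • f z) := by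
  rw [gC, integrable_withDensity_iff_integrable_smul' measurable_dC.ennreal_ofReal
    (ae_of_all _ fun _ => ENNReal.ofReal_lt_top)]
  have : (fun z => (ENNReal.ofReal (dC z)).toReal • f z) = fun z => dC z • f z := by
    funext z
    rw [ENNReal.toReal_ofReal (dC_pos z).le]
  rw [this]

lemma integrable_norm_pow (k : ℕ) {b : ℝ} (hb : 0 < b) :
    Integrable fun z : ℂ => ‖z‖ ^ k * Real.exp (-b * ‖z‖ ^ 2) := by
  have h := Complex.integral_rpow_mul_exp_neg_mul_rpow (p := 2) (q := k) (b := b) (by norm_num)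
    (by have : (0 : ℝ) ≤ k := Nat.cast_nonneg k
        linarith) hb
  have h2 : (fun z : ℂ => ‖z‖ ^ k * Real.exp (-b * ‖z‖ ^ 2)) =
      fun z : ℂ => ‖z‖ ^ (k : ℝ) * Real.exp (-b * ‖z‖ ^ (2 : ℝ)) := by
    funext z
    rw [Real.rpow_natCast, Real.rpow_two]
  rw [h2]
  by_contra hcon
  rw [integral_undef hcon] at h
  have h3 : 0 < 2 * π / 2 * b ^ (-((k : ℝ) + 2) / 2) * Real.Gamma (((k : ℝ) + 2) / 2) := by
    have := Real.pi_pos
    have h4 : 0 < Real.Gamma (((k : ℝ) + 2) / 2) := Real.Gamma_pos_of_pos (by positivity)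
    positivity
  linarith

lemma integral_norm_pow (k : ℕ) :
    ∫ z : ℂ, ‖z‖ ^ (2 * k) * Real.exp (-‖z‖ ^ 2) = π * k.factorial := by
  have h := Complex.integral_rpow_mul_exp_neg_rpow (p := 2) (q := 2 * k) (by norm_num)
    (by have : (0 : ℝ) ≤ k := Nat.cast_nonneg k
        linarith)
  have h2 : (fun z : ℂ => ‖z‖ ^ (2 * k) * Real.exp (-‖z‖ ^ 2)) =
      fun z : ℂ => ‖z‖ ^ (2 * k : ℝ) * Real.exp (-‖z‖ ^ (2 : ℝ)) := by
    funext z
    rw [Real.rpow_two]
    congr 1
    rw [← Real.rpow_natCast]
    push_cast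
    rfl
  rw [h2, h]
  have h3 : (2 * (k : ℝ) + 2) / 2 = k + 1 := by ring
  rw [h3, Real.Gamma_nat_eq_factorial]
  ring

instance : IsProbabilityMeasure gC := by
  constructor
  rw [gC, withDensity_apply _ MeasurableSet.univ, Measure.restrict_univ,
    ← ofReal_integral_eq_lintegral_ofReal]
  · have h := integral_norm_pow 0
    simp only [mul_zero, pow_zero, one_mul, Nat.factorial_zero, Nat.cast_one, mul_one] at h
    unfold dC
    rw [integral_const_mul, h, inv_mul_cancel₀ Real.pi_ne_zero, ENNReal.ofReal_one]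
  · have h := (integrable_norm_pow 0 one_pos).const_mul (π⁻¹)
    refine h.congr (ae_of_all _ fun z => ?_)
    simp [dC]
  · exact Filter.Eventually.of_forall fun z => (dC_pos z).le

/-- mixed monomials are integrable -/
lemma integrable_mono (a b : ℕ) :
    Integrable (fun z : ℂ => (starRingEnd ℂ) z ^ a * z ^ b) gC := by
  rw [integrable_gC]
  refine ((integrable_norm_pow (a + b) one_pos).const_mul (π⁻¹)).mono' ?_ ?_
  · refine Measurable.aestronglyMeasurable ?_
    refine measurable_dC.smul ?_
    exact ((Complex.continuous_conj.measurable).pow_const a).mul (measurable_id.pow_const b)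
  · refine ae_of_all _ fun z => ?_
    rw [norm_smul, Real.norm_of_nonneg (dC_pos z).le, norm_mul, norm_pow, norm_pow,
      RCLike.norm_conj, dC, pow_add]
    have : -1 * ‖z‖ ^ 2 = -‖z‖ ^ 2 := by ring
    rw [this]
    refine le_of_eq ?_
    ring

lemma integral_mono_eq (a b : ℕ) :
    ∫ z : ℂ, (starRingEnd ℂ) z ^ a * z ^ b ∂gC = if a = b then (a.factorial : ℂ) else 0 := by
  rw [integral_gC]
  by_cases hab : a = b
  · subst hab
    rw [if_pos rfl]
    have h1 : ∀ z : ℂ, dC z • ((starRingEnd ℂ) z ^ a * z ^ a) =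
        ((π⁻¹ * (‖z‖ ^ (2 * a) * Real.exp (-‖z‖ ^ 2)) : ℝ) : ℂ) := by
      intro z
      rw [Complex.real_smul, ← mul_pow, Complex.conj_mul', dC]
      push_cast
      ring
    simp only [h1]
    rw [integral_complex_ofReal, integral_const_mul, integral_norm_pow]
    have := Real.pi_ne_zero
    push_cast
    field_simp
  · rw [if_neg hab]
    set f : ℂ → ℂ := fun z => dC z • ((starRingEnd ℂ) z ^ a * z ^ b) with hf
    set θ : ℝ := π / ((b : ℝ) - a) with hθ
    have hba : (b : ℝ) - a ≠ 0 := by
      intro h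
      apply hab
      have : (b : ℝ) = a := by linarith
      exact_mod_cast this.symm
    set u : Circle := Circle.exp θ with hu
    have h1 : ∫ z, f ((rotation u) z) = ∫ z, f z :=
      (rotation u).measurePreserving.integral_comp
        (rotation u).toHomeomorph.measurableEmbedding f
    have h2 : ∀ z, f ((rotation u) z) = -f z := by
      intro z
      have hrot : (rotation u) z = u * z := rotation_apply u z
      have hd : dC ((rotation u) z) = dC z := by
        rw [dC, dC, LinearIsometryEquiv.norm_map]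
      simp only [hf]
      rw [hd, hrot, map_mul, mul_pow, mul_pow]
      have h3 : (starRingEnd ℂ) (u : ℂ) ^ a * (u : ℂ) ^ b = -1 := by
        rw [hu, Circle.coe_exp, ← Complex.exp_conj, ← Complex.exp_nat_mul, ← Complex.exp_nat_mul,
          ← Complex.exp_add]
        have h4 : (a : ℂ) * (starRingEnd ℂ) ((θ : ℂ) * Complex.I) + (b : ℂ) * ((θ : ℂ) * Complex.I) =
            π * Complex.I := by
          rw [map_mul, Complex.conj_ofReal, Complex.conj_I]
          have h5 : ((b : ℂ) - a) * (θ : ℂ) = π := by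
            rw [hθ]
            have h6 : ((b : ℂ) - a) ≠ 0 := by exact_mod_cast hba
            push_cast
            field_simp
          linear_combination Complex.I * h5
        rw [h4, Complex.exp_pi_mul_I]
      have h7 : (starRingEnd ℂ) (u : ℂ) ^ a * (starRingEnd ℂ) z ^ a * ((u : ℂ) ^ b * z ^ b) =
          -((starRingEnd ℂ) z ^ a * z ^ b) := by
        linear_combination ((starRingEnd ℂ) z ^ a * z ^ b) * h3
      rw [h7, smul_neg]
    simp only [h2] at h1
    rw [integral_neg] at h1
    have h3 : (2 : ℂ) * ∫ z, f z = 0 := by linear_combination -h1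
    exact (mul_eq_zero.1 h3).resolve_left two_ne_zero

/-- characteristic function -/
lemma integral_cexp_gC (w : ℂ) :
    ∫ z : ℂ, Complex.exp ((((w * z).re : ℝ) : ℂ) * Complex.I) ∂gC =
      (Real.exp (-(‖w‖ ^ 2 / 4)) : ℂ) := by
  rw [integral_gC]
  have h := GaussianFourier.integral_cexp_neg_mul_sq_norm_add (V := ℂ) (b := 1)
    (by norm_num) Complex.I ((starRingEnd ℂ) w)
  have h1 : ∀ z : ℂ, dC z • Complex.exp ((((w * z).re : ℝ) : ℂ) * Complex.I) =
      ((π⁻¹ : ℝ) : ℂ) * Complex.exp (-1 * ‖z‖ ^ 2 + Complex.I *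
        (inner ℝ ((starRingEnd ℂ) w) z : ℂ)) := by
    intro z
    rw [Complex.real_smul, dC, Complex.inner, Complex.conj_conj, Complex.exp_add]
    push_cast
    rw [neg_one_mul, mul_comm z w, mul_comm Complex.I]
    ring
  simp only [h1]
  rw [integral_const_mul, h, Complex.finrank_real_complex]
  have h2 : (((2 : ℕ) : ℂ) / 2) = 1 := by norm_num
  rw [h2, Complex.cpow_one, RCLike.norm_conj]
  have hpi : (π : ℂ) ≠ 0 := Complex.ofReal_ne_zero.2 Real.pi_ne_zero
  rw [Complex.I_sq]
  push_cast
  rw [div_one, ← mul_assoc, inv_mul_cancel₀ hpi, one_mul]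
  congr 1
  ring

/-- exponential moments -/
lemma integrable_exp_gC {c : ℝ} (hc : c < 1) :
    Integrable (fun z : ℂ => Real.exp (c * ‖z‖ ^ 2)) gC := by
  rw [integrable_gC]
  have h := (integrable_norm_pow 0 (b := 1 - c) (by linarith)).const_mul (π⁻¹)
  refine h.congr (ae_of_all _ fun z => ?_)
  simp only [pow_zero, one_mul, smul_eq_mul, dC]
  rw [mul_assoc, ← Real.exp_add]
  congr 2
  ring

end Pool.Agent.Work.MP_8d2b2d_co.PL
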