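import Pool.Agent.Work.MP_8d2b2d_co.PL.Law

/-!
# The bound in the right half plane
-/

set_option autoImplicit false
set_option linter.unusedSectionVars false

namespace Pool.Agent.Work.MP_8d2b2d_co.PL

open MeasureTheory Matrix Finset ProbabilityTheory Filter
open scoped Topology

variable {ι : Type*} [Fintype ι] [DecidableEq ι] {Ω : Type*} [MeasurableSpace Ω]

lemma rpow_le_exp {s c r : ℝ} (hs : 0 < s) (hc : 0 < c) (hr : 0 ≤ r) :
    r ^ s ≤ (s / (Real.exp 1 * c)) ^ s * Real.exp (c * r) := by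
  have he := Real.exp_pos 1
  have h1 : c * r / s * Real.exp 1 ≤ Real.exp (c * r / s) := by
    have h2 := Real.add_one_le_exp (c * r / s - 1)
    have h3 : Real.exp (c * r / s) = Real.exp (c * r / s - 1) * Real.exp 1 := by
      rw [← Real.exp_add]; congr 1; ring
    rw [h3]
    refine mul_le_mul_of_nonneg_right ?_ he.le
    linarith
  have h4 : (c * r / s * Real.exp 1) ^ s ≤ Real.exp (c * r) := by
    refine (Real.rpow_le_rpow (by positivity) h1 hs.le).trans_eq ?_
    rw [← Real.exp_mul]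
    congr 1
    field_simp
  have h5 : r ^ s = (s / (Real.exp 1 * c)) ^ s * (c * r / s * Real.exp 1) ^ s := by
    rw [← Real.mul_rpow (by positivity) (by positivity)]
    congr 1
    field_simp
  rw [h5]
  exact mul_le_mul_of_nonneg_left h4 (by positivity)

/-- data of a radial domination -/
structure Dom (P : Measure Ω) (X : ι → Ω → ℝ) (ρ : Ω → ℝ) (Q : ℝ) : Prop where
  meas : Measurable ρ
  nonneg : ∀ ω, 0 ≤ ρ ω
  exp_int : ∀ c : ℝ, 0 < c → c < 1 / 2 → Integrable (fun ω => Real.exp (c * ρ ω)) P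
  pos : 0 < Q
  dom : ∀ ω, ∏ i, X i ω ^ 2 ≤ Q * ρ ω ^ Fintype.card ι

namespace GV

variable {P : Measure Ω} {X : ι → Ω → ℝ} {C : Matrix ι ι ℝ} {ρ : Ω → ℝ} {Q : ℝ}

lemma mgf_le [Nonempty ι] (h : GV P X C) (hd : Dom P X ρ Q) {c : ℝ} (hc : 0 < c)
    (hc2 : c < 1 / 2) {x : ℝ} (hx : 0 < x) :
    mgf (YY X) P x ≤ Q ^ x * (Fintype.card ι * x / (Real.exp 1 * c)) ^ (Fintype.card ι * x) *
      ∫ ω, Real.exp (c * ρ ω) ∂P := by
  have hn : (0 : ℝ) < Fintype.card ι := by exact_mod_cast Fintype.card_pos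
  rw [h.mgf_eq, ← integral_const_mul]
  refine integral_mono_of_nonneg (ae_of_all _ fun ω => ?_) ((hd.exp_int c hc hc2).const_mul _)
    (ae_of_all _ fun ω => ?_)
  · exact Finset.prod_nonneg fun i _ => Real.rpow_nonneg (abs_nonneg _) _
  · have h1 : ∏ i, |X i ω| ^ (2 * x) = (∏ i, X i ω ^ 2) ^ x := by
      rw [← Real.finsetProd_rpow _ _ (fun i _ => sq_nonneg _)]
      refine Finset.prod_congr rfl fun i _ => ?_
      rw [Real.rpow_mul (abs_nonneg _), Real.rpow_two, sq_abs]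
    have h2 : (∏ i, X i ω ^ 2) ^ x ≤ (Q * ρ ω ^ Fintype.card ι) ^ x :=
      Real.rpow_le_rpow (Finset.prod_nonneg fun i _ => sq_nonneg _) (hd.dom ω) hx.le
    have h3 : (Q * ρ ω ^ Fintype.card ι) ^ x = Q ^ x * ρ ω ^ (Fintype.card ι * x) := by
      rw [Real.mul_rpow hd.pos.le (pow_nonneg (hd.nonneg ω) _), Real.rpow_natCast_mul (hd.nonneg ω)]
    have h4 := rpow_le_exp (s := Fintype.card ι * x) (by positivity) hc (hd.nonneg ω)
    show ∏ i, |X i ω| ^ (2 * x) ≤ _
    rw [h1]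
    refine h2.trans ?_
    rw [h3]
    show Q ^ x * _ ≤ Q ^ x * _ * Real.exp (c * ρ ω)
    rw [mul_assoc]
    exact mul_le_mul_of_nonneg_left h4 (Real.rpow_nonneg hd.pos.le _)

/-- the auxiliary function -/
noncomputable def aux (P : Measure Ω) (X : ι → Ω → ℝ) (A : ℝ) (z : ℂ) : ℂ :=
  FF P X z / (cc z ^ Fintype.card ι * Complex.exp (z * Real.log A))

lemma norm_aux (A : ℝ) (hA : 0 < A) (z : ℂ) :
    ‖aux P X A z‖ = ‖FF P X z‖ / (‖cc z‖ ^ Fintype.card ι * A ^ z.re) := by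
  rw [aux, norm_div, norm_mul, norm_pow, Complex.norm_exp]
  congr 3
  rw [Real.rpow_def_of_pos hA]
  congr 1
  rw [mul_comm, Complex.re_ofReal_mul]

lemma aux_diff [Nonempty ι] (h : GV P X C) (A : ℝ) {z : ℂ} (hz : 0 ≤ z.re) :
    DifferentiableAt ℂ (aux P X A) z := by
  have hn : (0 : ℝ) < Fintype.card ι := by exact_mod_cast Fintype.card_pos
  unfold aux
  refine DifferentiableAt.div (h.FF_diff (by nlinarith)) ?_ ?_
  · exact ((cc_differentiableAt (by linarith)).pow _).mul (by fun_prop)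
  · exact mul_ne_zero (pow_ne_zero _ (cc_ne_zero (by linarith))) (Complex.exp_ne_zero _)

lemma norm_FF_ofReal (x : ℝ) : ‖FF P X x‖ = mgf (YY X) P x := by
  rw [FF, complexMGF_ofReal, Complex.norm_real, Real.norm_of_nonneg mgf_nonneg]

lemma norm_cc_ofReal {x : ℝ} (hx : 0 ≤ x) : ‖cc x‖ = cr x := by
  rw [cc_ofReal, Complex.norm_real, Real.norm_of_nonneg (cr_pos (by linarith)).le]

lemma norm_aux_ofReal {A : ℝ} (hA : 0 < A) {x : ℝ} (hx : 0 ≤ x) :
    ‖aux P X A x‖ = mgf (YY X) P x / (cr x ^ Fintype.card ι * A ^ x) := by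
  rw [norm_aux A hA, norm_FF_ofReal, norm_cc_ofReal hx, Complex.ofReal_re]

/-- the auxiliary function tends to zero on the real axis -/
lemma aux_tendsto [Nonempty ι] (h : GV P X C) (hd : Dom P X ρ Q) {A : ℝ}
    (hA : (Fintype.card ι : ℝ) ^ Fintype.card ι * Q < A) :
    Tendsto (fun x : ℝ => ‖aux P X A x‖) atTop (𝓝 0) := by
  set n := Fintype.card ι with hnn
  have hn : (0 : ℝ) < n := by
    rw [hnn]; exact_mod_cast Fintype.card_pos
  have hQ := hd.pos
  have hA0 : 0 < A := lt_trans (by positivity) hA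
  -- choose `c`
  obtain ⟨c, hc0, hc2, hcA⟩ : ∃ c : ℝ, 0 < c ∧ c < 1 / 2 ∧ Q * (n / (2 * c)) ^ n < A := by
    have hcont : ContinuousAt (fun c : ℝ => Q * (n / (2 * c)) ^ n) (1 / 2) := by
      refine ContinuousAt.mul continuousAt_const (ContinuousAt.pow ?_ _)
      refine ContinuousAt.div continuousAt_const (by fun_prop) (by norm_num)
    have hlt : Q * (n / (2 * (1 / 2 : ℝ))) ^ n < A := by
      have : (n : ℝ) / (2 * (1 / 2 : ℝ)) = n := by norm_num
      rw [this, mul_comm]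
      exact hA
    have hev := hcont.eventually_lt continuousAt_const hlt
    have hev2 : ∀ᶠ c in 𝓝[<] (1 / 2 : ℝ), Q * (n / (2 * c)) ^ n < A :=
      hev.filter_mono nhdsWithin_le_nhds
    have hev3 : ∀ᶠ c in 𝓝[<] (1 / 2 : ℝ), 0 < c :=
      (Ioi_mem_nhds (by norm_num : (0 : ℝ) < 1 / 2) |> mem_nhdsWithin_of_mem_nhds)
    obtain ⟨c, hc1, hc2, hc3⟩ := (hev2.and (hev3.and self_mem_nhdsWithin)).exists
    exact ⟨c, hc2, hc3, hc1⟩
  set D : ℝ := Q * (n / (2 * c)) ^ n with hD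
  have hD0 : 0 < D := by positivity
  set K : ℝ := ∫ ω, Real.exp (c * ρ ω) ∂P with hK
  have hK0 : 0 ≤ K := integral_nonneg fun ω => (Real.exp_pos _).le
  set c₁ : ℝ := Real.exp (-1) / √Real.pi with hc₁
  have hc₁0 : 0 < c₁ := div_pos (Real.exp_pos _) (Real.sqrt_pos.2 Real.pi_pos)
  set b : ℝ := Real.log (A / D) with hb
  have hb0 : 0 < b := Real.log_pos (by rw [one_lt_div hD0]; exact hcA)
  have hlim := tendsto_rpow_mul_exp_neg_mul_atTop_nhds_zero ((n : ℝ) / 2) b hb0
  have hlim2 := hlim.const_mul (K * (c₁ ^ n)⁻¹)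
  rw [mul_zero] at hlim2
  refine squeeze_zero' (Eventually.of_forall fun x => norm_nonneg _) ?_ hlim2
  filter_upwards [eventually_ge_atTop (1 / 2 : ℝ)] with x hx
  have hx0 : 0 < x := by linarith
  rw [norm_aux_ofReal hA0 hx0.le, ← hnn]
  have h1 := h.mgf_le hd hc0 hc2 hx0
  rw [← hnn, ← hK] at h1
  have h2 := cr_lower hx
  rw [← hc₁] at h2
  have hcr := cr_pos (x := x) (by linarith)
  have h3 : (c₁ * ((2 * x / Real.exp 1) ^ x / √x)) ^ n ≤ cr x ^ n :=
    pow_le_pow_left₀ (by positivity) h2 n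
  have hsx : 0 < √x := Real.sqrt_pos.2 hx0
  have hlow : 0 < (c₁ * ((2 * x / Real.exp 1) ^ x / √x)) ^ n := by positivity
  have h4 : mgf (YY X) P x / (cr x ^ n * A ^ x) ≤
      (Q ^ x * (n * x / (Real.exp 1 * c)) ^ (n * x) * K) /
        ((c₁ * ((2 * x / Real.exp 1) ^ x / √x)) ^ n * A ^ x) := by
    refine div_le_div₀ (by positivity) h1 (by positivity) ?_
    exact mul_le_mul_of_nonneg_right h3 (by positivity)
  refine h4.trans_eq ?_
  have h5 : (n * x / (Real.exp 1 * c)) ^ (n * x) =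
      ((n / (2 * c)) ^ n) ^ x * ((2 * x / Real.exp 1) ^ x) ^ n := by
    rw [← Real.rpow_natCast (n / (2 * c)) n, ← Real.rpow_mul (by positivity),
      ← Real.rpow_natCast ((2 * x / Real.exp 1) ^ x) n, ← Real.rpow_mul (by positivity),
      mul_comm x (n : ℝ), ← Real.mul_rpow (by positivity) (by positivity)]
    congr 1
    field_simp
  have h6 : Real.exp (-b * x) = D ^ x / A ^ x := by
    rw [← Real.div_rpow hD0.le hA0.le, Real.rpow_def_of_pos (by positivity), hb,
      Real.log_div hD0.ne' hA0.ne', Real.log_div hA0.ne' hD0.ne']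
    congr 1
    ring
  have h7 : x ^ ((n : ℝ) / 2) = √x ^ n := by
    rw [Real.sqrt_eq_rpow, ← Real.rpow_natCast, ← Real.rpow_mul hx0.le]
    congr 1
    ring
  have h8 : D ^ x = Q ^ x * ((n / (2 * c)) ^ n) ^ x := by
    rw [hD, Real.mul_rpow hQ.le (by positivity)]
  rw [h5, h6, h7, h8, mul_pow, div_pow ((2 * x / Real.exp 1) ^ x) (√x) n]
  have hA1 : A ^ x ≠ 0 := (Real.rpow_pos_of_pos hA0 x).ne'
  have hB1 : ((2 * x / Real.exp 1) ^ x) ≠ 0 := by positivity
  field_simp

/-- a uniform bound on the positive real axis -/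
lemma aux_bdd [Nonempty ι] (h : GV P X C) (hd : Dom P X ρ Q) {A : ℝ}
    (hA : (Fintype.card ι : ℝ) ^ Fintype.card ι * Q < A) :
    ∃ K : ℝ, 0 ≤ K ∧ ∀ x : ℝ, 0 ≤ x → ‖aux P X A x‖ ≤ K := by
  have ht := h.aux_tendsto hd hA
  obtain ⟨x₀, hx₀⟩ := (eventually_atTop.1 (ht.eventually_le_const zero_lt_one))
  have hcont : ContinuousOn (fun x : ℝ => aux P X A x) (Set.Icc 0 x₀) := by
    intro x hx
    refine ContinuousAt.continuousWithinAt ?_
    exact ContinuousAt.comp (g := aux P X A) (f := fun x : ℝ => (x : ℂ))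
      (h.aux_diff A (z := (x : ℂ)) (by simpa using hx.1)).continuousAt
      Complex.continuous_ofReal.continuousAt
  obtain ⟨K, hK⟩ := isCompact_Icc.exists_bound_of_continuousOn hcont
  refine ⟨max K 1, le_max_of_le_right zero_le_one, fun x hx => ?_⟩
  by_cases hxx : x ≤ x₀
  · exact (hK x ⟨hx, hxx⟩).trans (le_max_left _ _)
  · exact (hx₀ x (not_le.1 hxx).le).trans (le_max_right _ _)

/-- The half plane bound with a larger constant -/
lemma half_aux [Nonempty ι] (h : GV P X C) (hd : Dom P X ρ Q) {A : ℝ}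
    (hA : (Fintype.card ι : ℝ) ^ Fintype.card ι * Q < A) {z : ℂ} (hz : 0 ≤ z.re) :
    ‖aux P X A z‖ ≤ 1 := by
  have hn : (0 : ℝ) < Fintype.card ι := by exact_mod_cast Fintype.card_pos
  have hA0 : 0 < A := lt_trans (by have := hd.pos; positivity) hA
  obtain ⟨K, hK0, hK⟩ := h.aux_bdd hd hA
  refine PhragmenLindelof.right_half_plane_of_bounded_on_real (f := aux P X A) (C := 1) ?_ ?_ ?_
    ?_ hz
  · refine DifferentiableOn.diffContOnCl ?_
    intro w hw
    have hcl : closure {z : ℂ | 0 < z.re} = {z : ℂ | 0 ≤ z.re} := by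
      rw [Complex.closure_setOfPred_lt_re]
    rw [hcl] at hw
    exact (h.aux_diff A hw).differentiableWithinAt
  · refine ⟨1, one_lt_two, Fintype.card ι * Real.pi, ?_⟩
    refine Asymptotics.IsBigO.of_bound (4 ^ Fintype.card ι * K) ?_
    refine Filter.mem_inf_of_right ?_
    intro w hw
    have hw' : 0 < w.re := hw
    simp only [Set.mem_ofPred_eq]
    rw [Real.norm_of_nonneg (Real.exp_pos _).le, Real.rpow_one, norm_aux A hA0]
    have h1 := cc_lower hw'.le
    have h2 := cr_pos (x := w.re) (by linarith)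
    have h3 := norm_FF_le (P := P) (X := X) w
    have h4 := hK w.re hw'.le
    rw [norm_aux_ofReal hA0 hw'.le] at h4
    have h5 : (Real.exp (-(Real.pi * |w.im|)) / 4 * cr w.re) ^ Fintype.card ι ≤
        ‖cc w‖ ^ Fintype.card ι := pow_le_pow_left₀ (by positivity) h1 _
    have h6 : ‖FF P X w‖ / (‖cc w‖ ^ Fintype.card ι * A ^ w.re) ≤
        mgf (YY X) P w.re / ((Real.exp (-(Real.pi * |w.im|)) / 4 * cr w.re) ^ Fintype.card ι *
          A ^ w.re) := by
      refine div_le_div₀ mgf_nonneg h3 (by positivity) ?_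
      exact mul_le_mul_of_nonneg_right h5 (by positivity)
    refine h6.trans ?_
    have h7 : mgf (YY X) P w.re / ((Real.exp (-(Real.pi * |w.im|)) / 4 * cr w.re) ^
        Fintype.card ι * A ^ w.re) = 4 ^ Fintype.card ι *
        Real.exp (Fintype.card ι * (Real.pi * |w.im|)) *
        (mgf (YY X) P w.re / (cr w.re ^ Fintype.card ι * A ^ w.re)) := by
      rw [mul_pow, div_pow, ← Real.exp_nat_mul, mul_neg, Real.exp_neg]
      have h8 : Real.exp (Fintype.card ι * (Real.pi * |w.im|)) ≠ 0 := (Real.exp_pos _).ne'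
      have h9 : A ^ w.re ≠ 0 := (Real.rpow_pos_of_pos hA0 _).ne'
      field_simp
    rw [h7]
    have h10 : Real.exp (Fintype.card ι * (Real.pi * |w.im|)) ≤
        Real.exp (Fintype.card ι * Real.pi * ‖w‖) := by
      refine Real.exp_le_exp.2 ?_
      rw [← mul_assoc]
      exact mul_le_mul_of_nonneg_left (Complex.abs_im_le_norm w) (by positivity)
    calc 4 ^ Fintype.card ι * Real.exp (Fintype.card ι * (Real.pi * |w.im|)) *
        (mgf (YY X) P w.re / (cr w.re ^ Fintype.card ι * A ^ w.re))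
        ≤ 4 ^ Fintype.card ι * Real.exp (Fintype.card ι * Real.pi * ‖w‖) * K := by
          refine mul_le_mul ?_ h4 (div_nonneg mgf_nonneg (by positivity)) (by positivity)
          exact mul_le_mul_of_nonneg_left h10 (by positivity)
      _ = _ := by ring
  · exact (h.aux_tendsto hd hA).isBoundedUnder_le
  · intro t
    rw [norm_aux A hA0]
    have h1 := h.FF_imag t
    have h2 : ((t : ℂ) * Complex.I).re = 0 := by simp
    rw [h2, Real.rpow_zero, mul_one]
    have h3 : 0 < ‖cc (t * Complex.I)‖ ^ Fintype.card ι :=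
      pow_pos (norm_pos_iff.2 (cc_ne_zero (by rw [h2]; norm_num))) _
    rw [div_le_one h3]
    exact h1

/-- The half plane bound -/
theorem half [Nonempty ι] (h : GV P X C) (hd : Dom P X ρ Q) {z : ℂ} (hz : 0 ≤ z.re) :
    ‖FF P X z‖ ≤ ‖cc z‖ ^ Fintype.card ι *
      ((Fintype.card ι : ℝ) ^ Fintype.card ι * Q) ^ z.re := by
  have hn : (0 : ℝ) < Fintype.card ι := by exact_mod_cast Fintype.card_pos
  have hQ := hd.pos
  set B : ℝ := (Fintype.card ι : ℝ) ^ Fintype.card ι * Q with hB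
  have hB0 : 0 < B := by positivity
  have hcc : 0 < ‖cc z‖ ^ Fintype.card ι := pow_pos (norm_pos_iff.2 (cc_ne_zero (by linarith))) _
  have h1 : ∀ᶠ A in 𝓝[>] B, ‖FF P X z‖ ≤ ‖cc z‖ ^ Fintype.card ι * A ^ z.re := by
    filter_upwards [self_mem_nhdsWithin] with A hA
    have hA' : B < A := hA
    have hA0 : 0 < A := hB0.trans hA'
    have h2 := h.half_aux hd hA' hz
    rw [norm_aux A hA0, div_le_one (by positivity)] at h2
    exact h2
  have h2 : Tendsto (fun A : ℝ => ‖cc z‖ ^ Fintype.card ι * A ^ z.re) (𝓝[>] B)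
      (𝓝 (‖cc z‖ ^ Fintype.card ι * B ^ z.re)) := by
    refine Tendsto.const_mul _ ?_
    exact ((Real.continuousAt_rpow_const B z.re (Or.inl hB0.ne')).tendsto).mono_left
      nhdsWithin_le_nhds
  exact ge_of_tendsto h2 h1

end GV

end Pool.Agent.Work.MP_8d2b2d_co.PL
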