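import Pool.Agent.Work.MP_8d2b2d_co.PL.CG1
import Pool.Agent.Work.MP_8d2b2d_co.PL.Half
import Pool.Agent.Work.MP_8d2b2d_co.Gram

/-!
# Gaussian vectors from complex linear forms
-/

set_option autoImplicit false
set_option linter.unusedSectionVars false

namespace Pool.Agent.Work.MP_8d2b2d_co.PL

open MeasureTheory ProbabilityTheory Matrix
open MvPolynomial (X C monomial eval)
open scoped Real

section poly

variable {d : Type} [Fintype d] [DecidableEq d]

/-- the standard complex Gaussian measure on `d → ℂ` -/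
noncomputable abbrev cP (d : Type) [Fintype d] : Measure (d → ℂ) := Measure.pi fun _ : d => gC

/-- integrability and value of the mixed moments -/
def Good (p q : MvPolynomial d ℂ) : Prop :=
  Integrable (fun ω : d → ℂ => (starRingEnd ℂ) (eval ω p) * eval ω q) (cP d) ∧
    ∫ ω : d → ℂ, (starRingEnd ℂ) (eval ω p) * eval ω q ∂(cP d) = ip p q

lemma eval_monomial_one (α : d →₀ ℕ) (ω : d → ℂ) :
    eval ω (monomial α (1 : ℂ)) = ∏ c, ω c ^ α c := by
  rw [MvPolynomial.eval_monomial, one_mul, Finsupp.prod_fintype _ _ (fun _ => pow_zero _)]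

lemma good_monomial (α β : d →₀ ℕ) : Good (monomial α (1 : ℂ)) (monomial β (1 : ℂ)) := by
  have h1 : (fun ω : d → ℂ => (starRingEnd ℂ) (eval ω (monomial α (1 : ℂ))) *
      eval ω (monomial β (1 : ℂ))) =
      fun ω : d → ℂ => ∏ c, ((starRingEnd ℂ) (ω c) ^ α c * ω c ^ β c) := by
    funext ω
    rw [eval_monomial_one, eval_monomial_one, map_prod, ← Finset.prod_mul_distrib]
    refine Finset.prod_congr rfl fun c _ => ?_
    rw [map_pow]
  refine ⟨?_, ?_⟩
  · rw [h1]
    exact Integrable.fintype_prod (f := fun (c : d) (z : ℂ) => (starRingEnd ℂ) z ^ α c * z ^ β c)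
      (fun c => integrable_mono _ _)
  · rw [show (∫ ω : d → ℂ, (starRingEnd ℂ) (eval ω (monomial α (1 : ℂ))) *
      eval ω (monomial β (1 : ℂ)) ∂(cP d)) =
      ∫ ω : d → ℂ, ∏ c, ((starRingEnd ℂ) (ω c) ^ α c * ω c ^ β c) ∂(cP d) from by rw [h1],
      integral_fintype_prod_eq_prod (fun (c : d) (z : ℂ) => (starRingEnd ℂ) z ^ α c * z ^ β c),
      ip_monomial]
    simp only [integral_mono_eq]
    by_cases h : α = β
    · subst h
      simp [fac]
    · rw [if_neg h]
      obtain ⟨c, hc⟩ : ∃ c, α c ≠ β c := by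
        by_contra hcon
        push Not at hcon
        exact h (Finsupp.ext hcon)
      exact Finset.prod_eq_zero (Finset.mem_univ c) (if_neg hc)

lemma Good.C_mul_left {p q : MvPolynomial d ℂ} (h : Good p q) (a : ℂ) : Good (C a * p) q := by
  have h1 : (fun ω : d → ℂ => (starRingEnd ℂ) (eval ω (C a * p)) * eval ω q) =
      fun ω => (starRingEnd ℂ) a * ((starRingEnd ℂ) (eval ω p) * eval ω q) := by
    funext ω
    rw [map_mul, MvPolynomial.eval_C, map_mul, mul_assoc]
  refine ⟨?_, ?_⟩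
  · rw [h1]
    exact h.1.const_mul _
  · rw [h1, integral_const_mul, h.2, ip_C_mul_left]

lemma Good.C_mul_right {p q : MvPolynomial d ℂ} (h : Good p q) (a : ℂ) : Good p (C a * q) := by
  have h1 : (fun ω : d → ℂ => (starRingEnd ℂ) (eval ω p) * eval ω (C a * q)) =
      fun ω => a * ((starRingEnd ℂ) (eval ω p) * eval ω q) := by
    funext ω
    rw [map_mul, MvPolynomial.eval_C]
    ring
  refine ⟨?_, ?_⟩
  · rw [h1]
    exact h.1.const_mul _
  · rw [h1, integral_const_mul, h.2, ip_C_mul_right]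

lemma Good.add_left {p q r : MvPolynomial d ℂ} (h : Good p r) (h' : Good q r) :
    Good (p + q) r := by
  have h1 : (fun ω : d → ℂ => (starRingEnd ℂ) (eval ω (p + q)) * eval ω r) =
      fun ω => (starRingEnd ℂ) (eval ω p) * eval ω r + (starRingEnd ℂ) (eval ω q) * eval ω r := by
    funext ω
    rw [map_add, map_add, add_mul]
  refine ⟨?_, ?_⟩
  · rw [h1]
    exact h.1.add h'.1
  · rw [h1, integral_add h.1 h'.1, h.2, h'.2, ip_add_left]

lemma Good.add_right {p q r : MvPolynomial d ℂ} (h : Good p q) (h' : Good p r) :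
    Good p (q + r) := by
  have h1 : (fun ω : d → ℂ => (starRingEnd ℂ) (eval ω p) * eval ω (q + r)) =
      fun ω => (starRingEnd ℂ) (eval ω p) * eval ω q + (starRingEnd ℂ) (eval ω p) * eval ω r := by
    funext ω
    rw [map_add, mul_add]
  refine ⟨?_, ?_⟩
  · rw [h1]
    exact h.1.add h'.1
  · rw [h1, integral_add h.1 h'.1, h.2, h'.2, ip_add_right]

theorem good (p q : MvPolynomial d ℂ) : Good p q := by
  induction p using MvPolynomial.induction_on' with
  | monomial α a =>
    have h1 : (monomial α a : MvPolynomial d ℂ) = C a * monomial α 1 := by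
      rw [MvPolynomial.C_mul_monomial, mul_one]
    rw [h1]
    refine Good.C_mul_left ?_ a
    induction q using MvPolynomial.induction_on' with
    | monomial β b =>
      have h2 : (monomial β b : MvPolynomial d ℂ) = C b * monomial β 1 := by
        rw [MvPolynomial.C_mul_monomial, mul_one]
      rw [h2]
      exact (good_monomial α β).C_mul_right b
    | add q r hq hr => exact hq.add_right hr
  | add p r hp hr => exact hp.add_left hr

lemma integrable_norm_sq (p : MvPolynomial d ℂ) :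
    Integrable (fun ω : d → ℂ => ‖eval ω p‖ ^ 2) (cP d) := by
  have h := (good p p).1.norm
  refine h.congr (ae_of_all _ fun ω => ?_)
  simp only [norm_mul, RCLike.norm_conj]
  ring

/-- the Gaussian mean of `|p|²` is the Fock norm -/
theorem integral_norm_sq (p : MvPolynomial d ℂ) :
    ∫ ω : d → ℂ, ‖eval ω p‖ ^ 2 ∂(cP d) = N p := by
  have h := (good p p).2
  rw [ip_self] at h
  have h1 : ∀ ω : d → ℂ, (starRingEnd ℂ) (eval ω p) * eval ω p =
      ((‖eval ω p‖ ^ 2 : ℝ) : ℂ) := by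
    intro ω
    rw [Complex.conj_mul']
    push_cast
    rfl
  simp only [h1] at h
  rw [integral_complex_ofReal] at h
  exact_mod_cast h

end poly

section vec

variable {ι : Type} [Fintype ι] [DecidableEq ι] {d : Type} [Fintype d] [DecidableEq d]

/-- the linear forms evaluated -/
noncomputable def zz (w : ι → d → ℂ) (j : ι) (ω : d → ℂ) : ℂ := ∑ c, w j c * ω c

/-- the real Gaussian vector of the real parts -/
noncomputable def XR (w : ι → d → ℂ) (j : ι) (ω : d → ℂ) : ℝ := √2 * (zz w j ω).re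

/-- its covariance -/
noncomputable def CR (w : ι → d → ℂ) : Matrix ι ι ℝ :=
  Matrix.of fun j l => (∑ c, (starRingEnd ℂ) (w j c) * w l c).re

lemma measurable_zz (w : ι → d → ℂ) (j : ι) : Measurable (zz w j) := by
  unfold zz
  exact Finset.measurable_sum _ fun c _ => (measurable_pi_apply c).const_mul _

lemma measurable_XR (w : ι → d → ℂ) (j : ι) : Measurable (XR w j) := by
  unfold XR
  exact (Complex.measurable_re.comp (measurable_zz w j)).const_mul _

lemma qf_CR (w : ι → d → ℂ) (ξ : ι → ℝ) :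
    qf (CR w) ξ = ∑ c, ‖∑ j, (ξ j : ℂ) * w j c‖ ^ 2 := by
  have h1 : ∀ c, ((‖∑ j, (ξ j : ℂ) * w j c‖ ^ 2 : ℝ) : ℂ) =
      ∑ j, ∑ l, ((ξ j * ξ l : ℝ) : ℂ) * ((starRingEnd ℂ) (w j c) * w l c) := by
    intro c
    push_cast
    rw [← Complex.conj_mul', map_sum, Finset.sum_mul]
    refine Finset.sum_congr rfl fun j _ => ?_
    rw [Finset.mul_sum]
    refine Finset.sum_congr rfl fun l _ => ?_
    rw [map_mul, Complex.conj_ofReal]
    ring
  have h2 : ∀ c, ‖∑ j, (ξ j : ℂ) * w j c‖ ^ 2 =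
      ∑ j, ∑ l, (ξ j * ξ l) * ((starRingEnd ℂ) (w j c) * w l c).re := by
    intro c
    have := congrArg Complex.re (h1 c)
    rw [Complex.ofReal_re, Complex.re_sum] at this
    rw [this]
    refine Finset.sum_congr rfl fun j _ => ?_
    rw [Complex.re_sum]
    refine Finset.sum_congr rfl fun l _ => ?_
    rw [Complex.re_ofReal_mul]
  rw [qf_eq]
  simp only [h2]
  symm
  rw [Finset.sum_comm]
  refine Finset.sum_congr rfl fun j _ => ?_
  rw [Finset.sum_comm]
  refine Finset.sum_congr rfl fun l _ => ?_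
  rw [CR, Matrix.of_apply, Complex.re_sum, Finset.sum_mul]
  refine Finset.sum_congr rfl fun c _ => ?_
  ring

lemma hasCF_XR (w : ι → d → ℂ) : HasCF (cP d) (XR w) (CR w) := by
  intro ξ
  set u : d → ℂ := fun c => (√2 : ℝ) * ∑ j, (ξ j : ℂ) * w j c with hu
  have h1 : ∀ ω : d → ℂ, ∑ j, ξ j * XR w j ω = ∑ c, (u c * ω c).re := by
    intro ω
    have h2 : ∑ c, (u c * ω c) = ∑ j, ((ξ j * √2 : ℝ) : ℂ) * zz w j ω := by
      simp only [hu, zz]
      rw [Finset.sum_congr rfl fun j _ => Finset.mul_sum _ _ _, Finset.sum_comm]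
      refine Finset.sum_congr rfl fun c _ => ?_
      rw [mul_assoc, Finset.sum_mul, Finset.mul_sum]
      refine Finset.sum_congr rfl fun j _ => ?_
      push_cast
      ring
    rw [← Complex.re_sum, h2, Complex.re_sum]
    refine Finset.sum_congr rfl fun j _ => ?_
    rw [Complex.re_ofReal_mul, XR]
    ring
  have h3 : ∀ ω : d → ℂ, Complex.exp (((∑ j, ξ j * XR w j ω : ℝ) : ℂ) * Complex.I) =
      ∏ c, Complex.exp ((((u c * ω c).re : ℝ) : ℂ) * Complex.I) := by
    intro ω
    rw [h1, ← Complex.exp_sum]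
    congr 1
    push_cast
    rw [Finset.sum_mul]
  simp only [h3]
  rw [integral_fintype_prod_eq_prod (fun (c : d) (z : ℂ) =>
    Complex.exp ((((u c * z).re : ℝ) : ℂ) * Complex.I))]
  simp only [integral_cexp_gC]
  rw [← Complex.ofReal_prod, ← Real.exp_sum, qf_CR]
  congr 2
  rw [Finset.sum_neg_distrib, Finset.sum_div]
  congr 1
  refine Finset.sum_congr rfl fun c _ => ?_
  simp only [hu]
  rw [norm_mul, Complex.norm_real, Real.norm_of_nonneg (Real.sqrt_nonneg _), mul_pow,
    Real.sq_sqrt (by norm_num)]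
  ring

/-- the complex Gram matrix -/
noncomputable def GG (w : ι → d → ℂ) : Matrix ι ι ℂ :=
  Matrix.of fun j l => ∑ c, (starRingEnd ℂ) (w j c) * w l c

lemma CR_isHermitian (w : ι → d → ℂ) : (CR w).IsHermitian := by
  ext j l
  rw [Matrix.conjTranspose_apply, CR, Matrix.of_apply, Matrix.of_apply, star_trivial]
  rw [← Complex.conj_re, map_sum]
  congr 2
  funext c
  rw [map_mul, Complex.conj_conj, mul_comm]

lemma CR_posDef {w : ι → d → ℂ} (h : ∀ η : ι → ℂ, η ≠ 0 → ∃ c, ∑ j, η j * w j c ≠ 0) :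
    (CR w).PosDef := by
  refine Matrix.PosDef.of_dotProduct_mulVec_pos (CR_isHermitian w) fun ξ hξ => ?_
  rw [star_trivial]
  have h1 : ξ ⬝ᵥ (CR w *ᵥ ξ) = qf (CR w) ξ := rfl
  rw [h1, qf_CR]
  obtain ⟨c, hc⟩ := h (fun j => (ξ j : ℂ)) (by
    intro hcon
    apply hξ
    funext j
    have := congrFun hcon j
    simpa using this)
  refine Finset.sum_pos' (fun _ _ => by positivity) ⟨c, Finset.mem_univ c, ?_⟩
  have : 0 < ‖∑ j, (ξ j : ℂ) * w j c‖ := norm_pos_iff.2 hc
  positivity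

/-- linear independence of the rows -/
def Indep (w : ι → d → ℂ) : Prop := ∀ η : ι → ℂ, η ≠ 0 → ∃ c, ∑ j, η j * w j c ≠ 0

lemma gv_XR {w : ι → d → ℂ} (h : Indep w) : GV (cP d) (XR w) (CR w) where
  prob := inferInstance
  meas := measurable_XR w
  pos := CR_posDef h
  cf := hasCF_XR w

/-- the twisted forms: real or imaginary part -/
noncomputable def tw (b : ι → d → ℂ) (T : ι → Bool) (j : ι) (c : d) : ℂ :=
  (if T j then 1 else -Complex.I) * b j c

lemma zz_tw (b : ι → d → ℂ) (T : ι → Bool) (j : ι) (ω : d → ℂ) :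
    zz (tw b T) j ω = (if T j then 1 else -Complex.I) * zz b j ω := by
  simp only [zz, tw, Finset.mul_sum, mul_assoc]

lemma XR_tw (b : ι → d → ℂ) (T : ι → Bool) (j : ι) (ω : d → ℂ) :
    XR (tw b T) j ω = √2 * (if T j then (zz b j ω).re else (zz b j ω).im) := by
  rw [XR, zz_tw]
  congr 1
  split_ifs
  · rw [one_mul]
  · simp

lemma indep_tw {b : ι → d → ℂ} (h : Indep b) (T : ι → Bool) : Indep (tw b T) := by
  intro η hη
  have hne : ∀ j, (if T j then (1 : ℂ) else -Complex.I) ≠ 0 := by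
    intro j
    split_ifs
    · exact one_ne_zero
    · exact neg_ne_zero.2 Complex.I_ne_zero
  obtain ⟨c, hc⟩ := h (fun j => η j * (if T j then (1 : ℂ) else -Complex.I)) (by
    intro hcon
    apply hη
    funext j
    have := congrFun hcon j
    exact (mul_eq_zero.1 this).resolve_right (hne j))
  refine ⟨c, ?_⟩
  intro h0
  apply hc
  rw [← h0]
  refine Finset.sum_congr rfl fun j _ => ?_
  rw [tw, mul_assoc]

lemma CR_tw_diag (b : ι → d → ℂ) (T : ι → Bool) (j : ι) : CR (tw b T) j j = CR b j j := by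
  rw [CR, CR, Matrix.of_apply, Matrix.of_apply]
  congr 1
  refine Finset.sum_congr rfl fun c _ => ?_
  rw [tw, Complex.conj_mul', Complex.conj_mul', norm_mul]
  split_ifs <;> simp

/-- `∏ |z_j|² = 2^{-m} ∑_T ∏ (X_j^T)²` -/
lemma sum_prod_XR (b : ι → d → ℂ) (ω : d → ℂ) :
    (Fintype.card (ι → Bool) : ℝ)⁻¹ * ∑ T : ι → Bool, ∏ j, XR (tw b T) j ω ^ 2 =
      ∏ j, ‖zz b j ω‖ ^ 2 := by
  have h1 : ∏ j, ∑ B : Bool, (√2 * (if B then (zz b j ω).re else (zz b j ω).im)) ^ 2 =
      ∑ T : ι → Bool, ∏ j, XR (tw b T) j ω ^ 2 := by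
    rw [Finset.prod_univ_sum, Fintype.piFinset_univ]
    refine Finset.sum_congr rfl fun T _ => Finset.prod_congr rfl fun j _ => ?_
    rw [XR_tw]
  have h2 : ∀ j, ∑ B : Bool, (√2 * (if B then (zz b j ω).re else (zz b j ω).im)) ^ 2 =
      2 * ‖zz b j ω‖ ^ 2 := by
    intro j
    rw [Fintype.sum_bool]
    simp only [if_true, Bool.false_eq_true, if_false]
    rw [mul_pow, mul_pow, Real.sq_sqrt (by norm_num), ← Complex.normSq_eq_norm_sq,
      Complex.normSq_apply]
    ring
  rw [← h1]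
  simp only [h2]
  rw [Finset.prod_mul_distrib, Finset.prod_const, Fintype.card_fun, Fintype.card_bool,
    Finset.card_univ]
  push_cast
  rw [← mul_assoc, inv_mul_cancel₀ (by positivity), one_mul]

/-- radial variable -/
noncomputable def rr2 (ω : d → ℂ) : ℝ := 2 * ∑ c, ‖ω c‖ ^ 2

lemma dom_XR {w b : ι → d → ℂ} {Q : ℝ} (hQ : 0 < Q)
    (hw : ∀ ω j, |XR w j ω| ≤ √2 * ‖zz b j ω‖)
    (hb : ∀ ω : d → ℂ, ∏ j, ‖zz b j ω‖ ^ 2 ≤ Q * (∑ c, ‖ω c‖ ^ 2) ^ Fintype.card ι) :
    Dom (cP d) (XR w) rr2 Q where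
  meas := by
    unfold rr2
    fun_prop
  nonneg ω := by
    unfold rr2
    positivity
  exp_int c hc hc2 := by
    have h1 : (fun ω : d → ℂ => Real.exp (c * rr2 ω)) =
        fun ω : d → ℂ => ∏ k, Real.exp (2 * c * ‖ω k‖ ^ 2) := by
      funext ω
      rw [← Real.exp_sum, rr2, ← Finset.mul_sum]
      congr 1
      ring
    rw [h1]
    exact Integrable.fintype_prod (f := fun (_ : d) (z : ℂ) => Real.exp (2 * c * ‖z‖ ^ 2))
      (fun _ => integrable_exp_gC (by linarith))
  pos := hQ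
  dom ω := by
    have h1 : ∏ i, XR w i ω ^ 2 ≤ ∏ i, (2 * ‖zz b i ω‖ ^ 2) := by
      refine Finset.prod_le_prod (fun i _ => sq_nonneg _) fun i _ => ?_
      have h2 := hw ω i
      have h3 : XR w i ω ^ 2 = |XR w i ω| ^ 2 := (sq_abs _).symm
      rw [h3]
      refine (pow_le_pow_left₀ (abs_nonneg _) h2 2).trans_eq ?_
      rw [mul_pow, Real.sq_sqrt (by norm_num)]
    refine h1.trans ?_
    rw [Finset.prod_mul_distrib, Finset.prod_const, Finset.card_univ, rr2, mul_pow]
    calc 2 ^ Fintype.card ι * ∏ i, ‖zz b i ω‖ ^ 2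
        ≤ 2 ^ Fintype.card ι * (Q * (∑ c, ‖ω c‖ ^ 2) ^ Fintype.card ι) :=
          mul_le_mul_of_nonneg_left (hb ω) (by positivity)
      _ = _ := by ring

lemma abs_XR_tw_le (b : ι → d → ℂ) (T : ι → Bool) (ω : d → ℂ) (j : ι) :
    |XR (tw b T) j ω| ≤ √2 * ‖zz b j ω‖ := by
  rw [XR_tw, abs_mul, abs_of_nonneg (Real.sqrt_nonneg _)]
  refine mul_le_mul_of_nonneg_left ?_ (Real.sqrt_nonneg _)
  split_ifs
  · exact Complex.abs_re_le_norm _
  · exact Complex.abs_im_le_norm _

lemma eval_L (a : d → ℂ) (ω : d → ℂ) : eval ω (L a) = ∑ c, a c * ω c := by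
  rw [L, map_sum]
  refine Finset.sum_congr rfl fun c _ => ?_
  rw [map_mul, MvPolynomial.eval_C, MvPolynomial.eval_X]

lemma eval_prod_L (b : ι → d → ℂ) (ω : d → ℂ) : eval ω (∏ i, L (b i)) = ∏ i, zz b i ω := by
  rw [map_prod]
  refine Finset.prod_congr rfl fun i _ => ?_
  rw [eval_L, zz]

/-- the Gaussian mean of the product -/
lemma integral_prod_zz (b : ι → d → ℂ) :
    ∫ ω : d → ℂ, ∏ j, ‖zz b j ω‖ ^ 2 ∂(cP d) = N (∏ i, L (b i)) := by
  rw [← integral_norm_sq]
  congr 1
  funext ω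
  rw [eval_prod_L, norm_prod, Finset.prod_pow]

lemma integrable_prod_zz (b : ι → d → ℂ) :
    Integrable (fun ω : d → ℂ => ∏ j, ‖zz b j ω‖ ^ 2) (cP d) := by
  refine (integrable_norm_sq (∏ i, L (b i))).congr (ae_of_all _ fun ω => ?_)
  simp only
  rw [eval_prod_L, norm_prod, Finset.prod_pow]

lemma integrable_prod_XR (b : ι → d → ℂ) (T : ι → Bool) :
    Integrable (fun ω : d → ℂ => ∏ j, XR (tw b T) j ω ^ 2) (cP d) := by
  refine ((integrable_prod_zz b).const_mul (2 ^ Fintype.card ι)).mono' ?_ (ae_of_all _ fun ω => ?_)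
  · exact (Finset.measurable_prod _ fun j _ => (measurable_XR _ j).pow_const 2).aestronglyMeasurable
  · rw [Real.norm_of_nonneg (Finset.prod_nonneg fun _ _ => sq_nonneg _), ← Finset.card_univ,
      ← Finset.prod_const, ← Finset.prod_mul_distrib]
    refine Finset.prod_le_prod (fun i _ => sq_nonneg _) fun j _ => ?_
    have h3 : XR (tw b T) j ω ^ 2 = |XR (tw b T) j ω| ^ 2 := (sq_abs _).symm
    rw [h3]
    refine (pow_le_pow_left₀ (abs_nonneg _) (abs_XR_tw_le b T ω j) 2).trans_eq ?_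
    rw [mul_pow, Real.sq_sqrt (by norm_num)]

/-- the average over `T` -/
lemma avg_XR (b : ι → d → ℂ) :
    (Fintype.card (ι → Bool) : ℝ)⁻¹ *
      ∑ T : ι → Bool, ∫ ω : d → ℂ, ∏ j, XR (tw b T) j ω ^ 2 ∂(cP d) = N (∏ i, L (b i)) := by
  rw [← integral_prod_zz, ← integral_finsetSum _ fun T _ => integrable_prod_XR b T,
    ← integral_const_mul]
  congr 1
  funext ω
  exact sum_prod_XR b ω

end vec

end Pool.Agent.Work.MP_8d2b2d_co.PL
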