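import Mathlib

/-!
# Lower bounds for the Gamma function
-/

set_option autoImplicit false

namespace Pool.Agent.Work.MP_8d2b2d_co.PL

open MeasureTheory Set
open scoped Topology Real

lemma norm_Gamma_le {w : ℂ} (hw : 0 < w.re) : ‖Complex.Gamma w‖ ≤ Real.Gamma w.re := by
  rw [Complex.Gamma_eq_integral hw, Complex.GammaIntegral, Real.Gamma_eq_integral hw]
  refine (norm_integral_le_integral_norm _).trans_eq ?_
  refine setIntegral_congr_fun measurableSet_Ioi fun x hx => ?_
  have hx' : 0 < x := hx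
  rw [norm_mul, Complex.norm_real, Real.norm_of_nonneg (Real.exp_pos _).le,
    Complex.norm_cpow_eq_rpow_re_of_pos hx', Complex.sub_re, Complex.one_re]

lemma norm_cos_le (w : ℂ) : ‖Complex.cos w‖ ≤ Real.exp |w.im| := by
  rw [Complex.cos]
  have h1 : ‖Complex.exp (w * Complex.I)‖ ≤ Real.exp |w.im| := by
    rw [Complex.norm_exp]
    refine Real.exp_le_exp.2 ?_
    simp only [Complex.mul_re, Complex.I_re, mul_zero, Complex.I_im, mul_one, zero_sub]
    exact neg_le_abs _
  have h2 : ‖Complex.exp (-w * Complex.I)‖ ≤ Real.exp |w.im| := by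
    rw [Complex.norm_exp]
    refine Real.exp_le_exp.2 ?_
    simp only [Complex.mul_re, Complex.I_re, mul_zero, Complex.I_im, mul_one, zero_sub,
      Complex.neg_im, neg_neg]
    exact le_abs_self _
  rw [norm_div, Complex.norm_ofNat]
  have h3 := norm_add_le (Complex.exp (w * Complex.I)) (Complex.exp (-w * Complex.I))
  linarith

lemma norm_sin_le (w : ℂ) : ‖Complex.sin w‖ ≤ Real.exp |w.im| * ‖w‖ := by
  have hconv : Convex ℝ {v : ℂ | |v.im| ≤ |w.im|} := by
    have : {v : ℂ | |v.im| ≤ |w.im|} = {v : ℂ | -|w.im| ≤ v.im} ∩ {v : ℂ | v.im ≤ |w.im|} := by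
      ext v
      simp [abs_le]
    rw [this]
    exact (convex_halfSpace_im_ge _).inter (convex_halfSpace_im_le _)
  have h := hconv.norm_image_sub_le_of_norm_deriv_le (f := Complex.sin) (C := Real.exp |w.im|)
    (x := 0) (y := w) (fun v _ => Complex.differentiableAt_sin) (fun v hv => ?_) (by simp)
    (by simp)
  · simpa using h
  · rw [Complex.deriv_sin]
    exact (norm_cos_le v).trans (Real.exp_le_exp.2 hv)

lemma Gamma_le_two {x : ℝ} (h1 : 1 / 2 ≤ x) (h2 : x ≤ 3 / 2) : Real.Gamma x ≤ 2 := by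
  have h := Real.convexOn_Gamma.le_max_of_mem_Icc (x := 1 / 2) (y := 3 / 2) (z := x)
    (by norm_num) (by norm_num) ⟨h1, h2⟩
  have h3 : Real.Gamma (1 / 2) ≤ 2 := by
    rw [Real.Gamma_one_half_eq]
    have : √π ≤ √4 := Real.sqrt_le_sqrt Real.pi_le_four
    have h4 : √(4 : ℝ) = 2 := by
      rw [show (4 : ℝ) = 2 ^ 2 by norm_num, Real.sqrt_sq (by norm_num)]
    rwa [h4] at this
  have h5 : Real.Gamma (3 / 2) ≤ 2 := by
    rw [show (3 / 2 : ℝ) = 1 / 2 + 1 by norm_num, Real.Gamma_add_one (by norm_num)]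
    linarith
  exact h.trans (max_le h3 h5)

lemma Gamma_strip {u : ℂ} (h1 : 1 / 2 ≤ u.re) (h2 : u.re < 3 / 2) :
    Real.exp (-(π * |u.im|)) / 2 ≤ ‖Complex.Gamma u‖ := by
  by_cases hu : u = 1
  · subst hu
    simp [Complex.Gamma_one]
    norm_num
  have hu1 : (1 : ℂ) - u ≠ 0 := sub_ne_zero.2 (Ne.symm hu)
  have hsin : Complex.sin (π * u) ≠ 0 := by
    intro h
    rw [Complex.sin_eq_zero_iff] at h
    obtain ⟨k, hk⟩ := h
    have hpi : (π : ℂ) ≠ 0 := Complex.ofReal_ne_zero.2 Real.pi_ne_zero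
    have h3 : u = (k : ℂ) := by
      rw [mul_comm] at hk
      exact mul_right_cancel₀ hpi hk
    have h4 : u.re = (k : ℝ) := by rw [h3]; simp
    rw [h4] at h1 h2
    have h5 : (0 : ℝ) < (k : ℝ) := by linarith
    have h6 : (k : ℝ) < 2 := by linarith
    have h7 : 0 < k := by exact_mod_cast h5
    have h8 : k < 2 := by exact_mod_cast h6
    have h9 : k = 1 := by omega
    apply hu
    rw [h3, h9]
    simp
  have hrefl := Complex.Gamma_mul_Gamma_one_sub u
  have hrec := Complex.Gamma_add_one (1 - u) hu1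
  have h3 : Complex.Gamma u * Complex.Gamma (2 - u) * Complex.sin (π * u) = π * (1 - u) := by
    have h4 : (2 : ℂ) - u = 1 - u + 1 := by ring
    rw [h4, hrec]
    calc Complex.Gamma u * ((1 - u) * Complex.Gamma (1 - u)) * Complex.sin (π * u)
        = (1 - u) * ((Complex.Gamma u * Complex.Gamma (1 - u)) * Complex.sin (π * u)) := by ring
      _ = (1 - u) * π := by rw [hrefl, div_mul_cancel₀ _ hsin]
      _ = _ := by ring
  have h4 := congrArg norm h3
  rw [norm_mul, norm_mul, norm_mul, Complex.norm_real, Real.norm_of_nonneg Real.pi_pos.le] at h4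
  have h5 : ‖Complex.Gamma (2 - u)‖ ≤ 2 := by
    have hre : (2 - u).re = 2 - u.re := by simp
    refine (norm_Gamma_le (by rw [hre]; linarith)).trans ?_
    rw [hre]
    exact Gamma_le_two (by linarith) (by linarith)
  have h6 : ‖Complex.sin (π * u)‖ ≤ Real.exp (π * |u.im|) * (π * ‖1 - u‖) := by
    have h7 : Complex.sin (π * u) = Complex.sin (π * (1 - u)) := by
      rw [mul_sub, mul_one, Complex.sin_pi_sub]
    rw [h7]
    refine (norm_sin_le _).trans_eq ?_
    have h7' : ((π : ℂ) * (1 - u)).im = -(π * u.im) := by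
      rw [Complex.im_ofReal_mul]
      simp
    rw [norm_mul, Complex.norm_real, Real.norm_of_nonneg Real.pi_pos.le, h7', abs_neg, abs_mul,
      abs_of_pos Real.pi_pos]
  have h8 : 0 < ‖1 - u‖ := norm_pos_iff.2 hu1
  have h9 : π * ‖1 - u‖ ≤ ‖Complex.Gamma u‖ * 2 * (Real.exp (π * |u.im|) * (π * ‖1 - u‖)) := by
    rw [← h4]
    refine mul_le_mul (mul_le_mul_of_nonneg_left h5 (norm_nonneg _)) ?_ (norm_nonneg _)
      (by positivity)
    rw [h4] at *
    exact h6
  have h10 : 1 ≤ ‖Complex.Gamma u‖ * 2 * Real.exp (π * |u.im|) := by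
    have h11 : 0 < π * ‖1 - u‖ := by positivity
    by_contra hcon
    push Not at hcon
    have := mul_lt_mul_of_pos_right hcon h11
    linarith
  rw [Real.exp_neg]
  have h12 : 0 < Real.exp (π * |u.im|) := Real.exp_pos _
  rw [div_le_iff₀ (by norm_num : (0 : ℝ) < 2), inv_le_iff_one_le_mul₀ h12]
  linarith

lemma Gamma_lower_aux (N : ℕ) : ∀ w : ℂ, 1 / 2 + N ≤ w.re → w.re < 3 / 2 + N →
    Real.exp (-(π * |w.im|)) / 4 * Real.Gamma w.re ≤ ‖Complex.Gamma w‖ := by
  induction N with
  | zero =>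
    intro w h1 h2
    rw [Nat.cast_zero, add_zero] at h1 h2
    have h3 := Gamma_strip h1 h2
    have h4 := Gamma_le_two h1 h2.le
    have h5 : 0 < Real.exp (-(π * |w.im|)) := Real.exp_pos _
    nlinarith
  | succ N ih =>
    intro w h1 h2
    push_cast at h1 h2
    have hN : (0 : ℝ) ≤ N := Nat.cast_nonneg N
    have hre : (w - 1).re = w.re - 1 := by simp
    have him : (w - 1).im = w.im := by simp
    have h3 := ih (w - 1) (by rw [hre]; linarith) (by rw [hre]; linarith)
    rw [hre, him] at h3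
    have hw : w - 1 ≠ 0 := by
      intro h
      have := congrArg Complex.re h
      rw [hre, Complex.zero_re] at this
      linarith
    have h4 : Complex.Gamma w = (w - 1) * Complex.Gamma (w - 1) := by
      rw [← Complex.Gamma_add_one _ hw, sub_add_cancel]
    have h5 : Real.Gamma w.re = (w.re - 1) * Real.Gamma (w.re - 1) := by
      rw [← Real.Gamma_add_one (by linarith : w.re - 1 ≠ 0), sub_add_cancel]
    have h6 : w.re - 1 ≤ ‖w - 1‖ := by
      rw [← hre]
      exact Complex.re_le_norm _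
    rw [h4, h5, norm_mul]
    have h7 : 0 < w.re - 1 := by linarith
    calc Real.exp (-(π * |w.im|)) / 4 * ((w.re - 1) * Real.Gamma (w.re - 1))
        = (w.re - 1) * (Real.exp (-(π * |w.im|)) / 4 * Real.Gamma (w.re - 1)) := by ring
      _ ≤ ‖w - 1‖ * ‖Complex.Gamma (w - 1)‖ := mul_le_mul h6 h3
          (mul_nonneg (by positivity) (Real.Gamma_pos_of_pos h7).le) (norm_nonneg _)

/-- lower bound of the Gamma function in a right half plane -/
theorem Gamma_lower {w : ℂ} (hw : 1 / 2 ≤ w.re) :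
    Real.exp (-(π * |w.im|)) / 4 * Real.Gamma w.re ≤ ‖Complex.Gamma w‖ := by
  have h0 : 0 ≤ w.re - 1 / 2 := by linarith
  refine Gamma_lower_aux ⌊w.re - 1 / 2⌋₊ w ?_ ?_
  · have := Nat.floor_le h0
    linarith
  · have := Nat.lt_floor_add_one (w.re - 1 / 2)
    linarith

/-- a crude Stirling lower bound -/
theorem Gamma_lower_real {x : ℝ} (hx : 1 / 2 ≤ x) :
    x ^ (x - 1 / 2) * Real.exp (-(x + 1)) ≤ Real.Gamma (x + 1 / 2) := by
  have hx0 : 0 < x := by linarith
  rw [Real.Gamma_eq_integral (by linarith)]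
  have hint : IntegrableOn (fun t : ℝ => Real.exp (-t) * t ^ (x + 1 / 2 - 1)) (Ioi 0) :=
    Real.GammaIntegral_convergent (by linarith)
  have hsub : Ioc x (x + 1) ⊆ Ioi 0 := fun t ht => lt_trans hx0 ht.1
  have h1 : ∫ t in Ioc x (x + 1), Real.exp (-t) * t ^ (x + 1 / 2 - 1) ≤
      ∫ t in Ioi 0, Real.exp (-t) * t ^ (x + 1 / 2 - 1) := by
    refine setIntegral_mono_set hint ?_ hsub.eventuallyLE
    filter_upwards [self_mem_ae_restrict measurableSet_Ioi] with t ht
    have : (0 : ℝ) < t := ht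
    positivity
  refine le_trans ?_ h1
  have h2 := setIntegral_ge_of_const_le_real (μ := (volume : Measure ℝ)) (s := Ioc x (x + 1))
    (f := fun t : ℝ => Real.exp (-t) * t ^ (x + 1 / 2 - 1))
    (c := x ^ (x - 1 / 2) * Real.exp (-(x + 1))) measurableSet_Ioc (by simp) (fun t ht => ?_)
    (hint.mono_set hsub)
  · simpa using h2
  · have ht0 : 0 < t := hx0.trans ht.1
    rw [mul_comm]
    refine mul_le_mul (Real.exp_le_exp.2 (by linarith [ht.2])) ?_ (by positivity) (by positivity)
    rw [show x + 1 / 2 - 1 = x - 1 / 2 by ring]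
    exact Real.rpow_le_rpow hx0.le ht.1.le (by linarith)

end Pool.Agent.Work.MP_8d2b2d_co.PL
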