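import Pool.Agent.Work.MP_8d2b2d_co.PL.Pars
import Pool.Agent.Work.MP_8d2b2d_co.PL.Gam

/-!
# The one dimensional moment function
-/

set_option autoImplicit false

namespace Pool.Agent.Work.MP_8d2b2d_co.PL

open MeasureTheory Set ProbabilityTheory
open scoped Topology Real

lemma integral_comp_abs' {f : ℝ → ℂ} :
    ∫ x, f |x| = 2 * ∫ x in Ioi (0 : ℝ), f x := by
  have eq : ∫ (x : ℝ) in Ioi 0, f |x| = ∫ (x : ℝ) in Ioi 0, f x := by
    refine setIntegral_congr_fun measurableSet_Ioi (fun _ hx => ?_)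
    rw [abs_eq_self.mpr (le_of_lt (by exact hx))]
  by_cases hf : IntegrableOn (fun x => f |x|) (Ioi 0)
  · have int_Iic : IntegrableOn (fun x ↦ f |x|) (Iic 0) := by
      rw [← Measure.map_neg_eq_self (volume : Measure ℝ)]
      let m : MeasurableEmbedding fun x : ℝ => -x := (Homeomorph.neg ℝ).measurableEmbedding
      rw [m.integrableOn_map_iff]
      simp_rw [Function.comp_def, abs_neg, neg_preimage, neg_Iic, neg_zero]
      exact Iff.mpr integrableOn_Ici_iff_integrableOn_Ioi hf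
    calc
      _ = (∫ x in Iic 0, f |x|) + ∫ x in Ioi 0, f |x| := by
        rw [← setIntegral_union (Iic_disjoint_Ioi le_rfl) measurableSet_Ioi int_Iic hf,
          Iic_union_Ioi, Measure.restrict_univ]
      _ = 2 * ∫ x in Ioi 0, f x := by
        rw [two_mul, eq]
        congr! 1
        rw [← neg_zero, ← integral_comp_neg_Iic, neg_zero]
        refine setIntegral_congr_fun measurableSet_Iic (fun _ hx => ?_)
        rw [abs_eq_neg_self.mpr (by exact hx)]
  · have : ¬ Integrable (fun x => f |x|) := by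
      contrapose hf
      exact hf.integrableOn
    rw [← eq, integral_undef hf, integral_undef this, mul_zero]

lemma J1_eq {a : ℂ} (ha : a.re < 0) : J1 a = (2 : ℂ) ^ (-a / 2) * Complex.Gamma (-a / 2) := by
  have hre : 0 < (-a / 2).re := by
    have : (-a / 2).re = -a.re / 2 := by
      rw [show -a / 2 = ((1 / 2 : ℝ) : ℂ) * (-a) by push_cast; ring, Complex.re_ofReal_mul]
      simp
      ring
    rw [this]
    linarith
  have h1 : J1 a = ∫ x : ℝ, (fun y : ℝ => (y : ℂ) ^ (-1 - a) * (Real.exp (-(y ^ 2 / 2)) : ℂ)) |x| := by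
    rw [J1]
    congr 1
    funext x
    simp only [sq_abs]
  have h2 := integral_comp_rpow_Ioi_of_pos (p := 2)
    (g := fun t : ℝ => (t : ℂ) ^ (-a / 2 - 1) * Complex.exp (-(((1 / 2 : ℝ) : ℂ) * t))) (by norm_num)
  rw [Complex.integral_cpow_mul_exp_neg_mul_Ioi hre (by norm_num)] at h2
  rw [h1, integral_comp_abs' (f := fun y : ℝ => (y : ℂ) ^ (-1 - a) *
    (Real.exp (-(y ^ 2 / 2)) : ℂ)), ← integral_const_mul]
  have h3 : ((1 : ℂ) / ((1 / 2 : ℝ) : ℂ)) = 2 := by push_cast; norm_num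
  rw [h3] at h2
  rw [← h2]
  refine setIntegral_congr_fun measurableSet_Ioi fun x hx => ?_
  have hx' : 0 < x := hx
  have hxC : (x : ℂ) ≠ 0 := by rw [Ne, Complex.ofReal_eq_zero]; exact hx'.ne'
  have h4 : (((x ^ (2 : ℝ) : ℝ)) : ℂ) ^ (-a / 2 - 1) = (x : ℂ) ^ (-a - 2) := by
    rw [Real.rpow_two, sq, Complex.ofReal_mul, Complex.mul_cpow_ofReal_nonneg hx'.le hx'.le,
      ← Complex.cpow_add _ _ hxC]
    congr 1
    ring
  have h5 : (x : ℂ) ^ (-1 - a) = x * (x : ℂ) ^ (-a - 2) := by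
    rw [show -1 - a = 1 + (-a - 2) by ring, Complex.cpow_add _ _ hxC, Complex.cpow_one]
  rw [h4, h5, Complex.real_smul, show (2 : ℝ) - 1 = 1 by norm_num, Real.rpow_one, Real.rpow_two]
  push_cast
  have h6 : Complex.exp (-((x : ℂ) ^ 2 / 2)) = Complex.exp (-(1 / 2 * (x : ℂ) ^ 2)) := by
    congr 1
    ring
  rw [h6]
  ring

lemma J1_ne_zero {a : ℂ} (ha : a.re < 0) : J1 a ≠ 0 := by
  rw [J1_eq ha]
  have hre : 0 < (-a / 2).re := by
    have : (-a / 2).re = -a.re / 2 := by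
      rw [show -a / 2 = ((1 / 2 : ℝ) : ℂ) * (-a) by push_cast; ring, Complex.re_ofReal_mul]
      simp
      ring
    rw [this]
    linarith
  refine mul_ne_zero ?_ (Complex.Gamma_ne_zero_of_re_pos hre)
  rw [Ne, Complex.cpow_eq_zero_iff]
  simp

/-- `E |g|^{2z}` in closed form -/
noncomputable def cc (z : ℂ) : ℂ := (2 : ℂ) ^ z * Complex.Gamma (z + 1 / 2) / (√π : ℝ)

lemma g1_eq {z : ℂ} (hz : -1 / 2 < z.re) : g1 (2 * z) = cc z := by
  have h1 : g1 (2 * z) = (((√(2 * π))⁻¹ : ℝ) : ℂ) * J1 (-1 - 2 * z) := by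
    rw [g1, integral_gaussianReal_eq_integral_smul one_ne_zero, J1, ← integral_const_mul]
    congr 1
    funext x
    rw [Complex.real_smul, gaussianPDFReal]
    have h2 : -1 - (-1 - 2 * z) = 2 * z := by ring
    rw [h2]
    simp only [NNReal.coe_one, mul_one, sub_zero]
    have h3 : -x ^ 2 / 2 = -(x ^ 2 / 2) := by ring
    rw [h3]
    push_cast
    ring
  have hre : (-1 - 2 * z).re < 0 := by
    have : (-1 - 2 * z).re = -1 - 2 * z.re := by
      simp
    rw [this]
    linarith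
  rw [h1, J1_eq hre, cc]
  have h4 : -(-1 - 2 * z) / 2 = z + 1 / 2 := by ring
  have h2 : (2 : ℂ) ≠ 0 := two_ne_zero
  rw [h4, Complex.cpow_add _ _ h2, Real.sqrt_mul (by norm_num)]
  have h5 : (2 : ℂ) ^ (1 / 2 : ℂ) = ((√2 : ℝ) : ℂ) := by
    rw [Real.sqrt_eq_rpow, Complex.ofReal_cpow (by norm_num)]
    push_cast
    rfl
  have h6 : ((√2 : ℝ) : ℂ) ≠ 0 := by
    rw [Ne, Complex.ofReal_eq_zero]
    positivity
  rw [h5]
  push_cast
  field_simp

/-- the real version -/
noncomputable def cr (x : ℝ) : ℝ := 2 ^ x * Real.Gamma (x + 1 / 2) / √π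

lemma cc_ofReal (x : ℝ) : cc x = (cr x : ℂ) := by
  rw [cc, cr]
  push_cast
  rw [Complex.ofReal_cpow (by norm_num), ← Complex.Gamma_ofReal]
  push_cast
  rfl

lemma cr_pos {x : ℝ} (hx : -1 / 2 < x) : 0 < cr x := by
  have : 0 < Real.Gamma (x + 1 / 2) := Real.Gamma_pos_of_pos (by linarith)
  unfold cr
  positivity

lemma cr_zero : cr 0 = 1 := by
  rw [cr, Real.rpow_zero, zero_add, Real.Gamma_one_half_eq, one_mul, div_self]
  have := Real.pi_pos
  positivity

lemma cr_one : cr 1 = 1 := by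
  rw [cr, Real.rpow_one, show (1 : ℝ) + 1 / 2 = 1 / 2 + 1 by ring,
    Real.Gamma_add_one (by norm_num), Real.Gamma_one_half_eq]
  have := Real.pi_pos
  have h : √π ≠ 0 := by positivity
  field_simp

lemma cc_ne_zero {z : ℂ} (hz : -1 / 2 < z.re) : cc z ≠ 0 := by
  rw [cc]
  have h1 : (2 : ℂ) ^ z ≠ 0 := by
    rw [Ne, Complex.cpow_eq_zero_iff]
    simp
  have hre : (z + 1 / 2).re = z.re + 1 / 2 := by
    rw [show z + 1 / 2 = z + ((1 / 2 : ℝ) : ℂ) by push_cast; ring, Complex.add_re,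
      Complex.ofReal_re]
  have h2 : Complex.Gamma (z + 1 / 2) ≠ 0 := Complex.Gamma_ne_zero_of_re_pos (by
    rw [hre]; linarith)
  have h3 : ((√π : ℝ) : ℂ) ≠ 0 := by
    rw [Ne, Complex.ofReal_eq_zero]
    have := Real.pi_pos
    positivity
  exact div_ne_zero (mul_ne_zero h1 h2) h3

lemma cc_differentiableAt {z : ℂ} (hz : -1 / 2 < z.re) : DifferentiableAt ℂ cc z := by
  unfold cc
  refine DifferentiableAt.div_const (DifferentiableAt.mul ?_ ?_) _
  · exact differentiableAt_id.const_cpow (Or.inl two_ne_zero)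
  · have hre : (z + 1 / 2).re = z.re + 1 / 2 := by
      rw [show z + 1 / 2 = z + ((1 / 2 : ℝ) : ℂ) by push_cast; ring, Complex.add_re,
        Complex.ofReal_re]
    have h1 : DifferentiableAt ℂ Complex.Gamma (z + 1 / 2) := by
      refine Complex.differentiableAt_Gamma _ fun m hm => ?_
      have := congrArg Complex.re hm
      rw [hre] at this
      simp at this
      have hm0 : (0 : ℝ) ≤ m := Nat.cast_nonneg m
      linarith
    exact h1.comp z (differentiableAt_id.add_const _)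

/-- lower bound of `cc` -/
lemma cc_lower {z : ℂ} (hz : 0 ≤ z.re) :
    Real.exp (-(π * |z.im|)) / 4 * cr z.re ≤ ‖cc z‖ := by
  have hre : (z + 1 / 2).re = z.re + 1 / 2 := by
    rw [show z + 1 / 2 = z + ((1 / 2 : ℝ) : ℂ) by push_cast; ring, Complex.add_re,
      Complex.ofReal_re]
  have him : (z + 1 / 2).im = z.im := by
    rw [show z + 1 / 2 = z + ((1 / 2 : ℝ) : ℂ) by push_cast; ring, Complex.add_im,
      Complex.ofReal_im, add_zero]
  have h := Gamma_lower (w := z + 1 / 2) (by rw [hre]; linarith)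
  rw [hre, him] at h
  have h2 : ‖(2 : ℂ) ^ z‖ = 2 ^ z.re := by
    have := Complex.norm_cpow_eq_rpow_re_of_pos (x := 2) (by norm_num) z
    simpa using this
  rw [cc, norm_div, norm_mul, h2, Complex.norm_real, Real.norm_of_nonneg (Real.sqrt_nonneg _), cr]
  have h3 : 0 < √π := Real.sqrt_pos.2 Real.pi_pos
  rw [le_div_iff₀ h3]
  calc Real.exp (-(π * |z.im|)) / 4 * (2 ^ z.re * Real.Gamma (z.re + 1 / 2) / √π) * √π
      = 2 ^ z.re * (Real.exp (-(π * |z.im|)) / 4 * Real.Gamma (z.re + 1 / 2)) := by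
        field_simp
    _ ≤ _ := mul_le_mul_of_nonneg_left h (by positivity)

/-- lower bound of `cr` -/
lemma cr_lower {x : ℝ} (hx : 1 / 2 ≤ x) :
    (Real.exp (-1) / √π) * ((2 * x / Real.exp 1) ^ x / √x) ≤ cr x := by
  have hx0 : 0 < x := by linarith
  have h := Gamma_lower_real hx
  have h3 : 0 < √π := Real.sqrt_pos.2 Real.pi_pos
  rw [cr]
  have h1 : (2 * x / Real.exp 1) ^ x = 2 ^ x * x ^ x * Real.exp (-x) := by
    rw [Real.div_rpow (by positivity) (Real.exp_pos _).le, Real.mul_rpow (by norm_num) hx0.le,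
      ← Real.exp_mul, one_mul, Real.exp_neg]
    rfl
  have h2 : x ^ (x - 1 / 2) = x ^ x / √x := by
    rw [Real.rpow_sub hx0, Real.sqrt_eq_rpow]
  have h4 : Real.exp (-(x + 1)) = Real.exp (-1) * Real.exp (-x) := by
    rw [← Real.exp_add]; congr 1; ring
  rw [h2, h4] at h
  rw [h1]
  calc (Real.exp (-1) / √π) * (2 ^ x * x ^ x * Real.exp (-x) / √x)
      = 2 ^ x * (x ^ x / √x * (Real.exp (-1) * Real.exp (-x))) / √π := by ring
    _ ≤ _ := by gcongr

end Pool.Agent.Work.MP_8d2b2d_co.PL
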