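import Mathlib

/-!
# Integrability of power weights against Gaussians, differentiation under the integral
-/

set_option autoImplicit false
set_option linter.unusedSectionVars false

namespace Pool.Agent.Work.MP_8d2b2d_co.PL

open MeasureTheory Matrix Finset MvPolynomial
open scoped Topology

lemma integrable_abs_rpow {s b : ℝ} (hs : -1 < s) (hb : 0 < b) :
    Integrable fun x : ℝ => |x| ^ s * Real.exp (-b * x ^ 2) := by
  have h1 := integrable_rpow_mul_exp_neg_mul_sq hb hs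
  have h2 : IntegrableOn (fun x : ℝ => |x| ^ s * Real.exp (-b * x ^ 2)) (Set.Ioi 0) := by
    refine (h1.integrableOn (s := Set.Ioi 0)).congr_fun ?_ measurableSet_Ioi
    intro x hx
    simp only [abs_of_pos (Set.mem_Ioi.1 hx)]
  have h3 : IntegrableOn (fun x : ℝ => |x| ^ s * Real.exp (-b * x ^ 2)) (Set.Iio 0) := by
    have h4 := ((Measure.measurePreserving_neg (volume : Measure ℝ)).integrableOn_comp_preimage
      (MeasurableEquiv.neg ℝ).measurableEmbedding
      (f := fun x : ℝ => |x| ^ s * Real.exp (-b * x ^ 2)) (s := Set.Ioi 0)).2 h2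
    have h5 : (Neg.neg ⁻¹' Set.Ioi (0 : ℝ)) = Set.Iio 0 := by
      ext x; simp
    rw [h5] at h4
    refine h4.congr_fun ?_ measurableSet_Iio
    intro x _
    simp [Function.comp]
  rw [← integrableOn_univ, ← Set.Iic_union_Ioi (a := (0 : ℝ))]
  have h6 : IntegrableOn (fun x : ℝ => |x| ^ s * Real.exp (-b * x ^ 2)) (Set.Iic 0) := by
    rw [integrableOn_Iic_iff_integrableOn_Iio]; exact h3
  exact h6.union h2

lemma one_add_pow_le (N : ℕ) {b : ℝ} (hb : 0 < b) :
    ∃ K : ℝ, 0 ≤ K ∧ ∀ x : ℝ, (1 + |x|) ^ N ≤ K * Real.exp (b * x ^ 2) := by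
  refine ⟨N.factorial * Real.exp (1 + 1 / (4 * b)), by positivity, fun x => ?_⟩
  have h1 : (1 + |x|) ^ N / N.factorial ≤ Real.exp (1 + |x|) :=
    Real.pow_div_factorial_le_exp _ (by positivity) N
  have h2 : (1 + |x|) ^ N ≤ N.factorial * Real.exp (1 + |x|) := by
    rw [div_le_iff₀ (by positivity)] at h1
    linarith
  refine h2.trans ?_
  rw [mul_assoc, ← Real.exp_add]
  refine mul_le_mul_of_nonneg_left (Real.exp_le_exp.2 ?_) (by positivity)
  have h3 : 0 ≤ (2 * b * |x| - 1) ^ 2 / (4 * b) := by positivity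
  have h4 : (2 * b * |x| - 1) ^ 2 / (4 * b) = b * x ^ 2 - |x| + 1 / (4 * b) := by
    rw [← sq_abs x]
    field_simp
    ring
  linarith

lemma integrable_1d {s b : ℝ} (hs : -1 < s) (hb : 0 < b) (N : ℕ) :
    Integrable fun x : ℝ => |x| ^ s * (1 + |x|) ^ N * Real.exp (-b * x ^ 2) := by
  obtain ⟨K, hK, h⟩ := one_add_pow_le N (half_pos hb)
  refine ((integrable_abs_rpow hs (half_pos hb)).const_mul K).mono' ?_ ?_
  · have : Measurable fun x : ℝ => |x| ^ s * (1 + |x|) ^ N * Real.exp (-b * x ^ 2) := by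
      fun_prop
    exact this.aestronglyMeasurable
  · refine ae_of_all _ fun x => ?_
    rw [Real.norm_of_nonneg (by positivity)]
    have h1 : Real.exp (-b * x ^ 2) = Real.exp (-(b / 2) * x ^ 2) * Real.exp (-(b / 2) * x ^ 2) := by
      rw [← Real.exp_add]; congr 1; ring
    have h2 : Real.exp (b / 2 * x ^ 2) * Real.exp (-(b / 2) * x ^ 2) = 1 := by
      rw [← Real.exp_add]; simp
    calc |x| ^ s * (1 + |x|) ^ N * Real.exp (-b * x ^ 2)
        ≤ |x| ^ s * (K * Real.exp (b / 2 * x ^ 2)) * Real.exp (-b * x ^ 2) := by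
          gcongr
          exact h x
      _ = K * (|x| ^ s * Real.exp (-(b / 2) * x ^ 2)) *
            (Real.exp (b / 2 * x ^ 2) * Real.exp (-(b / 2) * x ^ 2)) := by rw [h1]; ring
      _ = _ := by rw [h2, mul_one]

variable {ι : Type*} [Fintype ι] [DecidableEq ι]

/-- dominating function -/
noncomputable def dom (s : ℝ) (N : ℕ) (x : ι → ℝ) : ℝ := ∏ i, (|x i| ^ s * (1 + |x i|) ^ N)

lemma dom_nonneg (s : ℝ) (N : ℕ) (x : ι → ℝ) : 0 ≤ dom s N x :=
  Finset.prod_nonneg fun i _ => by positivity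

lemma integrable_dom {s b : ℝ} (hs : -1 < s) (hb : 0 < b) (N : ℕ) :
    Integrable fun x : ι → ℝ => dom s N x * Real.exp (-b * ∑ i, x i ^ 2) := by
  have h1 : Integrable fun x : ι → ℝ =>
      ∏ i, (|x i| ^ s * (1 + |x i|) ^ N * Real.exp (-b * x i ^ 2)) :=
    Integrable.fintype_prod (f := fun _ x => |x| ^ s * (1 + |x|) ^ N * Real.exp (-b * x ^ 2))
      (fun _ => integrable_1d hs hb N)
  refine h1.congr (ae_of_all _ fun x => ?_)
  simp only [dom]
  rw [Finset.prod_mul_distrib, ← Real.exp_sum, Finset.mul_sum]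

/-- polynomially bounded real functions -/
def PBd (g : (ι → ℝ) → ℝ) : Prop :=
  Measurable g ∧ ∃ (K : ℝ) (N : ℕ), 0 ≤ K ∧ ∀ x, |g x| ≤ K * ∏ i, (1 + |x i|) ^ N

lemma prod_pow_mono {N N' : ℕ} (h : N ≤ N') (x : ι → ℝ) :
    ∏ i, (1 + |x i|) ^ N ≤ ∏ i, (1 + |x i|) ^ N' := by
  refine Finset.prod_le_prod (fun i _ => by positivity) fun i _ => ?_
  exact pow_le_pow_right₀ (by linarith [abs_nonneg (x i)]) h

lemma PBd.const (c : ℝ) : PBd (fun _ : ι → ℝ => c) :=
  ⟨measurable_const, |c|, 0, abs_nonneg _, fun x => by simp⟩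

lemma PBd.coord (i : ι) : PBd (fun x : ι → ℝ => x i) := by
  refine ⟨measurable_pi_apply i, 1, 1, zero_le_one, fun x => ?_⟩
  rw [one_mul, ← Finset.mul_prod_erase _ _ (Finset.mem_univ i), pow_one]
  have h1 : (1 : ℝ) ≤ ∏ j ∈ univ.erase i, (1 + |x j|) ^ 1 := by
    have h2 := Finset.prod_le_prod (s := univ.erase i) (f := fun _ => (1 : ℝ))
      (g := fun j => (1 + |x j|) ^ 1) (fun _ _ => zero_le_one)
      (fun j _ => by rw [pow_one]; linarith [abs_nonneg (x j)])
    simpa using h2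
  nlinarith [abs_nonneg (x i)]

lemma PBd.add {f g : (ι → ℝ) → ℝ} (hf : PBd f) (hg : PBd g) : PBd (fun x => f x + g x) := by
  obtain ⟨mf, K, N, hK, h⟩ := hf
  obtain ⟨mg, K', N', hK', h'⟩ := hg
  refine ⟨mf.add mg, K + K', max N N', by positivity, fun x => ?_⟩
  have h1 := prod_pow_mono (le_max_left N N') x
  have h2 := prod_pow_mono (le_max_right N N') x
  calc |f x + g x| ≤ |f x| + |g x| := abs_add_le _ _
    _ ≤ K * ∏ i, (1 + |x i|) ^ N + K' * ∏ i, (1 + |x i|) ^ N' := add_le_add (h x) (h' x)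
    _ ≤ K * ∏ i, (1 + |x i|) ^ (max N N') + K' * ∏ i, (1 + |x i|) ^ (max N N') := by gcongr
    _ = _ := by ring

lemma PBd.mul {f g : (ι → ℝ) → ℝ} (hf : PBd f) (hg : PBd g) : PBd (fun x => f x * g x) := by
  obtain ⟨mf, K, N, hK, h⟩ := hf
  obtain ⟨mg, K', N', hK', h'⟩ := hg
  refine ⟨mf.mul mg, K * K', N + N', by positivity, fun x => ?_⟩
  calc |f x * g x| = |f x| * |g x| := abs_mul _ _
    _ ≤ (K * ∏ i, (1 + |x i|) ^ N) * (K' * ∏ i, (1 + |x i|) ^ N') :=
        mul_le_mul (h x) (h' x) (abs_nonneg _)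
          (mul_nonneg hK (Finset.prod_nonneg fun i _ => by positivity))
    _ = _ := by
        simp only [pow_add, Finset.prod_mul_distrib]
        ring

lemma PBd.sum {κ : Type*} (t : Finset κ) {f : κ → (ι → ℝ) → ℝ} (hf : ∀ k ∈ t, PBd (f k)) :
    PBd (fun x => ∑ k ∈ t, f k x) := by
  classical
  induction t using Finset.induction_on with
  | empty => simpa using PBd.const (ι := ι) 0
  | insert k t hk ih =>
    simp only [Finset.sum_insert hk]
    exact (hf k (Finset.mem_insert_self _ _)).add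
      (ih fun l hl => hf l (Finset.mem_insert_of_mem hl))

lemma PBd.eval (p : MvPolynomial ι ℝ) : PBd (fun x => MvPolynomial.eval x p) := by
  induction p using MvPolynomial.induction_on with
  | C a => simpa using PBd.const a
  | add p q hp hq => simpa using hp.add hq
  | mul_X p i hp => simpa using hp.mul (PBd.coord i)

/-- the quadratic form -/
def qf (M : Matrix ι ι ℝ) (x : ι → ℝ) : ℝ := x ⬝ᵥ (M *ᵥ x)

lemma qf_eq (M : Matrix ι ι ℝ) (x : ι → ℝ) : qf M x = ∑ i, ∑ j, M i j * (x i * x j) := by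
  rw [qf, dotProduct]
  refine Finset.sum_congr rfl fun i _ => ?_
  rw [Matrix.mulVec, dotProduct, Finset.mul_sum]
  refine Finset.sum_congr rfl fun j _ => ?_
  ring

lemma PBd.qf (M : Matrix ι ι ℝ) : PBd (qf M) := by
  have : PBd (fun x : ι → ℝ => ∑ i, ∑ j, M i j * (x i * x j)) :=
    PBd.sum _ fun i _ => PBd.sum _ fun j _ =>
      (PBd.const _).mul ((PBd.coord i).mul (PBd.coord j))
  rwa [← funext (qf_eq M)] at this

/-- functions bounded by the weight times a polynomial -/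
def WB (s : ℝ) (F : (ι → ℝ) → ℂ) : Prop :=
  AEStronglyMeasurable F volume ∧ ∃ (K : ℝ) (N : ℕ), 0 ≤ K ∧ ∀ x, ‖F x‖ ≤ K * dom s N x

lemma WB.mul {s : ℝ} {F : (ι → ℝ) → ℂ} (hF : WB s F) {g : (ι → ℝ) → ℝ} (hg : PBd g) :
    WB s (fun x => F x * (g x : ℂ)) := by
  obtain ⟨mF, K, N, hK, h⟩ := hF
  obtain ⟨mg, K', N', hK', h'⟩ := hg
  refine ⟨mF.mul (Complex.measurable_ofReal.comp mg).aestronglyMeasurable, K * K', N + N',
    by positivity, fun x => ?_⟩
  rw [norm_mul, Complex.norm_real, Real.norm_eq_abs]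
  calc ‖F x‖ * |g x| ≤ (K * dom s N x) * (K' * ∏ i, (1 + |x i|) ^ N') :=
        mul_le_mul (h x) (h' x) (abs_nonneg _) (mul_nonneg hK (dom_nonneg s N x))
    _ = _ := by
        simp only [dom, pow_add, Finset.prod_mul_distrib]
        ring

lemma WB.integrable {s : ℝ} (hs : -1 < s) {F : (ι → ℝ) → ℂ} (hF : WB s F) {Q : (ι → ℝ) → ℝ}
    (hQm : Measurable Q) {c : ℝ} (hc : 0 < c) (hQ : ∀ x, c * ∑ i, x i ^ 2 ≤ Q x) :
    Integrable (fun x => F x * (Real.exp (-Q x) : ℂ)) := by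
  obtain ⟨mF, K, N, hK, h⟩ := hF
  refine ((integrable_dom hs hc N).const_mul K).mono' ?_ ?_
  · exact mF.mul (Complex.measurable_ofReal.comp (Real.measurable_exp.comp
      hQm.neg)).aestronglyMeasurable
  · refine ae_of_all _ fun x => ?_
    rw [norm_mul, Complex.norm_real, Real.norm_of_nonneg (Real.exp_pos _).le, ← mul_assoc]
    refine mul_le_mul (h x) (Real.exp_le_exp.2 ?_) (Real.exp_pos _).le
      (mul_nonneg hK (dom_nonneg s N x))
    have := hQ x
    linarith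

lemma sum_sq_PBd : PBd (fun x : ι → ℝ => ∑ i, x i ^ 2) := by
  refine PBd.sum _ fun i _ => ?_
  have := (PBd.coord i).mul (PBd.coord i)
  simpa [sq] using this

/-- Differentiation under the integral sign. -/
theorem hasDerivAt_param {s : ℝ} (hs : -1 < s) {F : (ι → ℝ) → ℂ} (hF : WB s F)
    {Q Q' : ℝ → (ι → ℝ) → ℝ} {t₀ ε c C : ℝ} (hε : 0 < ε) (hc : 0 < c)
    (hQm : ∀ t, Measurable (Q t)) (hQ'm : PBd (Q' t₀))
    (hQ : ∀ t ∈ Metric.ball t₀ ε, ∀ x, c * ∑ i, x i ^ 2 ≤ Q t x)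
    (hQ' : ∀ t ∈ Metric.ball t₀ ε, ∀ x, |Q' t x| ≤ C * ∑ i, x i ^ 2)
    (hd : ∀ t ∈ Metric.ball t₀ ε, ∀ x, HasDerivAt (fun t => Q t x) (Q' t x) t) :
    HasDerivAt (fun t => ∫ x, F x * (Real.exp (-Q t x) : ℂ))
      (∫ x, F x * ((-Q' t₀ x : ℝ) : ℂ) * (Real.exp (-Q t₀ x) : ℂ)) t₀ := by
  have ht₀ : t₀ ∈ Metric.ball t₀ ε := Metric.mem_ball_self hε
  obtain ⟨mF, K, N, hK, h⟩ := id hF
  obtain ⟨_, K', N', hK', h'⟩ := sum_sq_PBd (ι := ι)
  have hC : 0 ≤ C ∨ IsEmpty ι ∨ ∀ x : ι → ℝ, |Q' t₀ x| ≤ C * ∑ i, x i ^ 2 := Or.inr (Or.inr (hQ' _ ht₀))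
  have key := hasDerivAt_integral_of_dominated_loc_of_deriv_le
    (μ := (volume : Measure (ι → ℝ))) (F := fun t x => F x * (Real.exp (-Q t x) : ℂ))
    (F' := fun t x => F x * ((-Q' t x : ℝ) : ℂ) * (Real.exp (-Q t x) : ℂ))
    (x₀ := t₀) (s := Metric.ball t₀ ε)
    (bound := fun x => (K * (|C| * K')) * (dom s (N + N') x * Real.exp (-c * ∑ i, x i ^ 2)))
    (Metric.ball_mem_nhds t₀ hε) ?_ ?_ ?_ ?_ ?_ ?_
  · exact key.2
  · refine Filter.Eventually.of_forall fun t => ?_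
    exact mF.mul (Complex.measurable_ofReal.comp (Real.measurable_exp.comp
      (hQm t).neg)).aestronglyMeasurable
  · exact hF.integrable hs (hQm t₀) hc (hQ t₀ ht₀)
  · refine AEStronglyMeasurable.mul (mF.mul ?_) ?_
    · exact (Complex.measurable_ofReal.comp hQ'm.1.neg).aestronglyMeasurable
    · exact (Complex.measurable_ofReal.comp (Real.measurable_exp.comp
        (hQm t₀).neg)).aestronglyMeasurable
  · refine ae_of_all _ fun x t ht => ?_
    rw [norm_mul, norm_mul, Complex.norm_real, Complex.norm_real,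
      Real.norm_of_nonneg (Real.exp_pos _).le, Real.norm_eq_abs, abs_neg]
    have h1 : |Q' t x| ≤ |C| * (K' * ∏ i, (1 + |x i|) ^ N') := by
      refine (hQ' t ht x).trans ?_
      have h2 : (0 : ℝ) ≤ ∑ i, x i ^ 2 := Finset.sum_nonneg fun i _ => sq_nonneg _
      refine (mul_le_mul_of_nonneg_right (le_abs_self C) h2).trans ?_
      exact mul_le_mul_of_nonneg_left ((le_abs_self _).trans (h' x)) (abs_nonneg _)
    have h3 : Real.exp (-Q t x) ≤ Real.exp (-c * ∑ i, x i ^ 2) := by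
      refine Real.exp_le_exp.2 ?_
      have := hQ t ht x
      linarith
    calc ‖F x‖ * |Q' t x| * Real.exp (-Q t x)
        ≤ (K * dom s N x) * (|C| * (K' * ∏ i, (1 + |x i|) ^ N')) *
          Real.exp (-c * ∑ i, x i ^ 2) := by
          refine mul_le_mul (mul_le_mul (h x) h1 (abs_nonneg _)
            (mul_nonneg hK (dom_nonneg s N x))) h3 (Real.exp_pos _).le ?_
          exact mul_nonneg (mul_nonneg hK (dom_nonneg s N x))
            (mul_nonneg (abs_nonneg _) (mul_nonneg hK'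
              (Finset.prod_nonneg fun i _ => by positivity)))
      _ = _ := by
          simp only [dom, pow_add, Finset.prod_mul_distrib]
          ring
  · exact (integrable_dom hs hc (N + N')).const_mul _
  · refine ae_of_all _ fun x t ht => ?_
    have h1 : HasDerivAt (fun t => Real.exp (-Q t x)) (Real.exp (-Q t x) * (-Q' t x)) t :=
      ((hd t ht x).neg).exp
    have h2 := (h1.ofReal_comp).const_mul (F x)
    refine h2.congr_deriv ?_
    push_cast
    ring

end Pool.Agent.Work.MP_8d2b2d_co.PL
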