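import Pool.Agent.Work.MP_8d2b2d_co.PL.Mat

/-!
# Elementary lower bounds in the Fock space
-/

set_option autoImplicit false
set_option linter.unusedSectionVars false

namespace Pool.Agent.Work.MP_8d2b2d_co.PL

open Matrix
open MvPolynomial (X C monomial eval pderiv)

section fock

variable {d : Type} [Fintype d] [DecidableEq d]

lemma dL_self {a : d → ℂ} (ha : ∑ c, ‖a c‖ ^ 2 = 1) : dL a (L a) = 1 := by
  rw [dL_L]
  have h : ∑ c, (starRingEnd ℂ) (a c) * a c = ((∑ c, ‖a c‖ ^ 2 : ℝ) : ℂ) := by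
    push_cast
    exact Finset.sum_congr rfl fun c _ => Complex.conj_mul' _
  rw [h, ha]
  simp

lemma dL_pow_mul {a : d → ℂ} (ha : ∑ c, ‖a c‖ ^ 2 = 1) (j : ℕ) (f : MvPolynomial d ℂ) :
    dL a (L a ^ (j + 1) * f) = C ((j + 1 : ℕ) : ℂ) * (L a ^ j * f) + L a ^ (j + 1) * dL a f := by
  rw [Derivation.leibniz, Derivation.leibniz_pow, dL_self ha]
  simp only [Nat.add_sub_cancel, smul_eq_mul, nsmul_eq_mul, mul_one]
  rw [map_natCast]
  ring

/-- `N (L a * f) = N f + N (∂ f)` -/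
lemma N_L_mul {a : d → ℂ} (ha : ∑ c, ‖a c‖ ^ 2 = 1) (f : MvPolynomial d ℂ) :
    N (L a * f) = N f + N (dL a f) := by
  have h1 : ip (L a * f) (L a * f) = ip f f + ip (dL a f) (dL a f) := by
    rw [ip_L_mul, Derivation.leibniz, dL_self ha, smul_eq_mul, smul_eq_mul, mul_one, ip_add_right,
      ← ip_dL_left]
    ring
  rw [N, h1, Complex.add_re, N, N]

/-- the cross term -/
noncomputable def cj (a : d → ℂ) (f : MvPolynomial d ℂ) (j : ℕ) : ℂ :=
  ip (L a ^ (j + 1) * dL a f) (L a ^ j * f)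

lemma cj_zero (a : d → ℂ) (f : MvPolynomial d ℂ) : cj a f 0 = N (dL a f) := by
  rw [cj, zero_add, pow_one, pow_zero, one_mul, ip_L_mul, ip_self]

lemma cj_succ {a : d → ℂ} (ha : ∑ c, ‖a c‖ ^ 2 = 1) (f : MvPolynomial d ℂ) (j : ℕ) :
    cj a f (j + 1) = (j + 1 : ℂ) * cj a f j + N (L a ^ (j + 1) * dL a f) := by
  rw [cj, pow_succ' (L a) (j + 1), mul_assoc, ip_L_mul, dL_pow_mul ha, ip_add_right,
    ip_C_mul_right, ip_self, cj]
  push_cast
  ring

lemma N_pow_succ {a : d → ℂ} (ha : ∑ c, ‖a c‖ ^ 2 = 1) (f : MvPolynomial d ℂ) (j : ℕ) :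
    (N (L a ^ (j + 1) * f) : ℂ) = (j + 1 : ℂ) * N (L a ^ j * f) + cj a f j := by
  rw [pow_succ' (L a) j, mul_assoc, N_L_mul ha]
  push_cast
  have h1 : (N (dL a (L a ^ j * f)) : ℂ) = (j : ℂ) * N (L a ^ j * f) + cj a f j := by
    rw [← ip_self]
    rcases j with _ | j
    · rw [pow_zero, one_mul, cj_zero, ip_self]
      simp
    · rw [← ip_L_mul, dL_pow_mul ha, mul_add, ip_add_left]
      rw [show L a * (C ((j + 1 : ℕ) : ℂ) * (L a ^ j * f)) =
        C ((j + 1 : ℕ) : ℂ) * (L a ^ (j + 1) * f) by rw [pow_succ']; ring,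
        show L a * (L a ^ (j + 1) * dL a f) = L a ^ (j + 1 + 1) * dL a f by
          rw [pow_succ' (L a) (j + 1)]; ring, ip_C_mul_left, ip_self, cj, Complex.conj_natCast]
  rw [h1]
  ring

lemma cj_ge {a : d → ℂ} (ha : ∑ c, ‖a c‖ ^ 2 = 1) (f : MvPolynomial d ℂ) (j : ℕ) :
    ∃ x : ℝ, 0 ≤ x ∧ cj a f j = x := by
  induction j with
  | zero => exact ⟨_, N_nonneg _, cj_zero a f⟩
  | succ j ih =>
    obtain ⟨x, hx, h⟩ := ih
    refine ⟨(j + 1) * x + N (L a ^ (j + 1) * dL a f), ?_, ?_⟩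
    · have := N_nonneg (L a ^ (j + 1) * dL a f)
      positivity
    · rw [cj_succ ha, h]
      push_cast
      ring

lemma N_pow_ge1 {a : d → ℂ} (ha : ∑ c, ‖a c‖ ^ 2 = 1) (f : MvPolynomial d ℂ) (j : ℕ) :
    (j.factorial : ℝ) * N f ≤ N (L a ^ j * f) := by
  induction j with
  | zero => simp
  | succ j ih =>
    obtain ⟨x, hx, h⟩ := cj_ge ha f j
    have h1 := N_pow_succ ha f j
    rw [h] at h1
    have h2 : N (L a ^ (j + 1) * f) = (j + 1) * N (L a ^ j * f) + x := by exact_mod_cast h1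
    rw [h2, Nat.factorial_succ]
    push_cast
    have h3 : ((j : ℝ) + 1) * (j.factorial * N f) ≤ (j + 1) * N (L a ^ j * f) :=
      mul_le_mul_of_nonneg_left ih (by positivity)
    linarith

lemma cj_ge2 {a : d → ℂ} (ha : ∑ c, ‖a c‖ ^ 2 = 1) (f : MvPolynomial d ℂ) (j : ℕ) :
    ∃ x : ℝ, ((j + 1).factorial : ℝ) * N (dL a f) ≤ x ∧ cj a f j = x := by
  induction j with
  | zero => exact ⟨N (dL a f), by simp, cj_zero a f⟩
  | succ j ih =>
    obtain ⟨x, hx, h⟩ := ih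
    refine ⟨(j + 1) * x + N (L a ^ (j + 1) * dL a f), ?_, ?_⟩
    · have h1 := N_pow_ge1 ha (dL a f) (j + 1)
      have h2 : ((j : ℝ) + 1) * (((j + 1).factorial : ℝ) * N (dL a f)) ≤ (j + 1) * x :=
        mul_le_mul_of_nonneg_left hx (by positivity)
      rw [Nat.factorial_succ (j + 1)]
      push_cast
      linarith
    · rw [cj_succ ha, h]
      push_cast
      ring

lemma N_pow_ge2 {a : d → ℂ} (ha : ∑ c, ‖a c‖ ^ 2 = 1) (f : MvPolynomial d ℂ) (j : ℕ) :
    (j.factorial : ℝ) * (N f + j * N (dL a f)) ≤ N (L a ^ j * f) := by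
  induction j with
  | zero => simp
  | succ j ih =>
    obtain ⟨x, hx, h⟩ := cj_ge2 ha f j
    have h1 := N_pow_succ ha f j
    rw [h] at h1
    have h2 : N (L a ^ (j + 1) * f) = (j + 1) * N (L a ^ j * f) + x := by exact_mod_cast h1
    rw [h2]
    rw [Nat.factorial_succ] at hx ⊢
    push_cast at hx ⊢
    have h3 : ((j : ℝ) + 1) * (j.factorial * (N f + j * N (dL a f))) ≤
        (j + 1) * N (L a ^ j * f) :=
      mul_le_mul_of_nonneg_left ih (by positivity)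
    linarith

/-- overlap of two vectors -/
noncomputable def ov (a b : d → ℂ) : ℂ := ∑ c, (starRingEnd ℂ) (a c) * b c

lemma N_dL_pow {a b : d → ℂ} (hb : ∑ c, ‖b c‖ ^ 2 = 1) (k : ℕ) :
    N (dL a (L b ^ k)) = k * k.factorial * ‖ov a b‖ ^ 2 := by
  rcases k with _ | k
  · rw [pow_zero]
    have : dL a (1 : MvPolynomial d ℂ) = 0 := by
      rw [← MvPolynomial.C_1, dL_C]
    rw [this, N, ip_zero_right]
    simp
  · rw [Derivation.leibniz_pow, dL_L, Nat.add_sub_cancel]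
    have h1 : ((k + 1) • (L b ^ k • C (∑ c, (starRingEnd ℂ) (a c) * b c) : MvPolynomial d ℂ)) =
        C (((k + 1 : ℕ) : ℂ) * ov a b) * L b ^ k := by
      rw [nsmul_eq_mul, smul_eq_mul, MvPolynomial.C_mul, ov, map_natCast]
      ring
    rw [h1, N_C_mul, N_L_pow, hb, one_pow, norm_mul, Complex.norm_natCast, Nat.factorial_succ]
    push_cast
    ring

/-- lower bound (i) for two vectors -/
lemma two_ge1 {a b : d → ℂ} (ha : ∑ c, ‖a c‖ ^ 2 = 1) (hb : ∑ c, ‖b c‖ ^ 2 = 1) (k : ℕ) :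
    (k.factorial : ℝ) ^ 2 * (1 + k ^ 2 * ‖ov a b‖ ^ 2) ≤ N (L a ^ k * L b ^ k) := by
  have h := N_pow_ge2 ha (L b ^ k) k
  rw [N_dL_pow hb, N_L_pow, hb, one_pow] at h
  refine le_trans (le_of_eq ?_) h
  ring

/-- lower bound (ii) for two vectors -/
lemma two_ge2 {a b : d → ℂ} (ha : ∑ c, ‖a c‖ ^ 2 = 1) (hb : ∑ c, ‖b c‖ ^ 2 = 1)
    (hab : ov a b ≠ 0) (k : ℕ) :
    ((2 * k).factorial : ℝ) * ((1 + ‖ov a b‖) / 2) ^ (2 * k) ≤ N (L a ^ k * L b ^ k) := by
  set g : ℂ := ov a b with hg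
  have hn : (‖g‖ : ℂ) ≠ 0 := by
    rw [Ne, Complex.ofReal_eq_zero, norm_eq_zero]
    exact hab
  set u : ℂ := g / ‖g‖ with hu
  have hun : ‖u‖ = 1 := by
    rw [hu, norm_div, Complex.norm_real, norm_norm, div_self (norm_ne_zero_iff.2 hab)]
  set w : d → ℂ := fun c => (starRingEnd ℂ) (a c) + u * (starRingEnd ℂ) (b c) with hw
  have haa : ∑ c, a c * (starRingEnd ℂ) (a c) = 1 := by
    have : ∑ c, a c * (starRingEnd ℂ) (a c) = ((∑ c, ‖a c‖ ^ 2 : ℝ) : ℂ) := by
      push_cast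
      exact Finset.sum_congr rfl fun c _ => Complex.mul_conj' _
    rw [this, ha, Complex.ofReal_one]
  have hbb : ∑ c, b c * (starRingEnd ℂ) (b c) = 1 := by
    have : ∑ c, b c * (starRingEnd ℂ) (b c) = ((∑ c, ‖b c‖ ^ 2 : ℝ) : ℂ) := by
      push_cast
      exact Finset.sum_congr rfl fun c _ => Complex.mul_conj' _
    rw [this, hb, Complex.ofReal_one]
  have hba : ∑ c, b c * (starRingEnd ℂ) (a c) = g := by
    rw [hg, ov]
    exact Finset.sum_congr rfl fun c _ => mul_comm _ _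
  have hab' : ∑ c, a c * (starRingEnd ℂ) (b c) = (starRingEnd ℂ) g := by
    rw [hg, ov, map_sum]
    refine Finset.sum_congr rfl fun c _ => ?_
    rw [map_mul, Complex.conj_conj]
  have hug : u * (starRingEnd ℂ) g = ‖g‖ := by
    rw [hu, div_mul_eq_mul_div, Complex.mul_conj', div_eq_iff hn, sq]
  have hu' : g = u * ‖g‖ := by
    rw [hu, div_mul_cancel₀ _ hn]
  have h1 : ∑ c, a c * w c = 1 + ‖g‖ := by
    have : ∑ c, a c * w c = ∑ c, a c * (starRingEnd ℂ) (a c) +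
        u * ∑ c, a c * (starRingEnd ℂ) (b c) := by
      rw [Finset.mul_sum, ← Finset.sum_add_distrib]
      refine Finset.sum_congr rfl fun c _ => ?_
      rw [hw]
      ring
    rw [this, haa, hab', hug]
  have h2 : ∑ c, b c * w c = u * (1 + ‖g‖) := by
    have : ∑ c, b c * w c = ∑ c, b c * (starRingEnd ℂ) (a c) +
        u * ∑ c, b c * (starRingEnd ℂ) (b c) := by
      rw [Finset.mul_sum, ← Finset.sum_add_distrib]
      refine Finset.sum_congr rfl fun c _ => ?_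
      rw [hw]
      ring
    rw [this, hba, hbb]
    linear_combination hu'
  have h3 : ∑ c, ‖w c‖ ^ 2 = 2 * (1 + ‖g‖) := by
    have h4 : ((∑ c, ‖w c‖ ^ 2 : ℝ) : ℂ) = ((2 * (1 + ‖g‖) : ℝ) : ℂ) := by
      push_cast
      have h5 : ∀ c, (‖w c‖ : ℂ) ^ 2 = a c * w c + (starRingEnd ℂ) u * (b c * w c) := by
        intro c
        rw [← Complex.conj_mul', hw]
        simp only [map_add, map_mul, Complex.conj_conj]
        ring
      rw [Finset.sum_congr rfl fun c _ => h5 c, Finset.sum_add_distrib, ← Finset.mul_sum, h1, h2]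
      have h6 : (starRingEnd ℂ) u * u = 1 := by
        rw [Complex.conj_mul', hun]
        simp
      linear_combination (1 + (‖g‖ : ℂ)) * h6
    exact_mod_cast h4
  have hhom : (L a ^ k * L b ^ k).IsHomogeneous (2 * k) := by
    have := (homog_L_pow a k).mul (homog_L_pow b k)
    rwa [← two_mul] at this
  have h7 := eval_le hhom w
  rw [map_mul, map_pow, map_pow, eval_L, eval_L, h1, h2, h3, norm_mul, norm_pow, norm_pow,
    norm_mul, hun, one_mul] at h7
  have h8 : ‖(1 : ℂ) + ‖g‖‖ = 1 + ‖g‖ := by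
    have : (1 : ℂ) + ‖g‖ = ((1 + ‖g‖ : ℝ) : ℂ) := by push_cast; rfl
    rw [this, Complex.norm_real, Real.norm_of_nonneg (by positivity)]
  rw [h8] at h7
  have hpos : 0 < (2 * (1 + ‖g‖)) ^ (2 * k) := by positivity
  refine le_of_mul_le_mul_right ?_ hpos
  refine le_trans (le_of_eq ?_) h7
  rw [div_pow, mul_pow]
  have h9 : ((1 + ‖g‖) ^ k * (1 + ‖g‖) ^ k) ^ 2 = (1 + ‖g‖) ^ (2 * k) * (1 + ‖g‖) ^ (2 * k) := by
    ring
  rw [h9]
  field_simp

end fock

section prod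

variable {ι : Type} [Fintype ι] [DecidableEq ι] {d : Type} [Fintype d] [DecidableEq d]

lemma N_prod_ge {b : ι → d → ℂ} (hb : ∀ i, ∑ c, ‖b i c‖ ^ 2 = 1) (k : ℕ) (s : Finset ι)
    (f : MvPolynomial d ℂ) :
    (k.factorial : ℝ) ^ s.card * N f ≤ N ((∏ i ∈ s, L (b i) ^ k) * f) := by
  induction s using Finset.induction_on with
  | empty => simp
  | insert i s hi ih =>
    rw [Finset.prod_insert hi, Finset.card_insert_of_notMem hi, mul_assoc]
    refine le_trans ?_ (N_pow_ge1 (hb i) _ k)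
    rw [pow_succ']
    calc (k.factorial : ℝ) * (k.factorial : ℝ) ^ s.card * N f
        = k.factorial * ((k.factorial : ℝ) ^ s.card * N f) := by ring
      _ ≤ _ := mul_le_mul_of_nonneg_left ih (by positivity)

/-- reduction to two vectors -/
lemma N_pow_two {b : ι → d → ℂ} (hb : ∀ i, ∑ c, ‖b i c‖ ^ 2 = 1) (k : ℕ) {i j : ι}
    (hij : i ≠ j) {x : ℝ} (hx : (k.factorial : ℝ) ^ 2 * x ≤ N (L (b i) ^ k * L (b j) ^ k)) :
    (k.factorial : ℝ) ^ Fintype.card ι * x ≤ N ((∏ i, L (b i)) ^ k) := by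
  have h1 : (∏ i, L (b i)) ^ k =
      (∏ l ∈ (Finset.univ.erase i).erase j, L (b l) ^ k) * (L (b i) ^ k * L (b j) ^ k) := by
    rw [← Finset.prod_pow, ← Finset.mul_prod_erase _ _ (Finset.mem_univ i),
      ← Finset.mul_prod_erase (Finset.univ.erase i) (fun l => L (b l) ^ k)
        (Finset.mem_erase.2 ⟨hij.symm, Finset.mem_univ j⟩)]
    ring
  have h2 : ((Finset.univ.erase i).erase j).card = Fintype.card ι - 2 := by
    rw [Finset.card_erase_of_mem (Finset.mem_erase.2 ⟨hij.symm, Finset.mem_univ j⟩),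
      Finset.card_erase_of_mem (Finset.mem_univ i), Finset.card_univ]
    omega
  have h3 : 2 ≤ Fintype.card ι := by
    have := Fintype.one_lt_card_iff.2 ⟨i, j, hij⟩
    omega
  have h4 := N_prod_ge hb k ((Finset.univ.erase i).erase j) (L (b i) ^ k * L (b j) ^ k)
  rw [h1]
  refine le_trans ?_ h4
  rw [h2]
  calc (k.factorial : ℝ) ^ Fintype.card ι * x
      = (k.factorial : ℝ) ^ (Fintype.card ι - 2) * ((k.factorial : ℝ) ^ 2 * x) := by
        rw [← mul_assoc, ← pow_add, Nat.sub_add_cancel h3]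
    _ ≤ _ := mul_le_mul_of_nonneg_left hx (by positivity)

/-- trivial lower bound -/
lemma N_pow_one {b : ι → d → ℂ} (hb : ∀ i, ∑ c, ‖b i c‖ ^ 2 = 1) (k : ℕ) :
    (k.factorial : ℝ) ^ Fintype.card ι ≤ N ((∏ i, L (b i)) ^ k) := by
  have h := N_prod_ge hb k Finset.univ 1
  rw [N_one, mul_one, mul_one, Finset.prod_pow, Finset.card_univ] at h
  exact h

end prod

end Pool.Agent.Work.MP_8d2b2d_co.PL
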