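import Pool.Agent.Work.MP_8d2b2d_co.PL.Elem

/-!
# The inequality for large `k`
-/

set_option autoImplicit false
set_option linter.unusedSectionVars false

namespace Pool.Agent.Work.MP_8d2b2d_co.PL

open Matrix Filter
open scoped Topology

/-! ### factorials -/

lemma pow_self_le (n : ℕ) : (n : ℝ) ^ n ≤ n.factorial * Real.exp n := by
  have h := Real.pow_div_factorial_le_exp (n : ℝ) (Nat.cast_nonneg n) n
  have h2 : (0 : ℝ) < n.factorial := by exact_mod_cast n.factorial_pos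
  rwa [div_le_iff₀ h2, mul_comm] at h

lemma factorial_le (k : ℕ) (hk : 1 ≤ k) :
    (k.factorial : ℝ) * Real.exp k ≤ Real.exp 1 * k * (k : ℝ) ^ k := by
  induction k, hk using Nat.le_induction with
  | base => simp
  | succ k hk ih =>
    have hk0 : (0 : ℝ) < k := by exact_mod_cast hk
    have h1 : (k : ℝ) ^ (k + 1) ≤ ((k : ℝ) + 1) ^ (k + 1) * Real.exp (-1) := by
      have h2 : 1 - 1 / ((k : ℝ) + 1) ≤ Real.exp (-(1 / ((k : ℝ) + 1))) := by
        have := Real.add_one_le_exp (-(1 / ((k : ℝ) + 1)))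
        linarith
      have h3 : 1 - 1 / ((k : ℝ) + 1) = k / ((k : ℝ) + 1) := by field_simp; ring
      rw [h3] at h2
      have h4 := pow_le_pow_left₀ (by positivity) h2 (k + 1)
      rw [← Real.exp_nat_mul, div_pow, div_le_iff₀ (by positivity)] at h4
      have h5 : ((k + 1 : ℕ) : ℝ) * -(1 / ((k : ℝ) + 1)) = -1 := by
        push_cast
        field_simp
      rw [h5] at h4
      linarith
    have h6 : Real.exp 1 * Real.exp (-1) = 1 := by
      rw [← Real.exp_add]; simp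
    rw [Nat.factorial_succ]
    push_cast
    rw [Real.exp_add]
    calc ((k : ℝ) + 1) * k.factorial * (Real.exp k * Real.exp 1)
        = ((k : ℝ) + 1) * Real.exp 1 * (k.factorial * Real.exp k) := by ring
      _ ≤ ((k : ℝ) + 1) * Real.exp 1 * (Real.exp 1 * k * (k : ℝ) ^ k) :=
          mul_le_mul_of_nonneg_left ih (by positivity)
      _ = ((k : ℝ) + 1) * Real.exp 1 * (Real.exp 1 * (k : ℝ) ^ (k + 1)) := by ring
      _ ≤ ((k : ℝ) + 1) * Real.exp 1 *
            (Real.exp 1 * (((k : ℝ) + 1) ^ (k + 1) * Real.exp (-1))) := by gcongr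
      _ = ((k : ℝ) + 1) * Real.exp 1 * (((k : ℝ) + 1) ^ (k + 1) *
            (Real.exp 1 * Real.exp (-1))) := by ring
      _ = _ := by rw [h6]; ring

lemma factorial_pow_le (m k : ℕ) (hk : 1 ≤ k) :
    (k.factorial : ℝ) ^ m * (m : ℝ) ^ (m * k) ≤
      (Real.exp 1 * k) ^ m * (m * k).factorial := by
  have hk0 : (0 : ℝ) < k := by exact_mod_cast hk
  have h1 := factorial_le k hk
  have h2 := pow_self_le (m * k)
  have h3 : (k.factorial : ℝ) ≤ Real.exp 1 * k * (k : ℝ) ^ k * Real.exp (-k) := by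
    have h4 : Real.exp k * Real.exp (-k) = 1 := by
      rw [← Real.exp_add]; simp
    calc (k.factorial : ℝ) = k.factorial * Real.exp k * Real.exp (-k) := by
          rw [mul_assoc, h4, mul_one]
      _ ≤ _ := mul_le_mul_of_nonneg_right h1 (Real.exp_pos _).le
  have h5 := pow_le_pow_left₀ (by positivity) h3 m
  have h6 : Real.exp (-k) ^ m * Real.exp ((m * k : ℕ) : ℝ) = 1 := by
    rw [← Real.exp_nat_mul, ← Real.exp_add]
    push_cast
    rw [mul_neg, neg_add_cancel, Real.exp_zero]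
  calc (k.factorial : ℝ) ^ m * (m : ℝ) ^ (m * k)
      ≤ (Real.exp 1 * k * (k : ℝ) ^ k * Real.exp (-k)) ^ m * (m : ℝ) ^ (m * k) :=
        mul_le_mul_of_nonneg_right h5 (by positivity)
    _ = (Real.exp 1 * k) ^ m * (((m * k : ℕ) : ℝ) ^ (m * k) * Real.exp (-k) ^ m) := by
        push_cast
        rw [mul_pow, mul_pow, mul_pow (m : ℝ) (k : ℝ), ← pow_mul, mul_comm k m]
        ring
    _ ≤ (Real.exp 1 * k) ^ m * (((m * k).factorial * Real.exp ((m * k : ℕ) : ℝ)) *
          Real.exp (-k) ^ m) := by gcongr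
    _ = (Real.exp 1 * k) ^ m * ((m * k).factorial *
          (Real.exp (-k) ^ m * Real.exp ((m * k : ℕ) : ℝ))) := by ring
    _ = _ := by rw [h6, mul_one]

/-! ### the nearly orthogonal case -/

lemma small_case {k : ℕ} {F ε x N₂ : ℝ} (hF : 1 ≤ F) (hε0 : 0 < ε) (hε1 : F * ε ≤ 1)
    (hx0 : 0 ≤ x) (hx : x ≤ 1 + F * ε ^ 2) (hk : 8192 * F ^ 2 ≤ k)
    (h1 : (k.factorial : ℝ) ^ 2 * (1 + k ^ 2 * ε ^ 2) ≤ N₂)
    (h2 : ((2 * k).factorial : ℝ) * ((1 + ε) / 2) ^ (2 * k) ≤ N₂) :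
    (k.factorial : ℝ) ^ 2 * x ^ k ≤ N₂ := by
  have hk8192 : (8192 : ℝ) ≤ k := by nlinarith
  have hk0 : (0 : ℝ) < k := by linarith
  have hkn : 0 < k := by exact_mod_cast hk0
  by_cases hc : 2 * (k : ℝ) ≤ (1 + ε) ^ k
  · refine le_trans ?_ h2
    have h3 : (4 : ℝ) ^ k ≤ 2 * k * (Nat.centralBinom k) := by
      exact_mod_cast Nat.four_pow_le_two_mul_self_mul_centralBinom k hkn
    have h4 : ((2 * k).factorial : ℝ) = Nat.centralBinom k * (k.factorial : ℝ) ^ 2 := by
      have h5 := Nat.choose_mul_factorial_mul_factorial (n := 2 * k) (k := k) (by omega)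
      rw [show 2 * k - k = k by omega] at h5
      rw [Nat.centralBinom]
      rw [← h5]
      push_cast
      ring
    have hx2 : x ≤ 1 + ε := by
      refine hx.trans ?_
      nlinarith
    have h6 : x ^ k ≤ (1 + ε) ^ k := pow_le_pow_left₀ hx0 hx2 k
    have h7 : ((1 + ε) / 2) ^ (2 * k) = (1 + ε) ^ k * (1 + ε) ^ k / 4 ^ k := by
      rw [div_pow, pow_mul 2 2 k, two_mul, pow_add]
      norm_num
    rw [h4, h7]
    have h8 : (1 : ℝ) ≤ Nat.centralBinom k * ((1 + ε) ^ k / 4 ^ k) := by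
      rw [mul_div_assoc', le_div_iff₀ (by positivity), one_mul]
      refine h3.trans ?_
      rw [mul_comm]
      exact mul_le_mul_of_nonneg_left hc (by positivity)
    calc (k.factorial : ℝ) ^ 2 * x ^ k ≤ (k.factorial : ℝ) ^ 2 * ((1 + ε) ^ k * 1) := by
          rw [mul_one]
          exact mul_le_mul_of_nonneg_left h6 (by positivity)
      _ ≤ (k.factorial : ℝ) ^ 2 * ((1 + ε) ^ k *
            (Nat.centralBinom k * ((1 + ε) ^ k / 4 ^ k))) := by gcongr
      _ = _ := by ring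
  · push Not at hc
    have h3 : k * F * ε ^ 2 ≤ 1 := by
      by_contra hcon
      push Not at hcon
      set q : ℕ := k / 4 with hq
      have hq1 : (k : ℝ) / 8 ≤ q := by
        have h4 : k ≤ 8 * q := by
          have : 8192 ≤ k := by exact_mod_cast hk8192
          omega
        have h5 : (k : ℝ) ≤ 8 * q := by exact_mod_cast h4
        linarith
      have h6 : (1 + q * ε) ≤ (1 + ε) ^ q := one_add_mul_le_pow (by linarith) q
      have h7 : (k : ℝ) / 8 * ε ≤ (1 + ε) ^ q := by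
        have : (k : ℝ) / 8 * ε ≤ q * ε := mul_le_mul_of_nonneg_right hq1 hε0.le
        linarith
      have h8 : ((k : ℝ) / 8 * ε) ^ 4 ≤ (1 + ε) ^ k := by
        refine (pow_le_pow_left₀ (by positivity) h7 4).trans ?_
        rw [← pow_mul]
        exact pow_le_pow_right₀ (by linarith) (by omega)
      have h9 : 1 < (k * F * ε ^ 2) ^ 2 := by nlinarith
      have h10 : (k : ℝ) ^ 2 < k ^ 4 * F ^ 2 * ε ^ 4 := by
        have : (k : ℝ) ^ 4 * F ^ 2 * ε ^ 4 = k ^ 2 * (k * F * ε ^ 2) ^ 2 := by ring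
        rw [this]
        have hk2 : (0 : ℝ) < k ^ 2 := by positivity
        nlinarith
      have h11 : (k : ℝ) ^ 4 * ε ^ 4 < 8192 * k := by
        have : ((k : ℝ) / 8 * ε) ^ 4 = k ^ 4 * ε ^ 4 / 4096 := by ring
        rw [this] at h8
        have := h8.trans_lt hc
        rw [div_lt_iff₀ (by norm_num)] at this
        linarith
      have h12 : (k : ℝ) ^ 4 * F ^ 2 * ε ^ 4 < 8192 * k * F ^ 2 := by
        have hF2 : 0 < F ^ 2 := by positivity
        calc (k : ℝ) ^ 4 * F ^ 2 * ε ^ 4 = (k ^ 4 * ε ^ 4) * F ^ 2 := by ring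
          _ < 8192 * k * F ^ 2 := mul_lt_mul_of_pos_right h11 hF2
      have h13 : 8192 * k * F ^ 2 ≤ k * k := by nlinarith
      nlinarith
    refine le_trans ?_ h1
    refine mul_le_mul_of_nonneg_left ?_ (by positivity)
    have hy0 : 0 ≤ k * F * ε ^ 2 := by positivity
    have h4 : x ^ k ≤ Real.exp (k * F * ε ^ 2) := by
      have h5 : x ≤ Real.exp (F * ε ^ 2) := by
        have := Real.add_one_le_exp (F * ε ^ 2)
        linarith
      refine (pow_le_pow_left₀ hx0 h5 k).trans_eq ?_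
      rw [← Real.exp_nat_mul]
      congr 1
      ring
    have h5 : Real.exp (k * F * ε ^ 2) ≤ 1 + 2 * (k * F * ε ^ 2) := by
      have h6 := Real.abs_exp_sub_one_sub_id_le (x := k * F * ε ^ 2)
        (by rw [abs_of_nonneg hy0]; exact h3)
      have h7 := (abs_le.1 h6).2
      nlinarith
    refine (h4.trans h5).trans ?_
    have h6 : 2 * F ≤ k := by nlinarith
    have h7 : 2 * F * (k * ε ^ 2) ≤ k * (k * ε ^ 2) :=
      mul_le_mul_of_nonneg_right h6 (by positivity)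
    linarith

section near

variable {ι : Type} [Fintype ι] [DecidableEq ι] {d : Type} [Fintype d] [DecidableEq d]

lemma N_eq_perm (b : ι → d → ℂ) :
    (N (∏ i, L (b i)) : ℂ) = ∑ σ : Equiv.Perm ι, ∏ i, ov (b (σ i)) (b i) := by
  rw [← ip_self, ← permanent_gram' b, Matrix.permanent]
  rfl

lemma ov_self {b : d → ℂ} (hb : ∑ c, ‖b c‖ ^ 2 = 1) : ov b b = 1 := by
  have : ov b b = ((∑ c, ‖b c‖ ^ 2 : ℝ) : ℂ) := by
    rw [ov]
    push_cast
    exact Finset.sum_congr rfl fun c _ => Complex.conj_mul' _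
  rw [this, hb, Complex.ofReal_one]

lemma N_le_near {b : ι → d → ℂ} (hb : ∀ i, ∑ c, ‖b i c‖ ^ 2 = 1) {ε : ℝ} (hε0 : 0 ≤ ε)
    (hε1 : ε ≤ 1) (hov : ∀ i j, i ≠ j → ‖ov (b i) (b j)‖ ≤ ε) :
    N (∏ i, L (b i)) ≤ 1 + (Fintype.card ι).factorial * ε ^ 2 := by
  have h1 : ∀ i j, ‖ov (b i) (b j)‖ ≤ 1 := by
    intro i j
    by_cases hij : i = j
    · subst hij
      rw [ov_self (hb i), norm_one]
    · exact (hov i j hij).trans hε1
  have h2 : ∀ σ : Equiv.Perm ι, σ ≠ 1 → ‖∏ i, ov (b (σ i)) (b i)‖ ≤ ε ^ 2 := by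
    intro σ hσ
    obtain ⟨i, hi⟩ : ∃ i, σ i ≠ i := by
      by_contra hcon
      push Not at hcon
      exact hσ (Equiv.ext hcon)
    set j := σ i with hj
    have hj2 : σ j ≠ j := by
      intro h
      rw [hj] at h
      exact hi (σ.injective h)
    have hij : j ≠ i := hi
    rw [norm_prod, ← Finset.mul_prod_erase _ _ (Finset.mem_univ i),
      ← Finset.mul_prod_erase (Finset.univ.erase i) (fun l => ‖ov (b (σ l)) (b l)‖)
        (Finset.mem_erase.2 ⟨hij, Finset.mem_univ j⟩)]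
    have h3 : ∏ l ∈ (Finset.univ.erase i).erase j, ‖ov (b (σ l)) (b l)‖ ≤ 1 :=
      Finset.prod_le_one (fun _ _ => norm_nonneg _) fun l _ => h1 _ _
    have h4 : ‖ov (b (σ i)) (b i)‖ ≤ ε := hov _ _ hi
    have h5 : ‖ov (b (σ j)) (b j)‖ ≤ ε := hov _ _ hj2
    calc ‖ov (b (σ i)) (b i)‖ * (‖ov (b (σ j)) (b j)‖ *
          ∏ l ∈ (Finset.univ.erase i).erase j, ‖ov (b (σ l)) (b l)‖) ≤ ε * (ε * 1) := by
          refine mul_le_mul h4 (mul_le_mul h5 h3 (Finset.prod_nonneg fun _ _ => norm_nonneg _) hε0)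
            (mul_nonneg (norm_nonneg _) (Finset.prod_nonneg fun _ _ => norm_nonneg _)) hε0
      _ = ε ^ 2 := by ring
  have h3 := congrArg Complex.re (N_eq_perm b)
  rw [Complex.ofReal_re, ← Finset.add_sum_erase _ _ (Finset.mem_univ (1 : Equiv.Perm ι)),
    Complex.add_re] at h3
  have h4 : (∏ i, ov (b ((1 : Equiv.Perm ι) i)) (b i)) = 1 :=
    Finset.prod_eq_one fun i _ => ov_self (hb i)
  rw [h4, Complex.one_re] at h3
  rw [h3]
  refine add_le_add le_rfl ?_
  refine (Complex.re_le_norm _).trans ((norm_sum_le _ _).trans ?_)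
  refine (Finset.sum_le_card_nsmul _ _ (ε ^ 2) fun σ hσ => h2 σ (Finset.ne_of_mem_erase hσ)).trans ?_
  rw [nsmul_eq_mul, Finset.card_erase_of_mem (Finset.mem_univ _), Finset.card_univ,
    Fintype.card_perm]
  refine mul_le_mul_of_nonneg_right ?_ (sq_nonneg _)
  exact_mod_cast Nat.sub_le _ _

/-- the nearly orthogonal case -/
lemma near_case {b : ι → d → ℂ} (hb : ∀ i, ∑ c, ‖b i c‖ ^ 2 = 1) {k : ℕ}
    (hk : 8192 * ((Fintype.card ι).factorial : ℝ) ^ 2 ≤ k)
    (hov : ∀ i j, i ≠ j → ((Fintype.card ι).factorial : ℝ) * ‖ov (b i) (b j)‖ ≤ 1) :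
    (k.factorial : ℝ) ^ Fintype.card ι * N (∏ i, L (b i)) ^ k ≤ N ((∏ i, L (b i)) ^ k) := by
  have hF : (1 : ℝ) ≤ (Fintype.card ι).factorial := by
    exact_mod_cast Nat.succ_le_of_lt (Nat.factorial_pos _)
  by_cases hall : ∀ i j, i ≠ j → ov (b i) (b j) = 0
  · have h1 : N (∏ i, L (b i)) ≤ 1 := by
      have := N_le_near hb (le_refl 0) zero_le_one (fun i j hij => by
        rw [hall i j hij, norm_zero])
      simpa using this
    have h2 : N (∏ i, L (b i)) ^ k ≤ 1 := pow_le_one₀ (N_nonneg _) h1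
    calc (k.factorial : ℝ) ^ Fintype.card ι * N (∏ i, L (b i)) ^ k
        ≤ (k.factorial : ℝ) ^ Fintype.card ι * 1 := mul_le_mul_of_nonneg_left h2 (by positivity)
      _ ≤ _ := by rw [mul_one]; exact N_pow_one hb k
  · push Not at hall
    obtain ⟨i₀, j₀, hij₀, hne₀⟩ := hall
    have hne : (Finset.univ.filter fun p : ι × ι => p.1 ≠ p.2).Nonempty :=
      ⟨(i₀, j₀), by simpa using hij₀⟩
    obtain ⟨p, hp, hmax⟩ := Finset.exists_max_image _
      (fun p : ι × ι => ‖ov (b p.1) (b p.2)‖) hne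
    rw [Finset.mem_filter] at hp
    set ε : ℝ := ‖ov (b p.1) (b p.2)‖ with hε
    have hov2 : ∀ i j, i ≠ j → ‖ov (b i) (b j)‖ ≤ ε := fun i j hij =>
      hmax (i, j) (by simpa using hij)
    have hε0 : 0 < ε := lt_of_lt_of_le (norm_pos_iff.2 hne₀) (hov2 i₀ j₀ hij₀)
    have hFε : ((Fintype.card ι).factorial : ℝ) * ε ≤ 1 := hov _ _ hp.2
    have hε1 : ε ≤ 1 := by nlinarith
    have hx := N_le_near hb hε0.le hε1 hov2
    refine N_pow_two hb k hp.2 ?_
    exact small_case hF hε0 hFε (N_nonneg _) hx hk (two_ge1 (hb _) (hb _) k)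
      (two_ge2 (hb _) (hb _) (norm_pos_iff.1 hε0) k)

end near

/-- The inequality for unit independent vectors and large `k`. -/
theorem eventually_unit (m : ℕ) (hm : 0 < m) :
    ∃ k₀ : ℕ, ∀ k : ℕ, k₀ ≤ k → ∀ b : Fin m → Fin m → ℂ, Indep b →
      (∀ i, ∑ c, ‖b i c‖ ^ 2 = 1) →
      (k.factorial : ℝ) ^ m * N (∏ i, L (b i)) ^ k ≤ N ((∏ i, L (b i)) ^ k) := by
  have : Nonempty (Fin m) := ⟨⟨0, hm⟩⟩
  have hF : (0 : ℝ) < (m.factorial : ℝ) := by exact_mod_cast Nat.factorial_pos _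
  set ε₀ : ℝ := 1 / (m.factorial : ℝ) with hε₀
  have hε₀0 : 0 < ε₀ := by positivity
  set β : ℝ := Real.log (1 + ε₀ ^ 2) with hβ
  have hβ0 : 0 < β := Real.log_pos (by have : 0 < ε₀ ^ 2 := by positivity
                                       linarith)
  obtain ⟨s, hs0, hs1, hs⟩ := exists_s m (η := β / 2) (by positivity)
  set r : ℝ := 1 - s * (1 - Real.exp (-(β / 2 * s))) with hr
  have hexp0 : 0 < Real.exp (-(β / 2 * s)) := Real.exp_pos _
  have hexp1 : Real.exp (-(β / 2 * s)) < 1 := by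
    rw [Real.exp_lt_one_iff]
    have : 0 < β / 2 * s := by positivity
    linarith
  have hr1 : r < 1 := by
    rw [hr]
    have : 0 < s * (1 - Real.exp (-(β / 2 * s))) := mul_pos hs0 (by linarith)
    linarith
  have hr0 : 0 < r := by
    rw [hr]
    nlinarith
  have hlim := tendsto_pow_const_mul_const_pow_of_abs_lt_one m (r := r) (by
    rw [abs_of_pos hr0]; exact hr1)
  have hlim2 := hlim.const_mul (Real.exp 1 ^ m)
  rw [mul_zero] at hlim2
  obtain ⟨k₂, hk₂⟩ := eventually_atTop.1 (hlim2.eventually_le_const zero_lt_one)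
  obtain ⟨k₁, hk₁⟩ := exists_nat_ge (8192 * (m.factorial : ℝ) ^ 2)
  refine ⟨max (max k₁ k₂) 1, fun k hk b hb hunit => ?_⟩
  have hkk1 : k₁ ≤ k := (le_max_left _ _).trans ((le_max_left _ _).trans hk)
  have hkk2 : k₂ ≤ k := (le_max_right _ _).trans ((le_max_left _ _).trans hk)
  have hkk3 : 1 ≤ k := (le_max_right _ _).trans hk
  have hcard : Fintype.card (Fin m) = m := Fintype.card_fin m
  by_cases hcase : ∀ i j, i ≠ j → (m.factorial : ℝ) * ‖ov (b i) (b j)‖ ≤ 1
  · have h1 := near_case hunit (k := k) (by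
      rw [hcard]
      refine hk₁.trans ?_
      exact_mod_cast hkk1) (by rwa [hcard])
    rwa [hcard] at h1
  · push Not at hcase
    obtain ⟨i, j, hij, hgt⟩ := hcase
    have hov : ε₀ ≤ ‖ov (b i) (b j)‖ := by
      rw [hε₀, div_le_iff₀ hF]
      linarith
    have hN : Real.exp β ≤ N (∏ i, L (b i)) := by
      have h1 := N_pow_two hunit 1 hij (two_ge1 (hunit i) (hunit j) 1)
      rw [pow_one, Nat.factorial_one] at h1
      simp only [Nat.cast_one, one_pow, one_mul] at h1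
      refine le_trans ?_ h1
      rw [hβ, Real.exp_log (by positivity)]
      have : ε₀ ^ 2 ≤ ‖ov (b i) (b j)‖ ^ 2 := pow_le_pow_left₀ hε₀0.le hov 2
      linarith
    obtain ⟨w, hw, hmax⟩ := exists_max b
    set Q : ℝ := ∏ j, ‖zz b j w‖ ^ 2 with hQ
    have hQ0 : 0 ≤ Q := Finset.prod_nonneg fun _ _ => sq_nonneg _
    have h2 := N_le_gap hb hunit hQ0 hmax hs0 hs1 (β := β) (by rwa [hcard]) hN
    rw [hcard, ← hr] at h2
    have h3 := N_pow_ge b hw k
    rw [hcard, ← hQ] at h3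
    have h4 : N (∏ i, L (b i)) ^ k ≤ (r * ((m : ℝ) ^ m * Q)) ^ k :=
      pow_le_pow_left₀ (N_nonneg _) h2 k
    have h5 := factorial_pow_le m k hkk3
    have h6 := hk₂ k hkk2
    calc (k.factorial : ℝ) ^ m * N (∏ i, L (b i)) ^ k
        ≤ (k.factorial : ℝ) ^ m * (r * ((m : ℝ) ^ m * Q)) ^ k :=
          mul_le_mul_of_nonneg_left h4 (by positivity)
      _ = ((k.factorial : ℝ) ^ m * (m : ℝ) ^ (m * k)) * (r ^ k * Q ^ k) := by
          rw [mul_pow, mul_pow, ← pow_mul]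
          ring
      _ ≤ ((Real.exp 1 * k) ^ m * (m * k).factorial) * (r ^ k * Q ^ k) :=
          mul_le_mul_of_nonneg_right h5 (by positivity)
      _ = (Real.exp 1 ^ m * ((k : ℝ) ^ m * r ^ k)) * ((m * k).factorial * Q ^ k) := by
          rw [mul_pow]
          ring
      _ ≤ 1 * ((m * k).factorial * Q ^ k) :=
          mul_le_mul_of_nonneg_right h6 (by positivity)
      _ ≤ _ := by rw [one_mul]; exact h3

end Pool.Agent.Work.MP_8d2b2d_co.PL
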