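import Pool.Agent.Work.MP_8d2b2d_co.PL.Half

/-!
# The quantitative gap
-/

set_option autoImplicit false
set_option linter.unusedSectionVars false

namespace Pool.Agent.Work.MP_8d2b2d_co.PL

open MeasureTheory Matrix Finset ProbabilityTheory Filter
open scoped Topology

/-- Schwarz lemma for functions with non-negative real part in the right half plane. -/
theorem schwarz_half {f : ℂ → ℂ} (hf : ∀ z : ℂ, 0 < z.re → DifferentiableAt ℂ f z)
    (hre : ∀ z : ℂ, 0 < z.re → 0 ≤ (f z).re) {s : ℝ} (hs0 : 0 < s) (hs1 : s < 1)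
    (h1 : (f 1).im = 0) (hs : (f s).im = 0) : s * (f s).re ≤ (f 1).re := by
  refine le_of_forall_pos_le_add fun ε hε => ?_
  set u : ℝ := (f 1).re + ε with hu
  have h1re : 0 ≤ (f 1).re := hre 1 (by simp)
  have hu0 : 0 < u := by linarith
  set φ : ℂ → ℂ := fun w => (1 + w) / (1 - w) with hφ
  set g : ℂ → ℂ := fun w => (f (φ w) + ε - u) / (f (φ w) + ε + u) with hg
  have hne : ∀ w ∈ Metric.ball (0 : ℂ) 1, (1 : ℂ) - w ≠ 0 := by
    intro w hw h
    rw [mem_ball_zero_iff] at hw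
    have : w = 1 := (sub_eq_zero.1 h).symm
    rw [this, norm_one] at hw
    exact lt_irrefl _ hw
  have hφre : ∀ w ∈ Metric.ball (0 : ℂ) 1, 0 < (φ w).re := by
    intro w hw
    have hw1 := hne w hw
    rw [mem_ball_zero_iff] at hw
    have h2 : φ w = ((1 + w) * (starRingEnd ℂ) (1 - w)) / ((Complex.normSq (1 - w) : ℝ) : ℂ) := by
      simp only [hφ]
      rw [Complex.normSq_eq_conj_mul_self, mul_comm (starRingEnd ℂ (1 - w)) (1 - w)]
      rw [mul_div_mul_right _ _ ((map_ne_zero _).2 hw1)]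
    rw [h2, Complex.div_ofReal_re]
    refine div_pos ?_ (Complex.normSq_pos.2 hw1)
    have h3 : ((1 + w) * (starRingEnd ℂ) (1 - w)).re = 1 - Complex.normSq w := by
      simp only [map_sub, map_one, Complex.mul_re, Complex.add_re, Complex.one_re, Complex.sub_re,
        Complex.conj_re, Complex.add_im, Complex.one_im, Complex.sub_im, Complex.conj_im,
        Complex.normSq_apply]
      ring
    rw [h3, Complex.normSq_eq_norm_sq]
    nlinarith [norm_nonneg w]
  have hden : ∀ w ∈ Metric.ball (0 : ℂ) 1, f (φ w) + ε + u ≠ 0 := by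
    intro w hw h
    have h2 := congrArg Complex.re h
    simp only [Complex.add_re, Complex.ofReal_re, Complex.zero_re] at h2
    have := hre _ (hφre w hw)
    linarith
  have hgd : DifferentiableOn ℂ g (Metric.ball 0 1) := by
    intro w hw
    have h2 : DifferentiableAt ℂ φ w := by
      simp only [hφ]
      exact DifferentiableAt.div (by fun_prop) (by fun_prop) (hne w hw)
    have h3 : DifferentiableAt ℂ (fun w => f (φ w)) w := (hf _ (hφre w hw)).comp w h2
    refine DifferentiableAt.differentiableWithinAt ?_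
    exact DifferentiableAt.div ((h3.add_const _).sub_const _) ((h3.add_const _).add_const _)
      (hden w hw)
  have hgm : Set.MapsTo g (Metric.ball 0 1) (Metric.closedBall 0 1) := by
    intro w hw
    rw [mem_closedBall_zero_iff]
    simp only [hg]
    rw [norm_div, div_le_one (norm_pos_iff.2 (hden w hw))]
    have h2 := hre _ (hφre w hw)
    refine (sq_le_sq₀ (norm_nonneg _) (norm_nonneg _)).1 ?_
    rw [← Complex.normSq_eq_norm_sq, ← Complex.normSq_eq_norm_sq, Complex.normSq_apply,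
      Complex.normSq_apply]
    simp only [Complex.add_re, Complex.sub_re, Complex.ofReal_re, Complex.add_im, Complex.sub_im,
      Complex.ofReal_im]
    nlinarith [mul_nonneg (by linarith : 0 ≤ (f (φ w)).re + ε) hu0.le]
  have hg0 : g 0 = 0 := by
    simp only [hg, hφ]
    have h2 : (1 + (0 : ℂ)) / (1 - 0) = 1 := by norm_num
    rw [h2]
    have h3 : f 1 = ((f 1).re : ℂ) := by
      apply Complex.ext
      · simp
      · rw [h1]; simp
    have h4 : f 1 + ε - u = 0 := by
      rw [hu, h3]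
      push_cast
      simp
    rw [h4, zero_div]
  set w : ℂ := (((s - 1) / (s + 1) : ℝ) : ℂ) with hw
  have hwn : ‖w‖ = (1 - s) / (1 + s) := by
    rw [hw, Complex.norm_real, Real.norm_eq_abs, abs_div, abs_of_pos (by linarith : 0 < s + 1),
      abs_of_neg (by linarith)]
    rw [neg_sub, add_comm s 1]
  have hw1 : ‖w‖ < 1 := by
    rw [hwn, div_lt_one (by linarith)]
    linarith
  have hschw := Complex.norm_le_norm_of_mapsTo_ball hgd hgm hg0 hw1
  have hφw : φ w = s := by
    simp only [hφ, hw]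
    have h2 : (s : ℂ) + 1 ≠ 0 := by
      intro h
      have := congrArg Complex.re h
      simp at this
      linarith
    push_cast
    rw [div_eq_iff]
    · field_simp
      ring
    · intro h
      have h3 : ((s : ℂ) - 1) / (s + 1) = 1 := (sub_eq_zero.1 h).symm
      rw [div_eq_one_iff_eq h2] at h3
      have := congrArg Complex.re h3
      simp at this
      linarith
  set x : ℝ := (f s).re + ε with hx
  have hx0 : 0 < x := by
    have := hre s (by simpa using hs0)
    linarith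
  have hgw : g w = (((x - u) / (x + u) : ℝ) : ℂ) := by
    simp only [hg]
    rw [hφw]
    have h3 : f s = ((f s).re : ℂ) := by
      apply Complex.ext
      · simp
      · rw [hs]; simp
    rw [h3, hx]
    push_cast
    rfl
  rw [hgw, hwn, Complex.norm_real, Real.norm_eq_abs] at hschw
  have h5 := (abs_le.1 hschw).2
  rw [div_le_div_iff₀ (by linarith) (by linarith)] at h5
  have h6 : s * x ≤ u := by nlinarith
  rw [hx, hu] at h6
  nlinarith

/-- real moments of the standard Gaussian -/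
lemma integral_abs_rpow {y : ℝ} (hy : -1 / 2 < y) :
    ∫ x, |x| ^ (2 * y) ∂(gaussianReal 0 1) = cr y := by
  have h1 := g1_eq (z := (y : ℂ)) (by simpa using hy)
  rw [cc_ofReal, g1] at h1
  have h2 : ∀ x : ℝ, ((|x| : ℝ) : ℂ) ^ (2 * (y : ℂ)) = ((|x| ^ (2 * y) : ℝ) : ℂ) := by
    intro x
    rw [Complex.ofReal_cpow (abs_nonneg _)]
    push_cast
    rfl
  simp only [h2] at h1
  rw [integral_complex_ofReal] at h1
  exact_mod_cast h1

lemma cr_differentiableAt {x : ℝ} (hx : -1 / 2 < x) : DifferentiableAt ℝ cr x := by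
  have h1 : DifferentiableAt ℝ (fun y : ℝ => (2 : ℝ) ^ y) x := by
    have h2 : (fun y : ℝ => (2 : ℝ) ^ y) = fun y => Real.exp (Real.log 2 * y) := by
      funext y
      rw [Real.rpow_def_of_pos (by norm_num)]
    rw [h2]
    fun_prop
  have h3 : DifferentiableAt ℝ Real.Gamma ((fun y : ℝ => y + 1 / 2) x) := by
    refine Real.differentiableAt_Gamma fun m hm => ?_
    have hm0 : (0 : ℝ) ≤ m := Nat.cast_nonneg m
    have hm' : x + 1 / 2 = -(m : ℝ) := hm
    linarith
  have h4 : DifferentiableAt ℝ (fun y : ℝ => Real.Gamma (y + 1 / 2)) x :=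
    DifferentiableAt.comp (g := Real.Gamma) (f := fun y : ℝ => y + 1 / 2) x h3 (by fun_prop)
  exact (h1.mul h4).div_const _

/-- the choice of `s` -/
theorem exists_s (n : ℕ) {η : ℝ} (hη : 0 < η) :
    ∃ s : ℝ, 0 < s ∧ s < 1 ∧ cr (n * s) ≤ cr s ^ n * Real.exp (η * s) := by
  set L : ℝ → ℝ := fun s => Real.log (cr (n * s)) - n * Real.log (cr s) with hL
  have hcr0 := cr_differentiableAt (x := 0) (by norm_num)
  obtain ⟨d, hd⟩ : ∃ d, HasDerivAt cr d 0 := ⟨_, hcr0.hasDerivAt⟩
  have h1 : HasDerivAt L 0 0 := by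
    have h2 : HasDerivAt (fun s : ℝ => cr (n * s)) (d * n) 0 := by
      have h3 : HasDerivAt (fun s : ℝ => (n : ℝ) * s) n 0 := by
        simpa using (hasDerivAt_id (0 : ℝ)).const_mul (n : ℝ)
      have h4 : HasDerivAt cr d ((fun s : ℝ => (n : ℝ) * s) 0) := by
        simpa using hd
      exact h4.comp (0 : ℝ) h3
    have h5 : HasDerivAt (fun s : ℝ => Real.log (cr (n * s))) (d * n / cr (n * 0)) 0 :=
      h2.log (by rw [mul_zero, cr_zero]; exact one_ne_zero)
    have h6 : HasDerivAt (fun s : ℝ => (n : ℝ) * Real.log (cr s)) (n * (d / cr 0)) 0 :=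
      (hd.log (by rw [cr_zero]; exact one_ne_zero)).const_mul _
    refine (h5.sub h6).congr_deriv ?_
    rw [mul_zero, cr_zero]
    ring
  have hL0 : L 0 = 0 := by
    simp only [hL]
    rw [mul_zero, cr_zero, Real.log_one]
    ring
  have h2 := h1.isLittleO.def hη
  simp only [sub_zero, smul_zero, hL0, Real.norm_eq_abs] at h2
  have h3 : ∀ᶠ s in 𝓝[>] (0 : ℝ), |L s| ≤ η * |s| := h2.filter_mono nhdsWithin_le_nhds
  have h4 : ∀ᶠ s in 𝓝[>] (0 : ℝ), s < 1 :=
    mem_nhdsWithin_of_mem_nhds (Iio_mem_nhds zero_lt_one)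
  obtain ⟨s, hs1, hs2, hs3⟩ := (h3.and (h4.and self_mem_nhdsWithin)).exists
  have hs0 : 0 < s := hs3
  refine ⟨s, hs0, hs2, ?_⟩
  have hn0 : (0 : ℝ) ≤ n := Nat.cast_nonneg n
  have hc1 := cr_pos (x := n * s) (by nlinarith [mul_nonneg hn0 hs0.le])
  have hc2 := cr_pos (x := s) (by linarith)
  have h5 : L s ≤ η * s := by
    have := (abs_le.1 hs1).2
    rwa [abs_of_pos hs0] at this
  have h6 : Real.log (cr (n * s)) ≤ n * Real.log (cr s) + η * s := by
    simp only [hL] at h5
    linarith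
  calc cr (n * s) = Real.exp (Real.log (cr (n * s))) := (Real.exp_log hc1).symm
    _ ≤ Real.exp (n * Real.log (cr s) + η * s) := Real.exp_le_exp.2 h6
    _ = _ := by
        rw [Real.exp_add, Real.exp_nat_mul, Real.exp_log hc2]

variable {ι : Type*} [Fintype ι] [DecidableEq ι] {Ω : Type*} [MeasurableSpace Ω]
  {κ : Type*} [Fintype κ] [Nonempty κ]

namespace GV

variable {P : Measure Ω} {X : ι → Ω → ℝ} {C : Matrix ι ι ℝ}

lemma mgf_le_cr [Nonempty ι] (h : GV P X C) (h1 : ∀ i, C i i = 1) {s : ℝ} (hs : 0 ≤ s) :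
    mgf (YY X) P s ≤ cr (Fintype.card ι * s) := by
  have hn : (0 : ℝ) < Fintype.card ι := by exact_mod_cast Fintype.card_pos
  have hns : (0 : ℝ) ≤ Fintype.card ι * (2 * s) := by positivity
  rw [h.mgf_eq]
  have h2 : ∫ ω, ∏ i, |X i ω| ^ (2 * s) ∂P ≤ ∫ ω, (Fintype.card ι : ℝ)⁻¹ *
      ∑ i, |X i ω| ^ (Fintype.card ι * (2 * s)) ∂P := by
    refine integral_mono_ae (h.integrable_prod (by linarith))
      ((integrable_finsetSum _ fun i _ => h.integrable_abs i (by linarith)).const_mul _) ?_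
    filter_upwards [h.ne_zero_all] with ω hω
    exact prod_rpow_le (fun i => abs_pos.2 (hω i)) (2 * s)
  refine h2.trans_eq ?_
  rw [integral_const_mul, integral_finsetSum _ fun i _ => h.integrable_abs i (by linarith)]
  have h3 : ∀ i, ∫ ω, |X i ω| ^ (Fintype.card ι * (2 * s)) ∂P = cr (Fintype.card ι * s) := by
    intro i
    rw [h.moment i (h1 i), ← integral_abs_rpow (y := Fintype.card ι * s)
      (by nlinarith [mul_nonneg hn.le hs])]
    congr 1
    funext x
    congr 1
    ring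
  simp only [h3]
  rw [Finset.sum_const, Finset.card_univ, nsmul_eq_mul, ← mul_assoc, inv_mul_cancel₀ hn.ne',
    one_mul]

end GV

/-- The averaged bound with the gap. -/
theorem gap [Nonempty ι] {P : Measure Ω} {X : κ → ι → Ω → ℝ} {C : κ → Matrix ι ι ℝ} {ρ : Ω → ℝ}
    {Q : ℝ} (hG : ∀ t, GV P (X t) (C t)) (hd : ∀ t, Dom P (X t) ρ Q) {s : ℝ} (hs0 : 0 < s)
    (hs1 : s < 1) {b : ℝ} (hC : ∀ t i, C t i i = 1)
    (hs : cr (Fintype.card ι * s) ≤ cr s ^ Fintype.card ι * Real.exp (b / 2 * s))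
    (hW : Real.exp b ≤ (Fintype.card ι : ℝ) ^ Fintype.card ι * Q) :
    (Fintype.card κ : ℝ)⁻¹ * ∑ t, ∫ ω, ∏ i, X t i ω ^ 2 ∂P ≤
      (1 - s * (1 - Real.exp (-(b / 2 * s)))) *
        ((Fintype.card ι : ℝ) ^ Fintype.card ι * Q) := by
  have hn : (0 : ℝ) < Fintype.card ι := by exact_mod_cast Fintype.card_pos
  have hk : (0 : ℝ) < Fintype.card κ := by exact_mod_cast Fintype.card_pos
  obtain ⟨t₀⟩ := ‹Nonempty κ›
  set W : ℝ := (Fintype.card ι : ℝ) ^ Fintype.card ι * Q with hWdef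
  have hQ := (hd t₀).pos
  have hW0 : 0 < W := by positivity
  set f : ℂ → ℂ := fun z => 1 - ((Fintype.card κ : ℝ)⁻¹ : ℂ) * ∑ t, GV.aux P (X t) W z with hf
  have hfd : ∀ z : ℂ, 0 < z.re → DifferentiableAt ℂ f z := by
    intro z hz
    simp only [hf]
    refine DifferentiableAt.sub (by fun_prop) (DifferentiableAt.mul (by fun_prop) ?_)
    exact DifferentiableAt.fun_sum fun t _ => (hG t).aux_diff W hz.le
  have haux1 : ∀ t, ∀ z : ℂ, 0 ≤ z.re → ‖GV.aux P (X t) W z‖ ≤ 1 := by
    intro t z hz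
    have hcc : 0 < ‖cc z‖ ^ Fintype.card ι :=
      pow_pos (norm_pos_iff.2 (cc_ne_zero (by linarith))) _
    rw [GV.norm_aux W hW0, div_le_one (by positivity)]
    exact (hG t).half (hd t) hz
  have hfre : ∀ z : ℂ, 0 < z.re → 0 ≤ (f z).re := by
    intro z hz
    have h1 : ‖((Fintype.card κ : ℝ)⁻¹ : ℂ) * ∑ t, GV.aux P (X t) W z‖ ≤ 1 := by
      rw [norm_mul]
      have h2 : ‖∑ t, GV.aux P (X t) W z‖ ≤ Fintype.card κ := by
        refine (norm_sum_le _ _).trans ?_
        refine (Finset.sum_le_card_nsmul _ _ 1 fun t _ => haux1 t z hz.le).trans_eq ?_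
        rw [Finset.card_univ, nsmul_eq_mul, mul_one]
      have h3 : ‖((Fintype.card κ : ℝ)⁻¹ : ℂ)‖ = (Fintype.card κ : ℝ)⁻¹ := by
        rw [norm_inv, Complex.norm_real, Real.norm_of_nonneg hk.le]
      rw [h3, inv_mul_le_one₀ hk]
      exact h2
    simp only [hf, Complex.sub_re, Complex.one_re]
    have h4 := (Complex.re_le_norm (((Fintype.card κ : ℝ)⁻¹ : ℂ) *
      ∑ t, GV.aux P (X t) W z)).trans h1
    linarith
  have haux2 : ∀ t, ∀ x : ℝ, 0 ≤ x → GV.aux P (X t) W x =
      ((mgf (YY (X t)) P x / (cr x ^ Fintype.card ι * W ^ x) : ℝ) : ℂ) := by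
    intro t x hx
    have h1 : Complex.exp ((x : ℂ) * (Real.log W : ℂ)) = ((W ^ x : ℝ) : ℂ) := by
      rw [Real.rpow_def_of_pos hW0, mul_comm]
      push_cast
      rfl
    rw [GV.aux, FF, complexMGF_ofReal, cc_ofReal, h1]
    push_cast
    rfl
  have hfreal : ∀ x : ℝ, 0 ≤ x → f x = ((1 - (Fintype.card κ : ℝ)⁻¹ *
      ∑ t, mgf (YY (X t)) P x / (cr x ^ Fintype.card ι * W ^ x) : ℝ) : ℂ) := by
    intro x hx
    simp only [hf]
    rw [Finset.sum_congr rfl fun t _ => haux2 t x hx]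
    push_cast
    rfl
  have hf1 := hfreal 1 zero_le_one
  have hfs := hfreal s hs0.le
  have hsch := schwarz_half hfd hfre hs0 hs1 (by rw [← Complex.ofReal_one, hf1, Complex.ofReal_im])
    (by rw [hfs, Complex.ofReal_im])
  rw [← Complex.ofReal_one, hf1, hfs, Complex.ofReal_re, Complex.ofReal_re] at hsch
  -- the value at `s`
  have hB : (Fintype.card κ : ℝ)⁻¹ *
      ∑ t, mgf (YY (X t)) P s / (cr s ^ Fintype.card ι * W ^ s) ≤ Real.exp (-(b / 2 * s)) := by
    have h1 : ∀ t, mgf (YY (X t)) P s / (cr s ^ Fintype.card ι * W ^ s) ≤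
        Real.exp (-(b / 2 * s)) := by
      intro t
      have hcs := cr_pos (x := s) (by linarith)
      rw [div_le_iff₀ (by positivity)]
      have h2 := (hG t).mgf_le_cr (hC t) hs0.le
      have h3 : Real.exp (b * s) ≤ W ^ s := by
        rw [Real.exp_mul]
        exact Real.rpow_le_rpow (Real.exp_pos _).le hW hs0.le
      calc mgf (YY (X t)) P s ≤ cr s ^ Fintype.card ι * Real.exp (b / 2 * s) := h2.trans hs
        _ = Real.exp (-(b / 2 * s)) * (cr s ^ Fintype.card ι * Real.exp (b * s)) := by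
            have : Real.exp (b / 2 * s) = Real.exp (-(b / 2 * s)) * Real.exp (b * s) := by
              rw [← Real.exp_add]; congr 1; ring
            rw [this]; ring
        _ ≤ _ := by gcongr
    have h4 := Finset.sum_le_card_nsmul Finset.univ _ _ fun t _ => h1 t
    rw [Finset.card_univ, nsmul_eq_mul] at h4
    calc (Fintype.card κ : ℝ)⁻¹ *
        ∑ t, mgf (YY (X t)) P s / (cr s ^ Fintype.card ι * W ^ s)
        ≤ (Fintype.card κ : ℝ)⁻¹ * (Fintype.card κ * Real.exp (-(b / 2 * s))) :=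
          mul_le_mul_of_nonneg_left h4 (by positivity)
      _ = _ := by field_simp
  have h1v : (Fintype.card κ : ℝ)⁻¹ *
      ∑ t, mgf (YY (X t)) P 1 / (cr 1 ^ Fintype.card ι * W ^ (1 : ℝ)) =
      ((Fintype.card κ : ℝ)⁻¹ * ∑ t, ∫ ω, ∏ i, X t i ω ^ 2 ∂P) / W := by
    rw [cr_one, one_pow, one_mul, Real.rpow_one, ← Finset.sum_div, mul_div_assoc]
    congr 3
    funext t
    rw [(hG t).mgf_eq]
    congr 1
    funext ω
    refine Finset.prod_congr rfl fun i _ => ?_
    rw [mul_one, Real.rpow_two, sq_abs]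
  rw [h1v] at hsch
  have h5 : s * (1 - Real.exp (-(b / 2 * s))) ≤
      1 - ((Fintype.card κ : ℝ)⁻¹ * ∑ t, ∫ ω, ∏ i, X t i ω ^ 2 ∂P) / W := by
    refine le_trans ?_ hsch
    exact mul_le_mul_of_nonneg_left (by linarith) hs0.le
  have h6 : ((Fintype.card κ : ℝ)⁻¹ * ∑ t, ∫ ω, ∏ i, X t i ω ^ 2 ∂P) / W ≤
      1 - s * (1 - Real.exp (-(b / 2 * s))) := by linarith
  rwa [div_le_iff₀ hW0] at h6

/-- The averaged bound without the gap. -/
theorem nogap [Nonempty ι] {P : Measure Ω} {X : ι → Ω → ℝ} {C : Matrix ι ι ℝ} {ρ : Ω → ℝ}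
    {Q : ℝ} (hG : GV P X C) (hd : Dom P X ρ Q) :
    ∫ ω, ∏ i, X i ω ^ 2 ∂P ≤ (Fintype.card ι : ℝ) ^ Fintype.card ι * Q := by
  have h1 := hG.half hd (z := ((1 : ℝ) : ℂ)) (by simp)
  rw [GV.norm_FF_ofReal, GV.norm_cc_ofReal zero_le_one, cr_one, one_pow, one_mul,
    Complex.ofReal_re, Real.rpow_one, hG.mgf_eq] at h1
  refine le_trans (le_of_eq ?_) h1
  congr 1
  funext ω
  refine Finset.prod_congr rfl fun i _ => ?_
  rw [mul_one, Real.rpow_two, sq_abs]

end Pool.Agent.Work.MP_8d2b2d_co.PL
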