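import Pool.Agent.Work.MP_8d2b2d_co.PL.CG2
import Pool.Agent.Work.MP_8d2b2d_co.PL.Gap
import Pool.Agent.Work.MP_8d2b2d_co.Pate3

/-!
# The reproducing kernel bound and the comparison with the maximum
-/

set_option autoImplicit false
set_option linter.unusedSectionVars false

namespace Pool.Agent.Work.MP_8d2b2d_co.PL

open MeasureTheory ProbabilityTheory Matrix
open MvPolynomial (X C monomial eval pderiv)
open scoped Real

section fock

variable {d : Type} [Fintype d] [DecidableEq d]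

lemma homog_dL {p : MvPolynomial d ℂ} {n : ℕ} (hp : p.IsHomogeneous (n + 1)) (a : d → ℂ) :
    (dL a p).IsHomogeneous n := by
  rw [dL_apply]
  refine MvPolynomial.IsHomogeneous.sum _ _ _ fun c _ => ?_
  have h1 : (pderiv c p).IsHomogeneous n := by
    have := hp.pderiv (i := c)
    simpa using this
  have := (MvPolynomial.isHomogeneous_C d ((starRingEnd ℂ) (a c))).mul h1
  simpa using this

lemma homog_zero {p : MvPolynomial d ℂ} (hp : p.IsHomogeneous 0) : p = C (p.coeff 0) := by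
  ext α
  rw [MvPolynomial.coeff_C]
  by_cases h : 0 = α
  · rw [if_pos h, h]
  · rw [if_neg h]
    refine hp.coeff_eq_zero ?_
    intro h0
    apply h
    rw [Finsupp.degree_eq_zero_iff] at h0
    exact h0.symm

lemma ip_L_pow (a : d → ℂ) (D : ℕ) : ∀ p : MvPolynomial d ℂ, p.IsHomogeneous D →
    ip (L a ^ D) p = D.factorial * eval (fun c => (starRingEnd ℂ) (a c)) p := by
  induction D with
  | zero =>
    intro p hp
    rw [homog_zero hp, pow_zero, Nat.factorial_zero, Nat.cast_one, one_mul, MvPolynomial.eval_C]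
    have h1 := ip_C_mul_right (p.coeff 0) (1 : MvPolynomial d ℂ) 1
    rw [mul_one, ip_self, N_one] at h1
    simpa using h1
  | succ D ih =>
    intro p hp
    rw [pow_succ', ip_L_mul, ih _ (homog_dL hp a)]
    have h1 : eval (fun c => (starRingEnd ℂ) (a c)) (dL a p) =
        (D + 1 : ℂ) * eval (fun c => (starRingEnd ℂ) (a c)) p := by
      have h2 := congrArg (eval (fun c => (starRingEnd ℂ) (a c))) hp.sum_X_mul_pderiv
      rw [map_sum, nsmul_eq_mul, map_mul, map_natCast] at h2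
      rw [dL_apply, map_sum]
      push_cast at h2
      rw [← h2]
      refine Finset.sum_congr rfl fun c _ => ?_
      rw [map_mul, map_mul, MvPolynomial.eval_C, MvPolynomial.eval_X]
    rw [h1, Nat.factorial_succ]
    push_cast
    ring

lemma homog_L_pow (a : d → ℂ) (D : ℕ) : (L a ^ D).IsHomogeneous D := by
  have := (isHomogeneous_L a).pow D
  simpa using this

lemma N_L_pow (a : d → ℂ) (D : ℕ) :
    N (L a ^ D) = D.factorial * (∑ c, ‖a c‖ ^ 2) ^ D := by
  have h := ip_L_pow a D _ (homog_L_pow a D)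
  rw [ip_self, map_pow, eval_L] at h
  have h1 : ∑ c, a c * (starRingEnd ℂ) (a c) = ((∑ c, ‖a c‖ ^ 2 : ℝ) : ℂ) := by
    push_cast
    refine Finset.sum_congr rfl fun c _ => ?_
    rw [Complex.mul_conj']
  rw [h1] at h
  exact_mod_cast h

lemma N_C_mul (u : ℂ) (p : MvPolynomial d ℂ) : N (C u * p) = ‖u‖ ^ 2 * N p := by
  have h : ip (C u * p) (C u * p) = ((‖u‖ ^ 2 * N p : ℝ) : ℂ) := by
    rw [ip_C_mul_left, ip_C_mul_right, ip_self, ← mul_assoc, Complex.conj_mul']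
    push_cast
    rfl
  rw [N, h, Complex.ofReal_re]

/-- Cauchy-Schwarz -/
lemma norm_ip_sq_le (p q : MvPolynomial d ℂ) : ‖ip p q‖ ^ 2 ≤ N p * N q := by
  by_cases h0 : ip p q = 0
  · rw [h0, norm_zero]
    have := mul_nonneg (N_nonneg p) (N_nonneg q)
    simpa using this
  set u : ℂ := (ip p q) / ‖ip p q‖ with hu
  have hn : (‖ip p q‖ : ℂ) ≠ 0 := by
    rw [Ne, Complex.ofReal_eq_zero, norm_eq_zero]
    exact h0
  have hun : ‖u‖ = 1 := by
    rw [hu, norm_div, Complex.norm_real, norm_norm, div_self (norm_ne_zero_iff.2 h0)]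
  have h1 : ip (C u * p) q = (‖ip p q‖ : ℂ) := by
    rw [ip_C_mul_left, hu, map_div₀, Complex.conj_ofReal, div_mul_eq_mul_div, Complex.conj_mul',
      div_eq_iff hn, sq]
  have h2 : (ip (C u * p) q).re ^ 2 ≤ N q * N (C u * p) :=
    sq_le_of_quad fun t => N_quad q (C u * p) t
  rw [h1, Complex.ofReal_re, N_C_mul, hun] at h2
  linarith

/-- The reproducing kernel bound -/
theorem eval_le {p : MvPolynomial d ℂ} {D : ℕ} (hp : p.IsHomogeneous D) (ω : d → ℂ) :
    D.factorial * ‖eval ω p‖ ^ 2 ≤ N p * (∑ c, ‖ω c‖ ^ 2) ^ D := by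
  set a : d → ℂ := fun c => (starRingEnd ℂ) (ω c) with ha
  have h1 := ip_L_pow a D p hp
  have h2 : (fun c => (starRingEnd ℂ) (a c)) = ω := by
    funext c
    rw [ha, Complex.conj_conj]
  rw [h2] at h1
  have h3 := norm_ip_sq_le (L a ^ D) p
  rw [h1, norm_mul, Complex.norm_natCast, N_L_pow] at h3
  have h4 : ∑ c, ‖a c‖ ^ 2 = ∑ c, ‖ω c‖ ^ 2 := by
    refine Finset.sum_congr rfl fun c _ => ?_
    rw [ha, RCLike.norm_conj]
  rw [h4] at h3
  have h5 : (0 : ℝ) < D.factorial := by exact_mod_cast D.factorial_pos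
  refine le_of_mul_le_mul_left (a := (D.factorial : ℝ)) ?_ h5
  calc (D.factorial : ℝ) * (D.factorial * ‖eval ω p‖ ^ 2) =
        (D.factorial * ‖eval ω p‖) ^ 2 := by ring
    _ ≤ _ := h3
    _ = _ := by ring

end fock

section main

variable {ι : Type} [Fintype ι] [DecidableEq ι] {d : Type} [Fintype d] [DecidableEq d]

lemma homog_prod (b : ι → d → ℂ) : (∏ i, L (b i)).IsHomogeneous (Fintype.card ι) := by
  have := MvPolynomial.IsHomogeneous.prod Finset.univ (fun i => L (b i)) (fun _ => 1)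
    (fun i _ => isHomogeneous_L (b i))
  simpa using this

lemma exists_max [Nonempty ι] [Nonempty d] (b : ι → d → ℂ) :
    ∃ w : d → ℂ, ∑ c, ‖w c‖ ^ 2 = 1 ∧ ∀ ω : d → ℂ, ∏ j, ‖zz b j ω‖ ^ 2 ≤
      (∏ j, ‖zz b j w‖ ^ 2) * (∑ c, ‖ω c‖ ^ 2) ^ Fintype.card ι := by
  set K : Set (d → ℂ) := {ω | ∑ c, ‖ω c‖ ^ 2 = 1} with hK
  have hcl : IsClosed K := isClosed_eq (by fun_prop) continuous_const
  have hbd : Bornology.IsBounded K := by
    refine (Metric.isBounded_closedBall (x := (0 : d → ℂ)) (r := 1)).subset ?_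
    intro ω hω
    rw [mem_closedBall_zero_iff, pi_norm_le_iff_of_nonneg zero_le_one]
    intro c
    have h1 : ‖ω c‖ ^ 2 ≤ ∑ c, ‖ω c‖ ^ 2 :=
      Finset.single_le_sum (f := fun c => ‖ω c‖ ^ 2) (fun _ _ => sq_nonneg _) (Finset.mem_univ c)
    have h2 : ∑ c, ‖ω c‖ ^ 2 = 1 := hω
    rw [h2] at h1
    exact (sq_le_one_iff₀ (norm_nonneg _)).1 h1
  have hcomp : IsCompact K := Metric.isCompact_of_isClosed_isBounded hcl hbd
  obtain ⟨c₀⟩ := ‹Nonempty d›
  have hne : K.Nonempty := by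
    refine ⟨Pi.single c₀ 1, ?_⟩
    show ∑ c, ‖(Pi.single c₀ 1 : d → ℂ) c‖ ^ 2 = 1
    rw [Finset.sum_eq_single c₀]
    · simp
    · intro c _ hc
      rw [Pi.single_eq_of_ne hc]
      simp
    · intro h
      exact absurd (Finset.mem_univ _) h
  have hcont : Continuous fun ω : d → ℂ => ∏ j, ‖zz b j ω‖ ^ 2 := by
    unfold zz
    fun_prop
  obtain ⟨w, hw, hmax⟩ := hcomp.exists_isMaxOn hne hcont.continuousOn
  refine ⟨w, hw, fun ω => ?_⟩
  by_cases h0 : ∑ c, ‖ω c‖ ^ 2 = 0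
  · have h1 : ω = 0 := by
      rw [Finset.sum_eq_zero_iff_of_nonneg (fun _ _ => sq_nonneg _)] at h0
      funext c
      have := h0 c (Finset.mem_univ c)
      simpa using this
    have h2 : ∏ j, ‖zz b j ω‖ ^ 2 = 0 := by
      obtain ⟨j⟩ := ‹Nonempty ι›
      refine Finset.prod_eq_zero (Finset.mem_univ j) ?_
      rw [h1, zz]
      simp
    rw [h2]
    positivity
  · have hpos : 0 < ∑ c, ‖ω c‖ ^ 2 :=
      lt_of_le_of_ne (Finset.sum_nonneg fun _ _ => sq_nonneg _) (Ne.symm h0)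
    set r : ℝ := √(∑ c, ‖ω c‖ ^ 2) with hr
    have hr0 : 0 < r := Real.sqrt_pos.2 hpos
    have hr2 : r ^ 2 = ∑ c, ‖ω c‖ ^ 2 := Real.sq_sqrt hpos.le
    have hrC : (r : ℂ) ≠ 0 := by rw [Ne, Complex.ofReal_eq_zero]; exact hr0.ne'
    set ω' : d → ℂ := fun c => (r : ℂ)⁻¹ * ω c with hω'
    have hmem : ω' ∈ K := by
      show ∑ c, ‖ω' c‖ ^ 2 = 1
      simp only [hω', norm_mul, norm_inv, Complex.norm_real, Real.norm_of_nonneg hr0.le, mul_pow]
      rw [← Finset.mul_sum, ← hr2]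
      field_simp
    have h3 : ∏ j, ‖zz b j ω'‖ ^ 2 ≤ ∏ j, ‖zz b j w‖ ^ 2 := hmax hmem
    have h4 : ∀ j, ‖zz b j ω‖ ^ 2 = r ^ 2 * ‖zz b j ω'‖ ^ 2 := by
      intro j
      have h5 : zz b j ω = r * zz b j ω' := by
        simp only [zz, hω', Finset.mul_sum]
        refine Finset.sum_congr rfl fun c _ => ?_
        field_simp
      rw [h5, norm_mul, Complex.norm_real, Real.norm_of_nonneg hr0.le, mul_pow]
    simp only [h4]
    rw [Finset.prod_mul_distrib, Finset.prod_const, Finset.card_univ, hr2, mul_comm]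
    exact mul_le_mul_of_nonneg_right h3 (by positivity)

lemma nonempty_of_indep [Nonempty ι] {b : ι → d → ℂ} (hb : Indep b) : Nonempty d := by
  obtain ⟨j⟩ := ‹Nonempty ι›
  obtain ⟨c, _⟩ := hb (Pi.single j 1) (by
    intro h
    have := congrFun h j
    simp at this)
  exact ⟨c⟩

/-- `N h ≤ m^m Q` -/
lemma N_le [Nonempty ι] {b : ι → d → ℂ} (hb : Indep b) {Q : ℝ} (hQ0 : 0 ≤ Q)
    (hQ : ∀ ω : d → ℂ, ∏ j, ‖zz b j ω‖ ^ 2 ≤ Q * (∑ c, ‖ω c‖ ^ 2) ^ Fintype.card ι) :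
    N (∏ i, L (b i)) ≤ (Fintype.card ι : ℝ) ^ Fintype.card ι * Q := by
  have hn : (0 : ℝ) < Fintype.card ι := by exact_mod_cast Fintype.card_pos
  have key : ∀ Q' : ℝ, Q < Q' →
      N (∏ i, L (b i)) ≤ (Fintype.card ι : ℝ) ^ Fintype.card ι * Q' := by
    intro Q' hQ'
    have hd : ∀ T, Dom (cP d) (XR (tw b T)) rr2 Q' := fun T =>
      dom_XR (hQ0.trans_lt hQ') (fun ω j => abs_XR_tw_le b T ω j) fun ω =>
        (hQ ω).trans (mul_le_mul_of_nonneg_right hQ'.le (by positivity))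
    have h1 : ∀ T, ∫ ω, ∏ i, XR (tw b T) i ω ^ 2 ∂(cP d) ≤
        (Fintype.card ι : ℝ) ^ Fintype.card ι * Q' := fun T =>
      nogap (gv_XR (indep_tw hb T)) (hd T)
    have h2 := avg_XR b
    have h3 := Finset.sum_le_card_nsmul Finset.univ _ _ fun T _ => h1 T
    rw [Finset.card_univ, nsmul_eq_mul] at h3
    have hk : (0 : ℝ) < Fintype.card (ι → Bool) := by exact_mod_cast Fintype.card_pos
    rw [← h2]
    calc (Fintype.card (ι → Bool) : ℝ)⁻¹ *
          ∑ T : ι → Bool, ∫ ω : d → ℂ, ∏ j, XR (tw b T) j ω ^ 2 ∂(cP d)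
        ≤ (Fintype.card (ι → Bool) : ℝ)⁻¹ * (Fintype.card (ι → Bool) *
            ((Fintype.card ι : ℝ) ^ Fintype.card ι * Q')) :=
          mul_le_mul_of_nonneg_left h3 (by positivity)
      _ = _ := by field_simp
  refine le_of_forall_pos_le_add fun ε hε => ?_
  have hc : (0 : ℝ) < (Fintype.card ι : ℝ) ^ Fintype.card ι := by positivity
  have h4 := key (Q + ε / (Fintype.card ι : ℝ) ^ Fintype.card ι)
    (by have : 0 < ε / (Fintype.card ι : ℝ) ^ Fintype.card ι := by positivity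
        linarith)
  refine h4.trans_eq ?_
  field_simp

/-- the bound with the gap -/
lemma N_le_gap [Nonempty ι] {b : ι → d → ℂ} (hb : Indep b) (hdiag : ∀ i, ∑ c, ‖b i c‖ ^ 2 = 1)
    {Q : ℝ} (hQ0 : 0 ≤ Q)
    (hQ : ∀ ω : d → ℂ, ∏ j, ‖zz b j ω‖ ^ 2 ≤ Q * (∑ c, ‖ω c‖ ^ 2) ^ Fintype.card ι)
    {s β : ℝ} (hs0 : 0 < s) (hs1 : s < 1)
    (hs : cr (Fintype.card ι * s) ≤ cr s ^ Fintype.card ι * Real.exp (β / 2 * s))
    (hβ : Real.exp β ≤ N (∏ i, L (b i))) :
    N (∏ i, L (b i)) ≤ (1 - s * (1 - Real.exp (-(β / 2 * s)))) *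
      ((Fintype.card ι : ℝ) ^ Fintype.card ι * Q) := by
  have hn : (0 : ℝ) < Fintype.card ι := by exact_mod_cast Fintype.card_pos
  have hCR : ∀ (T : ι → Bool) (i : ι), CR (tw b T) i i = 1 := by
    intro T i
    rw [CR_tw_diag, CR, Matrix.of_apply, Complex.re_sum, ← hdiag i]
    refine Finset.sum_congr rfl fun c _ => ?_
    rw [Complex.conj_mul', ← Complex.ofReal_pow, Complex.ofReal_re]
  have h0 := N_le hb hQ0 hQ
  have key : ∀ Q' : ℝ, Q < Q' → N (∏ i, L (b i)) ≤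
      (1 - s * (1 - Real.exp (-(β / 2 * s)))) *
        ((Fintype.card ι : ℝ) ^ Fintype.card ι * Q') := by
    intro Q' hQ'
    have hd : ∀ T, Dom (cP d) (XR (tw b T)) rr2 Q' := fun T =>
      dom_XR (hQ0.trans_lt hQ') (fun ω j => abs_XR_tw_le b T ω j) fun ω =>
        (hQ ω).trans (mul_le_mul_of_nonneg_right hQ'.le (by positivity))
    have hW : Real.exp β ≤ (Fintype.card ι : ℝ) ^ Fintype.card ι * Q' := by
      refine hβ.trans (h0.trans ?_)
      exact mul_le_mul_of_nonneg_left hQ'.le (by positivity)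
    have h1 := gap (κ := ι → Bool) (X := fun T => XR (tw b T)) (C := fun T => CR (tw b T))
      (fun T => gv_XR (indep_tw hb T)) hd hs0 hs1 hCR hs hW
    rwa [avg_XR b] at h1
  set δ : ℝ := 1 - s * (1 - Real.exp (-(β / 2 * s))) with hδ
  have hlim : Filter.Tendsto (fun Q' : ℝ => δ * ((Fintype.card ι : ℝ) ^ Fintype.card ι * Q'))
      (nhdsWithin Q (Set.Ioi Q)) (nhds (δ * ((Fintype.card ι : ℝ) ^ Fintype.card ι * Q))) := by
    have hc : Continuous fun Q' : ℝ => δ * ((Fintype.card ι : ℝ) ^ Fintype.card ι * Q') := by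
      fun_prop
    exact (hc.tendsto Q).mono_left nhdsWithin_le_nhds
  refine ge_of_tendsto hlim ?_
  filter_upwards [self_mem_nhdsWithin] with Q' hQ'
  exact key Q' hQ'

/-- lower bound of the norm of the powers -/
lemma N_pow_ge (b : ι → d → ℂ) {w : d → ℂ} (hw : ∑ c, ‖w c‖ ^ 2 = 1) (k : ℕ) :
    ((Fintype.card ι * k).factorial : ℝ) * (∏ j, ‖zz b j w‖ ^ 2) ^ k ≤
      N ((∏ i, L (b i)) ^ k) := by
  have h1 := eval_le ((homog_prod b).pow k) w
  rw [hw, one_pow, mul_one, map_pow, norm_pow, eval_prod_L, norm_prod] at h1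
  refine le_trans (le_of_eq ?_) h1
  rw [Finset.prod_pow]
  ring

/-- The inequality with polynomial loss, real form, for independent vectors. -/
theorem polyLoss_indep [Nonempty ι] {b : ι → d → ℂ} (hb : Indep b) (k : ℕ) :
    ((Fintype.card ι * k).factorial : ℝ) * N (∏ i, L (b i)) ^ k ≤
      (Fintype.card ι : ℝ) ^ (Fintype.card ι * k) * N ((∏ i, L (b i)) ^ k) := by
  have := nonempty_of_indep hb
  obtain ⟨w, hw, hmax⟩ := exists_max b
  have hQ0 : 0 ≤ ∏ j, ‖zz b j w‖ ^ 2 := Finset.prod_nonneg fun _ _ => sq_nonneg _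
  have h1 := N_le hb hQ0 hmax
  have h2 := N_pow_ge b hw k
  have h3 : N (∏ i, L (b i)) ^ k ≤
      ((Fintype.card ι : ℝ) ^ Fintype.card ι * ∏ j, ‖zz b j w‖ ^ 2) ^ k :=
    pow_le_pow_left₀ (N_nonneg _) h1 k
  calc ((Fintype.card ι * k).factorial : ℝ) * N (∏ i, L (b i)) ^ k
      ≤ ((Fintype.card ι * k).factorial : ℝ) *
          ((Fintype.card ι : ℝ) ^ Fintype.card ι * ∏ j, ‖zz b j w‖ ^ 2) ^ k :=
        mul_le_mul_of_nonneg_left h3 (by positivity)
    _ = (Fintype.card ι : ℝ) ^ (Fintype.card ι * k) *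
          (((Fintype.card ι * k).factorial : ℝ) * (∏ j, ‖zz b j w‖ ^ 2) ^ k) := by
        rw [mul_pow, ← pow_mul]
        ring
    _ ≤ _ := mul_le_mul_of_nonneg_left h2 (by positivity)

end main

end Pool.Agent.Work.MP_8d2b2d_co.PL
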