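import Pool.Agent.Work.MP_8d2b2d_co.PL.Cz

/-!
# The laws of the coordinates and the moment function `F`
-/

set_option autoImplicit false
set_option linter.unusedSectionVars false

namespace Pool.Agent.Work.MP_8d2b2d_co.PL

open MeasureTheory Matrix Finset ProbabilityTheory
open scoped Topology

variable {ι : Type*} [Fintype ι] [DecidableEq ι] {Ω : Type*} [MeasurableSpace Ω]

lemma qf_single (C : Matrix ι ι ℝ) (i : ι) (t : ℝ) : qf C (Pi.single i t) = C i i * t ^ 2 := by
  rw [qf, single_dotProduct, Matrix.mulVec_single]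
  simp
  ring

lemma map_eq {P : Measure Ω} [IsProbabilityMeasure P] {X : ι → Ω → ℝ}
    (hXm : ∀ i, Measurable (X i)) {C : Matrix ι ι ℝ} (hch : HasCF P X C) (i : ι)
    (hC : 0 ≤ C i i) : P.map (X i) = gaussianReal 0 (C i i).toNNReal := by
  have : IsProbabilityMeasure (P.map (X i)) :=
    Measure.isProbabilityMeasure_map (hXm i).aemeasurable
  refine Measure.ext_of_charFun (funext fun t => ?_)
  rw [charFun_apply_real, charFun_gaussianReal, integral_map (hXm i).aemeasurable]
  · have h := hch (Pi.single i t)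
    rw [qf_single] at h
    have h1 : ∀ ω, ∑ j, (Pi.single i t : ι → ℝ) j * X j ω = t * X i ω := by
      intro ω
      rw [Finset.sum_eq_single i]
      · rw [Pi.single_eq_same]
      · intro j _ hj
        rw [Pi.single_eq_of_ne hj, zero_mul]
      · intro h
        exact absurd (Finset.mem_univ i) h
    simp only [h1] at h
    push_cast at h
    rw [h, Real.coe_toNNReal _ hC]
    congr 1
    simp
  · refine Measurable.aestronglyMeasurable ?_
    fun_prop

lemma integrable_abs_rpow_gaussian' {v : NNReal} (hv : v ≠ 0) {r : ℝ} (hr : -1 < r) :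
    Integrable (fun x : ℝ => |x| ^ r) (gaussianReal 0 v) := by
  have hv' : (0 : ℝ) < v := by positivity
  rw [gaussianReal_of_var_ne_zero 0 hv]
  rw [integrable_withDensity_iff_integrable_smul' (measurable_gaussianPDF 0 v)
    (ae_of_all _ fun x => gaussianPDF_lt_top)]
  refine ((integrable_abs_rpow hr (b := 1 / (2 * v)) (by positivity)).const_mul
    ((√(2 * Real.pi * v))⁻¹)).congr (ae_of_all _ fun x => ?_)
  simp only [toReal_gaussianPDF, gaussianPDFReal, smul_eq_mul, sub_zero]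
  have : -(1 / (2 * (v : ℝ))) * x ^ 2 = -x ^ 2 / (2 * v) := by ring
  rw [this]
  ring

/-- Setting: a centred nondegenerate Gaussian vector. -/
structure GV (P : Measure Ω) (X : ι → Ω → ℝ) (C : Matrix ι ι ℝ) : Prop where
  prob : IsProbabilityMeasure P
  meas : ∀ i, Measurable (X i)
  pos : C.PosDef
  cf : HasCF P X C

namespace GV

variable {P : Measure Ω} {X : ι → Ω → ℝ} {C : Matrix ι ι ℝ}

lemma diag_pos (h : GV P X C) (i : ι) : 0 < C i i := h.pos.diag_pos

lemma map_eq (h : GV P X C) (i : ι) : P.map (X i) = gaussianReal 0 (C i i).toNNReal := by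
  have := h.prob
  exact PL.map_eq h.meas h.cf i (h.diag_pos i).le

lemma var_ne (h : GV P X C) (i : ι) : (C i i).toNNReal ≠ 0 := by
  rw [Ne, Real.toNNReal_eq_zero, not_le]
  exact h.diag_pos i

lemma ne_zero (h : GV P X C) (i : ι) : ∀ᵐ ω ∂P, X i ω ≠ 0 := by
  have h1 : (gaussianReal 0 (C i i).toNNReal) {(0 : ℝ)} = 0 := by
    have := nullSingletonClass_gaussianReal (μ := 0) (h.var_ne i)
    exact measure_singleton 0
  rw [← h.map_eq i, Measure.map_apply (h.meas i) (measurableSet_singleton 0)] at h1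
  rw [ae_iff]
  convert h1 using 2
  ext ω
  simp

lemma integrable_abs (h : GV P X C) (i : ι) {r : ℝ} (hr : -1 < r) :
    Integrable (fun ω => |X i ω| ^ r) P := by
  have h1 := integrable_abs_rpow_gaussian' (h.var_ne i) hr
  rw [← h.map_eq i] at h1
  exact h1.comp_measurable (h.meas i)

lemma moment (h : GV P X C) (i : ι) (hC : C i i = 1) (r : ℝ) :
    ∫ ω, |X i ω| ^ r ∂P = ∫ x, |x| ^ r ∂(gaussianReal 0 1) := by
  have h1 : gaussianReal 0 1 = P.map (X i) := by
    rw [h.map_eq i, hC, Real.toNNReal_one]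
  rw [h1, integral_map (h.meas i).aemeasurable]
  refine Measurable.aestronglyMeasurable ?_
  fun_prop

end GV

/-- arithmetic-geometric mean -/
lemma prod_rpow_le [Nonempty ι] {x : ι → ℝ} (hx : ∀ i, 0 < x i) (s : ℝ) :
    ∏ i, x i ^ s ≤ (Fintype.card ι : ℝ)⁻¹ * ∑ i, x i ^ (Fintype.card ι * s) := by
  have hn : (0 : ℝ) < Fintype.card ι := by exact_mod_cast Fintype.card_pos
  have h := Real.geom_mean_le_arith_mean_weighted Finset.univ
    (fun _ : ι => (Fintype.card ι : ℝ)⁻¹) (fun i => x i ^ (Fintype.card ι * s))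
    (fun i _ => by positivity) (by
      rw [Finset.sum_const, Finset.card_univ, nsmul_eq_mul, mul_inv_cancel₀ hn.ne'])
    (fun i _ => (Real.rpow_pos_of_pos (hx i) _).le)
  rw [← Finset.mul_sum] at h
  refine le_trans (le_of_eq ?_) h
  refine Finset.prod_congr rfl fun i _ => ?_
  rw [← Real.rpow_mul (hx i).le]
  congr 1
  field_simp

/-- the logarithm of the product of squares -/
noncomputable def YY (X : ι → Ω → ℝ) (ω : Ω) : ℝ := ∑ i, 2 * Real.log |X i ω|

lemma exp_YY {X : ι → Ω → ℝ} {ω : Ω} (h : ∀ i, X i ω ≠ 0) (t : ℝ) :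
    Real.exp (t * YY X ω) = ∏ i, |X i ω| ^ (2 * t) := by
  rw [YY, Finset.mul_sum, Real.exp_sum]
  refine Finset.prod_congr rfl fun i _ => ?_
  rw [Real.rpow_def_of_pos (abs_pos.2 (h i))]
  congr 1
  ring

lemma cexp_YY {X : ι → Ω → ℝ} {ω : Ω} (h : ∀ i, X i ω ≠ 0) (z : ℂ) :
    Complex.exp (z * YY X ω) = ∏ i, ((|X i ω| : ℝ) : ℂ) ^ (2 * z) := by
  rw [YY, Complex.ofReal_sum, Finset.mul_sum, Complex.exp_sum]
  refine Finset.prod_congr rfl fun i _ => ?_
  have hne : ((|X i ω| : ℝ) : ℂ) ≠ 0 := by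
    rw [Ne, Complex.ofReal_eq_zero, abs_eq_zero]
    exact h i
  rw [Complex.cpow_def_of_ne_zero hne, ← Complex.ofReal_log (abs_nonneg _)]
  congr 1
  push_cast
  ring

namespace GV

variable {P : Measure Ω} {X : ι → Ω → ℝ} {C : Matrix ι ι ℝ}

lemma ne_zero_all (h : GV P X C) : ∀ᵐ ω ∂P, ∀ i, X i ω ≠ 0 := ae_all_iff.2 h.ne_zero

lemma measurable_YY (h : GV P X C) : Measurable (YY X) := by
  unfold YY
  refine Finset.measurable_sum _ fun i _ => ?_
  exact ((Real.measurable_log.comp (h.meas i).abs).const_mul 2)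

lemma integrable_prod [Nonempty ι] (h : GV P X C) {s : ℝ} (hs : -1 < Fintype.card ι * s) :
    Integrable (fun ω => ∏ i, |X i ω| ^ s) P := by
  refine Integrable.mono' (g := fun ω => (Fintype.card ι : ℝ)⁻¹ *
    ∑ i, |X i ω| ^ (Fintype.card ι * s)) ?_ ?_ ?_
  · exact (integrable_finsetSum _ fun i _ => h.integrable_abs i hs).const_mul _
  · refine Measurable.aestronglyMeasurable ?_
    exact Finset.measurable_prod _ fun i _ => (h.meas i).abs.pow_const _
  · filter_upwards [h.ne_zero_all] with ω hω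
    rw [Real.norm_of_nonneg (Finset.prod_nonneg fun i _ => Real.rpow_nonneg (abs_nonneg _) _)]
    exact prod_rpow_le (fun i => abs_pos.2 (hω i)) s

lemma mem_expSet [Nonempty ι] (h : GV P X C) {t : ℝ} (ht : -1 < Fintype.card ι * (2 * t)) :
    t ∈ integrableExpSet (YY X) P := by
  refine (h.integrable_prod ht).congr ?_
  filter_upwards [h.ne_zero_all] with ω hω
  rw [exp_YY hω]

lemma mem_interior [Nonempty ι] (h : GV P X C) {t : ℝ}
    (ht : -1 < Fintype.card ι * (2 * t)) : t ∈ interior (integrableExpSet (YY X) P) := by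
  rw [_root_.mem_interior]
  refine ⟨{s : ℝ | -1 < Fintype.card ι * (2 * s)}, fun s hs => h.mem_expSet hs, ?_, ht⟩
  exact isOpen_lt continuous_const (by fun_prop)

/-- the moment function -/
noncomputable def _root_.Pool.Agent.Work.MP_8d2b2d_co.PL.FF (P : Measure Ω) (X : ι → Ω → ℝ)
    (z : ℂ) : ℂ := complexMGF (YY X) P z

lemma FF_diff [Nonempty ι] (h : GV P X C) {z : ℂ} (hz : -1 < Fintype.card ι * (2 * z.re)) :
    DifferentiableAt ℂ (FF P X) z := by
  have h1 := hasDerivAt_complexMGF (h.mem_interior hz)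
  exact h1.differentiableAt

lemma FF_eq (h : GV P X C) (z : ℂ) :
    FF P X z = ∫ ω, ∏ i, ((|X i ω| : ℝ) : ℂ) ^ (2 * z) ∂P := by
  rw [FF, complexMGF]
  refine integral_congr_ae ?_
  filter_upwards [h.ne_zero_all] with ω hω
  rw [cexp_YY hω]

lemma norm_FF_le (z : ℂ) : ‖FF P X z‖ ≤ mgf (YY X) P z.re := norm_complexMGF_le_mgf

lemma mgf_eq (h : GV P X C) (x : ℝ) :
    mgf (YY X) P x = ∫ ω, ∏ i, |X i ω| ^ (2 * x) ∂P := by
  rw [mgf]
  refine integral_congr_ae ?_
  filter_upwards [h.ne_zero_all] with ω hω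
  rw [exp_YY hω]

/-- The bound on the imaginary axis -/
theorem FF_imag [Nonempty ι] (h : GV P X C) (t : ℝ) :
    ‖FF P X (t * Complex.I)‖ ≤ ‖cc (t * Complex.I)‖ ^ Fintype.card ι := by
  have := h.prob
  have hn : (0 : ℝ) < Fintype.card ι := by exact_mod_cast Fintype.card_pos
  obtain ⟨c, hc, hmom⟩ := mom_le h.pos
  set z : ℝ → ℂ := fun ε => -(ε : ℂ) + t * Complex.I with hz
  have hzre : ∀ ε, (z ε).re = -ε := fun ε => by simp [hz]
  have hz0 : z 0 = t * Complex.I := by simp [hz]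
  have hzc : Continuous z := by
    simp only [hz]
    fun_prop
  have hev : ∀ᶠ ε in 𝓝[>] (0 : ℝ), ‖FF P X (z ε)‖ ≤
      (√c ^ (2 * -ε) * ‖cc (z ε)‖) ^ Fintype.card ι := by
    have hpos : (0 : ℝ) < 1 / (4 * Fintype.card ι) := by positivity
    filter_upwards [self_mem_nhdsWithin, mem_nhdsWithin_of_mem_nhds (Iio_mem_nhds hpos)]
      with ε hε1 hε2
    have hε1' : 0 < ε := hε1
    have hε2' : ε < 1 / (4 * Fintype.card ι) := hε2
    have h1n : (1 : ℝ) ≤ Fintype.card ι := by exact_mod_cast Fintype.card_pos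
    have hε3 : Fintype.card ι * ε < 1 / 4 := by
      rw [lt_div_iff₀ (by positivity)] at hε2'
      linarith
    have hε4 : ε < 1 / 4 := by nlinarith
    have hre : (2 * z ε).re = 2 * -ε := by
      rw [show (2 : ℂ) * z ε = ((2 : ℝ) : ℂ) * z ε by push_cast; ring, Complex.re_ofReal_mul, hzre]
    have ha : (2 * z ε).re < 0 := by rw [hre]; linarith
    have ha1 : -1 < (2 * z ε).re := by rw [hre]; linarith
    have hint : Integrable (fun ω => ∏ i, |X i ω| ^ (2 * z ε).re) P := by
      refine h.integrable_prod ?_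
      rw [hre]
      nlinarith
    have hp := pars h.meas h.ne_zero h.pos h.cf ha ha1 hint
    rw [← h.FF_eq, g1_eq (by rw [hzre]; linarith)] at hp
    have hJ : 0 < ‖J1 (2 * z ε)‖ := norm_pos_iff.2 (J1_ne_zero ha)
    have h5 := congrArg norm hp
    rw [norm_mul, norm_mul, norm_pow, norm_pow] at h5
    have h6 := hmom (2 * z ε) ha
    rw [hre] at h6
    have h7 : ‖J1 (2 * z ε)‖ ^ Fintype.card ι * ‖FF P X (z ε)‖ ≤
        ‖J1 (2 * z ε)‖ ^ Fintype.card ι * (√c ^ (2 * -ε) * ‖cc (z ε)‖) ^ Fintype.card ι := by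
      rw [h5]
      refine (mul_le_mul_of_nonneg_right h6 (by positivity)).trans_eq ?_
      rw [mul_pow, mul_pow]
      ring
    exact le_of_mul_le_mul_left h7 (by positivity)
  have hl1 : Filter.Tendsto (fun ε => ‖FF P X (z ε)‖) (𝓝[>] 0) (𝓝 ‖FF P X (t * Complex.I)‖) := by
    have h1 : ContinuousAt (FF P X) (z 0) := by
      refine (h.FF_diff ?_).continuousAt
      rw [hzre]
      norm_num
    have h2 : ContinuousAt (fun ε => FF P X (z ε)) 0 :=
      ContinuousAt.comp (f := z) (g := FF P X) h1 hzc.continuousAt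
    have h3 := h2.norm.tendsto
    rw [hz0] at h3
    exact h3.mono_left nhdsWithin_le_nhds
  have hl2 : Filter.Tendsto (fun ε => (√c ^ (2 * -ε) * ‖cc (z ε)‖) ^ Fintype.card ι) (𝓝[>] 0)
      (𝓝 (‖cc (t * Complex.I)‖ ^ Fintype.card ι)) := by
    have h1 : ContinuousAt cc (z 0) := by
      refine (cc_differentiableAt ?_).continuousAt
      rw [hzre]
      norm_num
    have h2 : ContinuousAt (fun ε => cc (z ε)) 0 :=
      ContinuousAt.comp (f := z) (g := cc) h1 hzc.continuousAt
    have h4 : ContinuousAt (fun ε : ℝ => √c ^ (2 * -ε)) 0 := by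
      refine ContinuousAt.rpow continuousAt_const (by fun_prop) (Or.inl ?_)
      exact (Real.sqrt_pos.2 hc).ne'
    have h3 : Filter.Tendsto (fun ε => (√c ^ (2 * -ε) * ‖cc (z ε)‖) ^ Fintype.card ι) (𝓝 0)
        (𝓝 ((√c ^ (2 * -(0 : ℝ)) * ‖cc (z 0)‖) ^ Fintype.card ι)) :=
      ((h4.mul h2.norm).pow (Fintype.card ι)).tendsto
    rw [hz0] at h3
    simp only [neg_zero, mul_zero, Real.rpow_zero, one_mul] at h3
    exact h3.mono_left nhdsWithin_le_nhds
  exact le_of_tendsto_of_tendsto hl1 hl2 hev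

end GV

end Pool.Agent.Work.MP_8d2b2d_co.PL
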