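import Pool.Agent.Work.MP_8d2b2d_co.PL.Alg
import Pool.Agent.Work.MP_8d2b2d_co.PL.Dom

/-!
# The moment functional, its recursion and its derivative in the covariance
-/

set_option autoImplicit false
set_option linter.unusedSectionVars false

namespace Pool.Agent.Work.MP_8d2b2d_co.PL

open MeasureTheory Matrix Finset MvPolynomial
open scoped Topology

variable {ι : Type*} [Fintype ι] [DecidableEq ι]

/-- the weight `∏ |x_i|^(-1-a)` -/
noncomputable def wgt (a : ℂ) (x : ι → ℝ) : ℂ := ∏ i, ((|x i| : ℝ) : ℂ) ^ (-1 - a)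

lemma measurable_wgt (a : ℂ) : Measurable (wgt a : (ι → ℝ) → ℂ) := by
  unfold wgt
  refine Finset.measurable_prod _ fun i _ => ?_
  exact (Complex.measurable_ofReal.comp (measurable_pi_apply i).abs).pow_const _

lemma norm_cpow_le' (y : ℝ) (hy : 0 ≤ y) (c : ℂ) : ‖(y : ℂ) ^ c‖ ≤ y ^ c.re := by
  rcases hy.eq_or_lt with h | h
  · rw [← h]
    by_cases hc : c = 0
    · rw [hc]; simp
    · rw [Complex.ofReal_zero, Complex.zero_cpow hc, norm_zero]
      exact Real.rpow_nonneg le_rfl _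
  · rw [Complex.norm_cpow_eq_rpow_re_of_pos h]

lemma WB_wgt (a : ℂ) : WB (-1 - a.re) (wgt a : (ι → ℝ) → ℂ) := by
  refine ⟨(measurable_wgt a).aestronglyMeasurable, 1, 0, zero_le_one, fun x => ?_⟩
  rw [one_mul, wgt, norm_prod, dom]
  refine Finset.prod_le_prod (fun i _ => norm_nonneg _) fun i _ => ?_
  rw [pow_zero, mul_one]
  refine (norm_cpow_le' _ (abs_nonneg _) _).trans_eq ?_
  congr 1

/-- lower bound of a positive definite form -/
lemma exists_lower {M : Matrix ι ι ℝ} (hM : M.PosDef) :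
    ∃ c : ℝ, 0 < c ∧ ∀ x : ι → ℝ, c * ∑ i, x i ^ 2 ≤ qf M x := by
  cases isEmpty_or_nonempty ι with
  | inl h => exact ⟨1, one_pos, fun x => by simp [qf, dotProduct]⟩
  | inr h =>
    have hcont : Continuous (qf M) := by
      rw [funext (qf_eq M)]
      fun_prop
    obtain ⟨y, hy, hmin⟩ := (isCompact_sphere (0 : ι → ℝ) 1).exists_isMinOn
      (NormedSpace.sphere_nonempty.2 zero_le_one) hcont.continuousOn
    have hy0 : y ≠ 0 := by
      rintro rfl
      simp at hy
    have hc0 : 0 < qf M y := by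
      have := hM.dotProduct_mulVec_pos hy0
      rwa [star_trivial] at this
    refine ⟨qf M y / (Fintype.card ι : ℝ), by positivity, fun x => ?_⟩
    by_cases hx : x = 0
    · subst hx; simp [qf]
    have hn : 0 < ‖x‖ := norm_pos_iff.2 hx
    have h1 : qf M y ≤ qf M (‖x‖⁻¹ • x) := by
      apply hmin
      rw [mem_sphere_zero_iff_norm, norm_smul, norm_inv, norm_norm, inv_mul_cancel₀ hn.ne']
    have h2 : qf M (‖x‖⁻¹ • x) = ‖x‖⁻¹ ^ 2 * qf M x := by
      rw [qf, qf, Matrix.mulVec_smul, smul_dotProduct, dotProduct_smul]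
      simp only [smul_eq_mul]
      ring
    have h3 : ∑ i, x i ^ 2 ≤ (Fintype.card ι : ℝ) * ‖x‖ ^ 2 := by
      have h4 : ∀ i ∈ (univ : Finset ι), x i ^ 2 ≤ ‖x‖ ^ 2 := fun i _ => by
        have := norm_le_pi_norm x i
        rw [Real.norm_eq_abs] at this
        rw [← sq_abs]
        exact pow_le_pow_left₀ (abs_nonneg _) this 2
      refine (Finset.sum_le_card_nsmul _ _ _ h4).trans_eq ?_
      rw [nsmul_eq_mul, Finset.card_univ]
    rw [h2] at h1
    have h5 : qf M y * ‖x‖ ^ 2 ≤ qf M x := by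
      have h6 : ‖x‖⁻¹ ^ 2 * qf M x * ‖x‖ ^ 2 = qf M x := by field_simp
      calc qf M y * ‖x‖ ^ 2 ≤ ‖x‖⁻¹ ^ 2 * qf M x * ‖x‖ ^ 2 :=
            mul_le_mul_of_nonneg_right h1 (by positivity)
        _ = qf M x := h6
    have hcard : (0 : ℝ) < Fintype.card ι := by exact_mod_cast Fintype.card_pos
    calc qf M y / (Fintype.card ι : ℝ) * ∑ i, x i ^ 2
        ≤ qf M y / (Fintype.card ι : ℝ) * ((Fintype.card ι : ℝ) * ‖x‖ ^ 2) :=
          mul_le_mul_of_nonneg_left h3 (by positivity)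
      _ = qf M y * ‖x‖ ^ 2 := by field_simp
      _ ≤ _ := h5

lemma abs_qf_le (N : Matrix ι ι ℝ) (x : ι → ℝ) :
    |qf N x| ≤ (∑ i, ∑ j, |N i j|) * ∑ i, x i ^ 2 := by
  rw [qf_eq, Finset.sum_mul]
  refine (Finset.abs_sum_le_sum_abs _ _).trans (Finset.sum_le_sum fun i _ => ?_)
  rw [Finset.sum_mul]
  refine (Finset.abs_sum_le_sum_abs _ _).trans (Finset.sum_le_sum fun j _ => ?_)
  rw [abs_mul]
  refine mul_le_mul_of_nonneg_left ?_ (abs_nonneg _)
  have h1 : x i ^ 2 ≤ ∑ i, x i ^ 2 :=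
    Finset.single_le_sum (f := fun i => x i ^ 2) (fun _ _ => sq_nonneg _) (Finset.mem_univ i)
  have h2 : x j ^ 2 ≤ ∑ i, x i ^ 2 :=
    Finset.single_le_sum (f := fun i => x i ^ 2) (fun _ _ => sq_nonneg _) (Finset.mem_univ j)
  rw [abs_mul]
  nlinarith [sq_nonneg (|x i| - |x j|), sq_abs (x i), sq_abs (x j)]

/-- the moments -/
noncomputable def mom (M : Matrix ι ι ℝ) (a : ℂ) (p : MvPolynomial ι ℝ) : ℂ :=
  ∫ x : ι → ℝ, wgt a x * ((MvPolynomial.eval x p : ℝ) : ℂ) * (Real.exp (-(qf M x / 2)) : ℂ)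

lemma mom_integrable {M : Matrix ι ι ℝ} (hM : M.PosDef) {a : ℂ} (ha : a.re < 0)
    (p : MvPolynomial ι ℝ) : Integrable (fun x : ι → ℝ =>
      wgt a x * ((MvPolynomial.eval x p : ℝ) : ℂ) * (Real.exp (-(qf M x / 2)) : ℂ)) := by
  obtain ⟨c, hc, h⟩ := exists_lower hM
  refine WB.integrable (s := -1 - a.re) (by linarith) ((WB_wgt a).mul (PBd.eval p))
    ((PBd.qf M).1.div_const 2) (half_pos hc) fun x => ?_
  have := h x
  linarith

/-- the moment functional as a linear map -/
noncomputable def momL {M : Matrix ι ι ℝ} (hM : M.PosDef) {a : ℂ} (ha : a.re < 0) :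
    MvPolynomial ι ℝ →ₗ[ℝ] ℂ where
  toFun := mom M a
  map_add' p q := by
    rw [mom, mom, mom, ← integral_add (mom_integrable hM ha p) (mom_integrable hM ha q)]
    congr 1
    funext x
    rw [map_add]
    push_cast
    ring
  map_smul' c p := by
    rw [mom, mom, RingHom.id_apply, Complex.real_smul, ← integral_const_mul]
    congr 1
    funext x
    rw [smul_eval]
    push_cast
    ring

lemma momL_apply {M : Matrix ι ι ℝ} (hM : M.PosDef) {a : ℂ} (ha : a.re < 0)
    (p : MvPolynomial ι ℝ) : momL hM ha p = mom M a p := rfl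

/-- quadratic polynomial of a matrix -/
noncomputable def qp (N : Matrix ι ι ℝ) : MvPolynomial ι ℝ :=
  ∑ i, ∑ j, C (N i j) * (X i * X j)

lemma eval_qp (N : Matrix ι ι ℝ) (x : ι → ℝ) : MvPolynomial.eval x (qp N) = qf N x := by
  rw [qf_eq, qp]
  simp only [map_sum, map_mul, eval_C, eval_X]

lemma qf_add_smul (M N : Matrix ι ι ℝ) (t : ℝ) (x : ι → ℝ) :
    qf (M + t • N) x = qf M x + t * qf N x := by
  simp only [qf_eq, Matrix.add_apply, Matrix.smul_apply, smul_eq_mul, Finset.mul_sum,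
    ← Finset.sum_add_distrib]
  refine Finset.sum_congr rfl fun i _ => Finset.sum_congr rfl fun j _ => ?_
  ring

/-- derivative of the moments along a line of matrices -/
theorem mom_hasDerivAt (M N : Matrix ι ι ℝ) {t₀ : ℝ} (hM : (M + t₀ • N).PosDef) {a : ℂ}
    (ha : a.re < 0) (p : MvPolynomial ι ℝ) :
    HasDerivAt (fun t : ℝ => mom (M + t • N) a p)
      (-(1 / 2 : ℂ) * mom (M + t₀ • N) a (qp N * p)) t₀ := by
  obtain ⟨c, hc, h⟩ := exists_lower hM
  set CN := ∑ i, ∑ j, |N i j| with hCN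
  have hCN0 : 0 ≤ CN := Finset.sum_nonneg fun i _ => Finset.sum_nonneg fun j _ => abs_nonneg _
  have hε : 0 < c / (2 * (CN + 1)) := by positivity
  have key := hasDerivAt_param (ι := ι) (s := -1 - a.re) (by linarith)
    ((WB_wgt a).mul (PBd.eval p)) (Q := fun t x => qf (M + t • N) x / 2)
    (Q' := fun _ x => qf N x / 2) (t₀ := t₀) (ε := c / (2 * (CN + 1))) (c := c / 4)
    (C := CN) hε (by positivity) (fun t => (PBd.qf _).1.div_const 2) ?_ ?_ ?_ ?_
  · refine key.congr_deriv ?_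
    rw [mom, ← integral_const_mul]
    congr 1
    funext x
    rw [map_mul, eval_qp]
    push_cast
    ring
  · have := (PBd.qf N).mul (PBd.const (1 / 2))
    refine ⟨(PBd.qf N).1.div_const 2, ?_⟩
    obtain ⟨_, K, N', hK, h1⟩ := this
    exact ⟨K, N', hK, fun x => by
      have h2 := h1 x
      have h3 : qf N x / 2 = qf N x * (1 / 2) := by ring
      show |qf N x / 2| ≤ _
      rw [h3]
      exact h2⟩
  · intro t ht x
    have h1 := h x
    have h2 := abs_qf_le N x
    have h3 : 0 ≤ ∑ i, x i ^ 2 := Finset.sum_nonneg fun i _ => sq_nonneg _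
    have h4 : qf (M + t • N) x = qf (M + t₀ • N) x + (t - t₀) * qf N x := by
      rw [qf_add_smul, qf_add_smul]; ring
    have h5 : |t - t₀| < c / (2 * (CN + 1)) := by
      rwa [Metric.mem_ball, Real.dist_eq] at ht
    have h6 : |(t - t₀) * qf N x| ≤ c / 2 * ∑ i, x i ^ 2 := by
      rw [abs_mul]
      calc |t - t₀| * |qf N x| ≤ c / (2 * (CN + 1)) * (CN * ∑ i, x i ^ 2) :=
            mul_le_mul h5.le h2 (abs_nonneg _) hε.le
        _ = c / 2 * (∑ i, x i ^ 2) * (CN / (CN + 1)) := by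
            field_simp
        _ ≤ c / 2 * (∑ i, x i ^ 2) * 1 := by
            refine mul_le_mul_of_nonneg_left ?_ (by positivity)
            rw [div_le_one (by positivity)]
            linarith
        _ = _ := by ring
    have h7 := (abs_le.1 h6).1
    rw [h4]
    linarith
  · intro t _ x
    rw [abs_div, abs_two]
    have h2 := abs_qf_le N x
    have h3 : 0 ≤ |qf N x| := abs_nonneg _
    linarith
  · intro t _ x
    have h1 : HasDerivAt (fun t : ℝ => (qf M x + t * qf N x) / 2) (qf N x / 2) t := by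
      have := (((hasDerivAt_id t).mul_const (qf N x)).const_add (qf M x)).div_const 2
      simpa using this
    refine h1.congr_of_eventuallyEq (Filter.Eventually.of_forall fun t => ?_)
    simp only [qf_add_smul]

end Pool.Agent.Work.MP_8d2b2d_co.PL
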