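import Pool.Agent.Work.MP_8d2b2d_co.PL.Rec

/-!
# Monotonicity of `V` and the bound of the moment
-/

set_option autoImplicit false
set_option linter.unusedSectionVars false

namespace Pool.Agent.Work.MP_8d2b2d_co.PL

open MeasureTheory Matrix Finset MvPolynomial
open scoped Topology MatrixOrder

variable {ι : Type*} [Fintype ι] [DecidableEq ι]

/-- the functional `V` -/
noncomputable def VV (M : Matrix ι ι ℝ) (a : ℂ) : ℝ :=
  ∑ S : Finset ι, (pad M S).det * (‖a‖ ^ S.card)⁻¹ * ‖mom M a (xS S)‖ ^ 2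

lemma qp_vecMulVec (v : ι → ℝ) (p : MvPolynomial ι ℝ) :
    qp (vecMulVec v v) * p = lin v * (lin v * p) := by
  have h : qp (vecMulVec v v) = lin v * lin v := by
    rw [qp, lin, Finset.sum_mul]
    refine Finset.sum_congr rfl fun i _ => ?_
    rw [Finset.mul_sum]
    refine Finset.sum_congr rfl fun j _ => ?_
    rw [vecMulVec_apply, C_mul]
    ring
  rw [h, mul_assoc]

lemma pad_add_smul (A : Matrix ι ι ℝ) (v : ι → ℝ) (t : ℝ) (S : Finset ι) :
    pad (A + t • vecMulVec v v) S =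
      pad A S + replicateCol Unit (t • res v S) * replicateRow Unit (res v S) := by
  ext i j
  rw [Matrix.add_apply, Matrix.mul_apply]
  simp only [pad, Matrix.of_apply, Matrix.add_apply, Matrix.smul_apply, vecMulVec_apply,
    replicateCol_apply, replicateRow_apply, Finset.univ_unique, Finset.sum_singleton, res,
    Pi.smul_apply, smul_eq_mul]
  by_cases hi : i ∈ S <;> by_cases hj : j ∈ S <;> simp [hi, hj]
  ring

lemma det_line {A : Matrix ι ι ℝ} (hA : A.PosDef) (v : ι → ℝ) (t : ℝ) (S : Finset ι) :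
    (pad (A + t • vecMulVec v v) S).det =
      (pad A S).det * (1 + t * ∑ i ∈ S, v i * al A v S i) := by
  have hu : IsUnit (pad A S).det := isUnit_iff_ne_zero.2 (pad_det_pos hA S).ne'
  rw [pad_add_smul, det_add_replicateCol_mul_replicateRow hu]
  congr 1
  rw [Matrix.det_unique, Matrix.add_apply, Matrix.one_apply_eq]
  congr 1
  rw [Matrix.mul_assoc, Matrix.mul_apply]
  have h1 : ∀ i, ((pad A S)⁻¹ * replicateCol Unit (t • res v S)) i default =
      t * al A v S i := by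
    intro i
    rw [al, Matrix.mul_apply, Matrix.mulVec, dotProduct, Finset.mul_sum]
    refine Finset.sum_congr rfl fun j _ => ?_
    rw [replicateCol_apply, Pi.smul_apply, smul_eq_mul]
    ring
  simp only [h1, replicateRow_apply]
  rw [Finset.mul_sum, ← Finset.sum_subset (Finset.subset_univ S)]
  · refine Finset.sum_congr rfl fun i hi => ?_
    simp only [res, if_pos hi]
    ring
  · intro i _ hi
    simp [res, hi]

lemma vecMulVec_self_posSemidef (v : ι → ℝ) : (vecMulVec v v).PosSemidef := by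
  have := Matrix.posSemidef_vecMulVec_self_star v
  simpa using this

lemma posDef_add_smul {M : Matrix ι ι ℝ} (hM : M.PosDef) (v : ι → ℝ) {t : ℝ} (ht : 0 ≤ t) :
    (M + t • vecMulVec v v).PosDef :=
  hM.add_posSemidef ((vecMulVec_self_posSemidef v).smul ht)

/-- derivative of `V` along a rank one perturbation -/
theorem VV_hasDerivAt {M : Matrix ι ι ℝ} (hM : M.PosDef) (v : ι → ℝ) {a : ℂ} (ha : a.re < 0)
    {t₀ : ℝ} (ht₀ : 0 ≤ t₀) :
    ∃ d : ℝ, d ≤ 0 ∧ HasDerivAt (fun t : ℝ => VV (M + t • vecMulVec v v) a) d t₀ := by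
  set A := M + t₀ • vecMulVec v v with hA
  have hAp : A.PosDef := posDef_add_smul hM v ht₀
  have ha0 : a ≠ 0 := by rintro rfl; simp at ha
  have hrec := mom_rec hAp ha
  have hkey := key hAp ha0 hrec v
  simp only [momL_apply] at hkey
  set T : ℝ := ∑ U : Finset ι, (pad A U).det * (‖a‖ ^ (U.card + 1))⁻¹ *
    ‖mom A a (lin v * xS U)‖ ^ 2 with hT
  have hT0 : 0 ≤ T := Finset.sum_nonneg fun U _ =>
    mul_nonneg (mul_nonneg (pad_det_pos hAp U).le (by positivity)) (by positivity)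
  have hterm : ∀ S : Finset ι, HasDerivAt (fun t : ℝ => (pad (M + t • vecMulVec v v) S).det *
      (‖a‖ ^ S.card)⁻¹ * ‖mom (M + t • vecMulVec v v) a (xS S)‖ ^ 2)
      (-((((pad A S).det : ℂ) * ((‖a‖ : ℂ) ^ S.card)⁻¹ *
      ((starRingEnd ℂ) (mom A a (xS S)) *
        (mom A a (lin v * (lin v * xS S)) - (∑ i ∈ S, (v i : ℂ) * (al A v S i : ℂ)) *
          mom A a (xS S)))).re)) t₀ := by
    intro S
    have h1 : HasDerivAt (fun t : ℝ => (pad (M + t • vecMulVec v v) S).det)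
        ((pad A S).det * ∑ i ∈ S, v i * al A v S i) t₀ := by
      have h2 : ∀ t : ℝ, (pad (M + t • vecMulVec v v) S).det =
          (pad A S).det * (1 + (t - t₀) * ∑ i ∈ S, v i * al A v S i) := by
        intro t
        rw [← det_line hAp v (t - t₀) S, hA, add_assoc, ← add_smul]
        congr 4
        ring
      have h3 : HasDerivAt (fun t : ℝ => (pad A S).det *
          (1 + (t - t₀) * ∑ i ∈ S, v i * al A v S i))
          ((pad A S).det * ∑ i ∈ S, v i * al A v S i) t₀ := by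
        have h4 := ((((hasDerivAt_id t₀).sub_const t₀).mul_const
          (∑ i ∈ S, v i * al A v S i)).const_add 1).const_mul (pad A S).det
        refine h4.congr_deriv ?_
        simp
      exact h3.congr_of_eventuallyEq (Filter.Eventually.of_forall h2)
    have h5 := (mom_hasDerivAt M (vecMulVec v v) hAp ha (xS S)).norm_sq
    have h6 := (h1.mul_const ((‖a‖ ^ S.card)⁻¹)).mul h5
    refine h6.congr_deriv ?_
    rw [← hA, Complex.inner, qp_vecMulVec]
    have h7 : ((pad A S).det : ℂ) * ((‖a‖ : ℂ) ^ S.card)⁻¹ =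
        (((pad A S).det * (‖a‖ ^ S.card)⁻¹ : ℝ) : ℂ) := by push_cast; rfl
    have h8 : (∑ i ∈ S, (v i : ℂ) * (al A v S i : ℂ)) = ((∑ i ∈ S, v i * al A v S i : ℝ) : ℂ) := by
      push_cast; rfl
    rw [h7, h8, Complex.re_ofReal_mul, mul_sub, Complex.sub_re]
    have h9 : ((starRingEnd ℂ) (mom A a (xS S)) *
        (((∑ i ∈ S, v i * al A v S i : ℝ) : ℂ) * mom A a (xS S))).re =
        (∑ i ∈ S, v i * al A v S i) * ‖mom A a (xS S)‖ ^ 2 := by
      have : (starRingEnd ℂ) (mom A a (xS S)) *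
        (((∑ i ∈ S, v i * al A v S i : ℝ) : ℂ) * mom A a (xS S)) =
        ((∑ i ∈ S, v i * al A v S i : ℝ) : ℂ) *
          (mom A a (xS S) * (starRingEnd ℂ) (mom A a (xS S))) := by ring
      rw [this, Complex.re_ofReal_mul, Complex.mul_conj, Complex.normSq_eq_norm_sq,
        Complex.ofReal_re]
    rw [h9]
    have h10 : (-(1 / 2 : ℂ) * mom A a (lin v * (lin v * xS S)) *
        (starRingEnd ℂ) (mom A a (xS S))).re =
        -(1 / 2) * ((starRingEnd ℂ) (mom A a (xS S)) * mom A a (lin v * (lin v * xS S))).re := by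
      have : -(1 / 2 : ℂ) * mom A a (lin v * (lin v * xS S)) *
        (starRingEnd ℂ) (mom A a (xS S)) = ((-(1 / 2) : ℝ) : ℂ) *
        ((starRingEnd ℂ) (mom A a (xS S)) * mom A a (lin v * (lin v * xS S))) := by
        push_cast; ring
      rw [this, Complex.re_ofReal_mul]
    rw [h10]
    ring
  refine ⟨a.re * T, mul_nonpos_of_nonpos_of_nonneg ha.le hT0, ?_⟩
  have hsum := HasDerivAt.fun_sum (u := Finset.univ) (fun S _ => hterm S)
  refine hsum.congr_deriv ?_
  rw [Finset.sum_neg_distrib, ← Complex.re_sum, hkey]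
  have h11 : ∑ U : Finset ι, ((pad A U).det : ℂ) * ((‖a‖ : ℂ) ^ (U.card + 1))⁻¹ *
      (mom A a (lin v * xS U) * (starRingEnd ℂ) (mom A a (lin v * xS U))) = (T : ℂ) := by
    rw [hT]
    push_cast
    refine Finset.sum_congr rfl fun U _ => ?_
    rw [Complex.mul_conj, Complex.normSq_eq_norm_sq]
    push_cast
    rfl
  rw [h11, Complex.re_mul_ofReal, Complex.neg_re]
  ring

theorem VV_add_le {M : Matrix ι ι ℝ} (hM : M.PosDef) (v : ι → ℝ) {a : ℂ} (ha : a.re < 0) :
    VV (M + vecMulVec v v) a ≤ VV M a := by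
  have h := fun (t : ℝ) (ht : 0 ≤ t) => VV_hasDerivAt hM v ha ht
  have hanti : AntitoneOn (fun t : ℝ => VV (M + t • vecMulVec v v) a) (Set.Icc 0 1) := by
    refine antitoneOn_of_deriv_nonpos (convex_Icc 0 1) ?_ ?_ ?_
    · intro t ht
      obtain ⟨d, _, hd⟩ := h t ht.1
      exact hd.continuousAt.continuousWithinAt
    · intro t ht
      rw [interior_Icc] at ht
      obtain ⟨d, _, hd⟩ := h t ht.1.le
      exact hd.differentiableAt.differentiableWithinAt
    · intro t ht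
      rw [interior_Icc] at ht
      obtain ⟨d, hd0, hd⟩ := h t ht.1.le
      rw [hd.deriv]
      exact hd0
  have h2 := hanti (Set.left_mem_Icc.2 zero_le_one) (Set.right_mem_Icc.2 zero_le_one) zero_le_one
  simpa using h2

theorem VV_add_sum_le {κ : Type*} {M : Matrix ι ι ℝ} (hM : M.PosDef) (s : Finset κ)
    (w : κ → ι → ℝ) {a : ℂ} (ha : a.re < 0) :
    (M + ∑ k ∈ s, vecMulVec (w k) (w k)).PosDef ∧
      VV (M + ∑ k ∈ s, vecMulVec (w k) (w k)) a ≤ VV M a := by
  classical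
  induction s using Finset.induction_on with
  | empty => simpa using hM
  | insert k s hk ih =>
    rw [Finset.sum_insert hk, add_comm (vecMulVec _ _), ← add_assoc]
    exact ⟨ih.1.add_posSemidef (vecMulVec_self_posSemidef _), (VV_add_le ih.1 (w k) ha).trans ih.2⟩

/-- one dimensional constant -/
noncomputable def J1 (a : ℂ) : ℂ :=
  ∫ x : ℝ, ((|x| : ℝ) : ℂ) ^ (-1 - a) * (Real.exp (-(x ^ 2 / 2)) : ℂ)

lemma J1_scale (a : ℂ) {c : ℝ} (hc : 0 < c) :
    ∫ x : ℝ, ((|x| : ℝ) : ℂ) ^ (-1 - a) * (Real.exp (-(c * x ^ 2 / 2)) : ℂ) =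
      ((√c : ℝ) : ℂ) ^ a * J1 a := by
  have hs : 0 < √c := Real.sqrt_pos.2 hc
  have hsC : ((√c : ℝ) : ℂ) ≠ 0 := by rw [Ne, Complex.ofReal_eq_zero]; exact hs.ne'
  have h1 := Measure.integral_comp_mul_left
    (fun x : ℝ => ((|x| : ℝ) : ℂ) ^ (-1 - a) * (Real.exp (-(x ^ 2 / 2)) : ℂ)) (√c)
  have h2 : ∀ x : ℝ, ((|√c * x| : ℝ) : ℂ) ^ (-1 - a) * (Real.exp (-((√c * x) ^ 2 / 2)) : ℂ) =
      ((√c : ℝ) : ℂ) ^ (-1 - a) *
        (((|x| : ℝ) : ℂ) ^ (-1 - a) * (Real.exp (-(c * x ^ 2 / 2)) : ℂ)) := by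
    intro x
    rw [abs_mul, abs_of_pos hs, Complex.ofReal_mul,
      Complex.mul_cpow_ofReal_nonneg hs.le (abs_nonneg _), mul_pow, Real.sq_sqrt hc.le, mul_assoc]
  simp only [h2] at h1
  rw [integral_const_mul, abs_of_pos (inv_pos.2 hs), Complex.real_smul] at h1
  have h3 : ((√c : ℝ) : ℂ) ^ (1 + a) * ((√c : ℝ) : ℂ) ^ (-1 - a) = 1 := by
    rw [← Complex.cpow_add _ _ hsC]
    have : 1 + a + (-1 - a) = 0 := by ring
    rw [this, Complex.cpow_zero]
  have h4 : ((√c : ℝ) : ℂ) ^ (1 + a) * (((√c)⁻¹ : ℝ) : ℂ) = ((√c : ℝ) : ℂ) ^ a := by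
    rw [Complex.cpow_add _ _ hsC, Complex.cpow_one, Complex.ofReal_inv]
    field_simp
  calc ∫ x : ℝ, ((|x| : ℝ) : ℂ) ^ (-1 - a) * (Real.exp (-(c * x ^ 2 / 2)) : ℂ)
      = ((√c : ℝ) : ℂ) ^ (1 + a) * (((√c : ℝ) : ℂ) ^ (-1 - a) *
          ∫ x : ℝ, ((|x| : ℝ) : ℂ) ^ (-1 - a) * (Real.exp (-(c * x ^ 2 / 2)) : ℂ)) := by
        rw [← mul_assoc, h3, one_mul]
    _ = ((√c : ℝ) : ℂ) ^ (1 + a) * ((((√c)⁻¹ : ℝ) : ℂ) * J1 a) := by rw [h1]; rfl
    _ = _ := by rw [← mul_assoc, h4]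

lemma qf_smul_one (c : ℝ) (x : ι → ℝ) : qf (c • (1 : Matrix ι ι ℝ)) x = ∑ i, c * x i ^ 2 := by
  rw [qf, Matrix.smul_mulVec, Matrix.one_mulVec, dotProduct_smul, dotProduct, smul_eq_mul,
    Finset.mul_sum]
  refine Finset.sum_congr rfl fun i _ => ?_
  ring

lemma mom_smul_one (a : ℂ) (c : ℝ) (S : Finset ι) :
    mom (c • (1 : Matrix ι ι ℝ)) a (xS S) = ∏ i : ι, ∫ x : ℝ,
      (((|x| : ℝ) : ℂ) ^ (-1 - a) * (if i ∈ S then (x : ℂ) else 1) *
        (Real.exp (-(c * x ^ 2 / 2)) : ℂ)) := by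
  rw [← integral_fintype_prod_volume_eq_prod (fun (i : ι) (x : ℝ) =>
    (((|x| : ℝ) : ℂ) ^ (-1 - a) * (if i ∈ S then (x : ℂ) else 1) *
        (Real.exp (-(c * x ^ 2 / 2)) : ℂ))), mom]
  congr 1
  funext x
  rw [Finset.prod_mul_distrib, Finset.prod_mul_distrib, wgt]
  congr 1
  · congr 1
    rw [xS, map_prod, ← Finset.prod_subset (Finset.subset_univ S)]
    · push_cast
      refine Finset.prod_congr rfl fun i hi => ?_
      rw [eval_X, if_pos hi]
    · intro i _ hi
      rw [if_neg hi]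
  · rw [qf_smul_one, ← Complex.ofReal_prod, ← Real.exp_sum]
    congr 2
    rw [Finset.sum_neg_distrib, Finset.sum_div]

lemma mom_smul_one_eq_zero (a : ℂ) (c : ℝ) {S : Finset ι} (hS : S.Nonempty) :
    mom (c • (1 : Matrix ι ι ℝ)) a (xS S) = 0 := by
  obtain ⟨i, hi⟩ := hS
  rw [mom_smul_one]
  refine Finset.prod_eq_zero (Finset.mem_univ i) ?_
  simp only [if_pos hi]
  set f : ℝ → ℂ := fun x => ((|x| : ℝ) : ℂ) ^ (-1 - a) * (x : ℂ) *
        (Real.exp (-(c * x ^ 2 / 2)) : ℂ) with hf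
  have h1 : ∫ x, f (-x) = ∫ x, f x := integral_neg_eq_self f volume
  have h2 : ∀ x, f (-x) = -f x := by
    intro x
    simp only [hf]
    rw [abs_neg, neg_sq]
    push_cast
    ring
  simp only [h2] at h1
  rw [integral_neg] at h1
  have h3 : (2 : ℂ) * ∫ x, f x = 0 := by linear_combination -h1
  exact (mul_eq_zero.1 h3).resolve_left two_ne_zero

/-- the bound of the moment -/
theorem mom_le {M : Matrix ι ι ℝ} (hM : M.PosDef) :
    ∃ c : ℝ, 0 < c ∧ ∀ a : ℂ, a.re < 0 →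
      ‖mom M a 1‖ ≤ (√c ^ a.re * ‖J1 a‖) ^ Fintype.card ι := by
  obtain ⟨c, hc, h⟩ := exists_lower hM
  have hsymm : ∀ i j, M i j = M j i := fun i j => by
    have := hM.isHermitian.apply i j
    simpa using this.symm
  set N : Matrix ι ι ℝ := M - c • (1 : Matrix ι ι ℝ) with hN
  have hNp : N.PosSemidef := by
    refine Matrix.PosSemidef.of_dotProduct_mulVec_nonneg ?_ ?_
    · ext i j
      simp only [hN, Matrix.conjTranspose_apply, Matrix.sub_apply, Matrix.smul_apply,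
        star_trivial, Matrix.one_apply, hsymm j i]
      congr 2
      by_cases hij : i = j
      · subst hij; rfl
      · rw [if_neg hij, if_neg (fun h => hij h.symm)]
    · intro x
      rw [star_trivial, hN, Matrix.sub_mulVec, dotProduct_sub]
      have h1 := h x
      have h2 := qf_smul_one c x
      rw [qf] at h2
      rw [h2, ← Finset.mul_sum]
      have : x ⬝ᵥ (M *ᵥ x) = qf M x := rfl
      rw [this]
      linarith
  obtain ⟨B, hB⟩ := CStarAlgebra.nonneg_iff_eq_star_mul_self.mp hNp.nonneg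
  have hN2 : N = ∑ k, vecMulVec (B k) (B k) := by
    rw [hB]
    ext i j
    rw [Matrix.star_eq_conjTranspose, Matrix.mul_apply, Matrix.sum_apply]
    refine Finset.sum_congr rfl fun k _ => ?_
    rw [Matrix.conjTranspose_apply, star_trivial, vecMulVec_apply]
  have hc1 : (c • (1 : Matrix ι ι ℝ)).PosDef := Matrix.PosDef.one.smul hc
  refine ⟨c, hc, fun a ha => ?_⟩
  have h3 := (VV_add_sum_le hc1 Finset.univ (fun k => B k) ha).2
  rw [← hN2, hN, add_sub_cancel] at h3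
  have h4 : VV (c • (1 : Matrix ι ι ℝ)) a = ‖mom (c • (1 : Matrix ι ι ℝ)) a (xS ∅)‖ ^ 2 := by
    rw [VV, Finset.sum_eq_single ∅]
    · have : (pad (c • (1 : Matrix ι ι ℝ)) ∅) = 1 := by
        ext i j
        simp [pad, Matrix.one_apply]
      rw [this, Matrix.det_one, Finset.card_empty, pow_zero, inv_one, one_mul, one_mul]
    · intro S _ hS
      rw [mom_smul_one_eq_zero a c (Finset.nonempty_iff_ne_empty.2 hS), norm_zero]
      simp
    · intro h
      exact absurd (Finset.mem_univ _) h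
  have h5 : ‖mom M a (xS ∅)‖ ^ 2 ≤ VV M a := by
    have h6 : (pad M ∅).det * (‖a‖ ^ (∅ : Finset ι).card)⁻¹ * ‖mom M a (xS ∅)‖ ^ 2 =
        ‖mom M a (xS ∅)‖ ^ 2 := by
      have : (pad M ∅) = 1 := by
        ext i j
        simp [pad, Matrix.one_apply]
      rw [this, Matrix.det_one, Finset.card_empty, pow_zero, inv_one, one_mul, one_mul]
    rw [← h6]
    exact Finset.single_le_sum (f := fun S : Finset ι => (pad M S).det * (‖a‖ ^ S.card)⁻¹ *
      ‖mom M a (xS S)‖ ^ 2) (fun S _ => mul_nonneg (mul_nonneg (pad_det_pos hM S).le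
      (by positivity)) (by positivity)) (Finset.mem_univ _)
  have hx0 : (xS (∅ : Finset ι) : MvPolynomial ι ℝ) = 1 := by rw [xS, Finset.prod_empty]
  have h7 : ‖mom M a 1‖ ≤ ‖mom (c • (1 : Matrix ι ι ℝ)) a (xS ∅)‖ := by
    rw [hx0] at h5 
    have h8 := (h5.trans h3).trans_eq h4
    exact (sq_le_sq₀ (norm_nonneg _) (norm_nonneg _)).1 h8
  refine h7.trans_eq ?_
  rw [mom_smul_one]
  have h9 : ∀ i : ι, (∫ x : ℝ,
      (((|x| : ℝ) : ℂ) ^ (-1 - a) * (if i ∈ (∅ : Finset ι) then (x : ℂ) else 1) *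
        (Real.exp (-(c * x ^ 2 / 2)) : ℂ))) = ((√c : ℝ) : ℂ) ^ a * J1 a := by
    intro i
    rw [← J1_scale a hc]
    congr 1
    funext x
    simp
  simp only [h9]
  rw [Finset.prod_const, norm_pow, norm_mul, Finset.card_univ,
    Complex.norm_cpow_eq_rpow_re_of_pos (Real.sqrt_pos.2 hc)]

end Pool.Agent.Work.MP_8d2b2d_co.PL
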