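import Mathlib

/-!
# Padded principal submatrices of a positive definite matrix
-/

set_option autoImplicit false

namespace Pool.Agent.Work.MP_8d2b2d_co.PL

open Matrix Finset

variable {ι : Type*} [Fintype ι] [DecidableEq ι]

/-- the principal submatrix on `S`, padded by the identity -/
def pad (M : Matrix ι ι ℝ) (S : Finset ι) : Matrix ι ι ℝ :=
  Matrix.of fun i j => if i ∈ S ∧ j ∈ S then M i j else if i = j then 1 else 0

/-- restriction of a vector to `S` -/
def res (v : ι → ℝ) (S : Finset ι) : ι → ℝ := fun i => if i ∈ S then v i else 0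

/-- the coefficients `M_S⁻¹ v_S` -/
noncomputable def al (M : Matrix ι ι ℝ) (v : ι → ℝ) (S : Finset ι) : ι → ℝ :=
  (pad M S)⁻¹ *ᵥ res v S

/-- the residual `v - M_{·S} M_S⁻¹ v_S` -/
noncomputable def rr (M : Matrix ι ι ℝ) (v : ι → ℝ) (S : Finset ι) : ι → ℝ :=
  fun l => v l - ∑ i ∈ S, M l i * al M v S i

lemma pad_mulVec_of_mem (M : Matrix ι ι ℝ) (S : Finset ι) (x : ι → ℝ) {i : ι} (hi : i ∈ S) :
    (pad M S *ᵥ x) i = ∑ j ∈ S, M i j * x j := by
  rw [Matrix.mulVec, dotProduct, ← Finset.sum_subset (Finset.subset_univ S)]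
  · refine Finset.sum_congr rfl fun j hj => ?_
    simp [pad, hi, hj]
  · intro j _ hj
    have : i ≠ j := fun h => hj (h ▸ hi)
    simp [pad, hj, this]

lemma pad_mulVec_of_notMem (M : Matrix ι ι ℝ) (S : Finset ι) (x : ι → ℝ) {i : ι} (hi : i ∉ S) :
    (pad M S *ᵥ x) i = x i := by
  rw [Matrix.mulVec, dotProduct]
  simp [pad, hi]

lemma pad_dotProduct (M : Matrix ι ι ℝ) (S : Finset ι) (x : ι → ℝ) :
    x ⬝ᵥ (pad M S *ᵥ x) = res x S ⬝ᵥ (M *ᵥ res x S) + ∑ i ∈ Sᶜ, x i ^ 2 := by
  rw [dotProduct, ← Finset.sum_add_sum_compl S]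
  congr 1
  · rw [dotProduct, ← Finset.sum_add_sum_compl S]
    have h1 : ∑ i ∈ Sᶜ, res x S i * (M *ᵥ res x S) i = 0 := by
      refine Finset.sum_eq_zero fun i hi => ?_
      rw [Finset.mem_compl] at hi
      simp [res, hi]
    rw [h1, add_zero]
    refine Finset.sum_congr rfl fun i hi => ?_
    rw [pad_mulVec_of_mem M S x hi]
    have h2 : (M *ᵥ res x S) i = ∑ j ∈ S, M i j * x j := by
      rw [Matrix.mulVec, dotProduct, ← Finset.sum_subset (Finset.subset_univ S)]
      · refine Finset.sum_congr rfl fun j hj => ?_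
        simp [res, hj]
      · intro j _ hj
        simp [res, hj]
    rw [h2]
    simp [res, hi]
  · refine Finset.sum_congr rfl fun i hi => ?_
    rw [Finset.mem_compl] at hi
    rw [pad_mulVec_of_notMem M S x hi]
    ring

lemma pad_posDef {M : Matrix ι ι ℝ} (hM : M.PosDef) (S : Finset ι) : (pad M S).PosDef := by
  have hsymm : ∀ i j, M i j = M j i := fun i j => by
    have := hM.isHermitian.apply i j
    simpa using this.symm
  refine Matrix.PosDef.of_dotProduct_mulVec_pos ?_ ?_
  · ext i j
    simp only [Matrix.conjTranspose_apply, pad, Matrix.of_apply, star_trivial]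
    by_cases h1 : i ∈ S <;> by_cases h2 : j ∈ S <;> by_cases h3 : i = j
    all_goals simp_all [eq_comm, hsymm j i]
  · intro x hx
    rw [star_trivial, pad_dotProduct]
    by_cases h : res x S = 0
    · have h2 : ∃ i ∈ Sᶜ, x i ≠ 0 := by
        by_contra hcon
        push Not at hcon
        apply hx
        funext i
        by_cases hi : i ∈ S
        · have := congrFun h i
          simpa [res, hi] using this
        · exact hcon i (Finset.mem_compl.2 hi)
      rw [h]
      simp only [Matrix.mulVec_zero, dotProduct_zero, zero_add]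
      obtain ⟨i, hi, hxi⟩ := h2
      exact Finset.sum_pos' (fun j _ => sq_nonneg _) ⟨i, hi, by positivity⟩
    · have h3 := hM.dotProduct_mulVec_pos h
      rw [star_trivial] at h3
      have h4 : 0 ≤ ∑ i ∈ Sᶜ, x i ^ 2 := Finset.sum_nonneg fun i _ => sq_nonneg _
      linarith

lemma pad_det_pos {M : Matrix ι ι ℝ} (hM : M.PosDef) (S : Finset ι) : 0 < (pad M S).det :=
  (pad_posDef hM S).det_pos

lemma pad_mulVec_al {M : Matrix ι ι ℝ} (hM : M.PosDef) (v : ι → ℝ) (S : Finset ι) :
    pad M S *ᵥ al M v S = res v S := by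
  have hu : IsUnit (pad M S).det := isUnit_iff_ne_zero.2 (pad_det_pos hM S).ne'
  rw [al, Matrix.mulVec_mulVec, Matrix.mul_nonsing_inv _ hu, Matrix.one_mulVec]

lemma al_of_notMem {M : Matrix ι ι ℝ} (hM : M.PosDef) (v : ι → ℝ) {S : Finset ι} {i : ι}
    (hi : i ∉ S) : al M v S i = 0 := by
  have h := congrFun (pad_mulVec_al hM v S) i
  rw [pad_mulVec_of_notMem M S _ hi] at h
  rw [h, res, if_neg hi]

lemma sum_al {M : Matrix ι ι ℝ} (hM : M.PosDef) (v : ι → ℝ) {S : Finset ι} {i : ι}
    (hi : i ∈ S) : ∑ j ∈ S, M i j * al M v S j = v i := by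
  have h := congrFun (pad_mulVec_al hM v S) i
  rw [pad_mulVec_of_mem M S _ hi] at h
  rw [h, res, if_pos hi]

lemma rr_of_mem {M : Matrix ι ι ℝ} (hM : M.PosDef) (v : ι → ℝ) {S : Finset ι} {i : ι}
    (hi : i ∈ S) : rr M v S i = 0 := by
  rw [rr, sum_al hM v hi, sub_self]

/-- Cramer: `det M_{U+i} (M_{U+i}⁻¹ v)_i = det M_U r_i` -/
lemma det_mul_al {M : Matrix ι ι ℝ} (hM : M.PosDef) (v : ι → ℝ) {U : Finset ι} {i : ι}
    (hi : i ∉ U) :
    (pad M (insert i U)).det * al M v (insert i U) i = (pad M U).det * rr M v U i := by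
  set M' := pad M (insert i U) with hM'
  set y := al M v U with hy
  have hc : res v (insert i U) = M' *ᵥ y + rr M v U i • Pi.single i (1 : ℝ) := by
    funext k
    rw [Pi.add_apply, Pi.smul_apply, smul_eq_mul]
    by_cases hk : k = i
    · subst hk
      rw [hM', pad_mulVec_of_mem M _ _ (Finset.mem_insert_self _ _), Finset.sum_insert hi,
        hy, al_of_notMem hM v hi]
      simp [res, rr]
    · rw [Pi.single_eq_of_ne hk, mul_zero, add_zero]
      by_cases hkU : k ∈ U
      · rw [hM', pad_mulVec_of_mem M _ _ (Finset.mem_insert_of_mem hkU), Finset.sum_insert hi,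
          hy, al_of_notMem hM v hi, sum_al hM v hkU]
        simp [res, hkU]
      · have hk2 : k ∉ insert i U := by
          rw [Finset.mem_insert]
          exact fun h => h.elim hk hkU
        rw [hM', pad_mulVec_of_notMem M _ _ hk2, hy, al_of_notMem hM v hkU]
        simp [res, hk2]
  have h1 : M'.det * al M v (insert i U) i = M'.cramer (res v (insert i U)) i := by
    have h2 : M'.cramer (M' *ᵥ al M v (insert i U)) = M'.det • al M v (insert i U) := by
      rw [Matrix.cramer_eq_adjugate_mulVec, Matrix.mulVec_mulVec, Matrix.adjugate_mul,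
        Matrix.smul_mulVec, Matrix.one_mulVec]
    rw [← pad_mulVec_al hM v (insert i U), ← hM', h2]
    rfl
  have h3 : M'.cramer (M' *ᵥ y) i = 0 := by
    rw [Matrix.cramer_eq_adjugate_mulVec, Matrix.mulVec_mulVec, Matrix.adjugate_mul,
        Matrix.smul_mulVec, Matrix.one_mulVec, Pi.smul_apply, hy, al_of_notMem hM v hi, smul_zero]
  have h4 : M'.cramer (Pi.single i (1 : ℝ)) i = (pad M U).det := by
    rw [Matrix.cramer_apply]
    set N := M'.updateCol i (Pi.single i 1) with hN
    have h5 : N *ᵥ Pi.single i (1 : ℝ) = Pi.single i 1 := by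
      rw [Matrix.mulVec_single_one]
      ext k
      rw [hN, Matrix.col_apply, Matrix.updateCol_self]
    have h6 : N.adjugate i i = N.det := by
      have h7 : N.adjugate *ᵥ (N *ᵥ Pi.single i (1 : ℝ)) = N.det • Pi.single i 1 := by
        rw [Matrix.mulVec_mulVec, Matrix.adjugate_mul, Matrix.smul_mulVec, Matrix.one_mulVec]
      rw [h5, Matrix.mulVec_single_one] at h7
      have h8 := congrFun h7 i
      rw [Matrix.col_apply, Pi.smul_apply, Pi.single_eq_same, smul_eq_mul, mul_one] at h8
      exact h8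
    rw [← h6, Matrix.adjugate_apply]
    congr 1
    ext k l
    by_cases hk : k = i
    · subst hk
      rw [Matrix.updateRow_self]
      by_cases hl : l = k
      · subst hl
        simp [pad, hi]
      · rw [Pi.single_eq_of_ne hl]
        have : k ≠ l := fun h => hl h.symm
        simp [pad, hi, this]
    · rw [Matrix.updateRow_ne hk, hN]
      by_cases hl : l = i
      · subst hl
        rw [Matrix.updateCol_self, Pi.single_eq_of_ne hk]
        simp [pad, hi, hk]
      · rw [Matrix.updateCol_ne hl, hM']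
        simp [pad, hk, hl]
  rw [h1, hc, map_add, map_smul, Pi.add_apply, h3, zero_add, Pi.smul_apply, h4, smul_eq_mul,
    mul_comm]

end Pool.Agent.Work.MP_8d2b2d_co.PL
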