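import Pool.Agent.Work.MP_8d2b2d_co.PL.Mono

/-!
# The Parseval relation for products of absolute powers of Gaussians
-/

set_option autoImplicit false
set_option linter.unusedSectionVars false

namespace Pool.Agent.Work.MP_8d2b2d_co.PL

open MeasureTheory Matrix Finset MvPolynomial ProbabilityTheory
open scoped Topology

variable {ι : Type*} [Fintype ι] [DecidableEq ι]

lemma wgt_mul (a : ℂ) (y s : ι → ℝ) : wgt a (fun j => y j * s j) = wgt a y * wgt a s := by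
  rw [wgt, wgt, wgt, ← Finset.prod_mul_distrib]
  refine Finset.prod_congr rfl fun j _ => ?_
  rw [abs_mul, Complex.ofReal_mul, Complex.mul_cpow_ofReal_nonneg (abs_nonneg _) (abs_nonneg _)]

lemma prod_abs_mul_wgt (a : ℂ) {y : ι → ℝ} (hy : ∀ j, y j ≠ 0) :
    (∏ j, ((|y j| : ℝ) : ℂ) ^ a) * (((∏ j, |y j| : ℝ) : ℂ) * wgt a y) = 1 := by
  rw [wgt, Complex.ofReal_prod, ← Finset.prod_mul_distrib, ← Finset.prod_mul_distrib]
  refine Finset.prod_eq_one fun j _ => ?_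
  have hj : ((|y j| : ℝ) : ℂ) ≠ 0 := by
    rw [Ne, Complex.ofReal_eq_zero, abs_eq_zero]
    exact hy j
  have h1 : ((|y j| : ℝ) : ℂ) * ((|y j| : ℝ) : ℂ) ^ (-1 - a) = ((|y j| : ℝ) : ℂ) ^ (-a) := by
    rw [show -a = 1 + (-1 - a) by ring, Complex.cpow_add 1 (-1 - a) hj, Complex.cpow_one]
  rw [h1, ← Complex.cpow_add _ _ hj, add_neg_cancel, Complex.cpow_zero]

lemma scale (C : Matrix ι ι ℝ) (a : ℂ) {y : ι → ℝ} (hy : ∀ j, y j ≠ 0) :
    ∫ s : ι → ℝ, wgt a s * (Real.exp (-(qf C (fun j => y j * s j) / 2)) : ℂ) =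
      (∏ j, ((|y j| : ℝ) : ℂ) ^ a) * mom C a 1 := by
  have h1 := integral_diag hy (fun s : ι → ℝ =>
    wgt a s * ((MvPolynomial.eval s (1 : MvPolynomial ι ℝ) : ℝ) : ℂ) *
      (Real.exp (-(qf C s / 2)) : ℂ))
  have h2 : (∫ s : ι → ℝ, wgt a (fun j => y j * s j) *
      ((MvPolynomial.eval (fun j => y j * s j) (1 : MvPolynomial ι ℝ) : ℝ) : ℂ) *
      (Real.exp (-(qf C (fun j => y j * s j) / 2)) : ℂ)) =
      wgt a y * ∫ s : ι → ℝ, wgt a s * (Real.exp (-(qf C (fun j => y j * s j) / 2)) : ℂ) := by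
    rw [← integral_const_mul]
    congr 1
    funext s
    rw [wgt_mul, map_one, Complex.ofReal_one]
    ring
  rw [mom, h1, h2, ← mul_assoc, ← mul_assoc, mul_assoc (∏ j, ((|y j| : ℝ) : ℂ) ^ a),
    prod_abs_mul_wgt a hy, one_mul]

lemma norm_wgt (a : ℂ) {y : ι → ℝ} (hy : ∀ j, y j ≠ 0) :
    (∏ j, |y j| ^ a.re) * ((∏ j, |y j|) * ‖wgt a y‖) = 1 := by
  have h := congrArg norm (prod_abs_mul_wgt a hy)
  rw [norm_mul, norm_mul, norm_one, norm_prod, Complex.norm_real,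
    Real.norm_of_nonneg (Finset.prod_nonneg fun j _ => abs_nonneg _)] at h
  rw [← h]
  congr 1
  refine Finset.prod_congr rfl fun j _ => ?_
  rw [Complex.norm_cpow_eq_rpow_re_of_pos (abs_pos.2 (hy j))]

lemma scale_norm (C : Matrix ι ι ℝ) (a : ℂ) {y : ι → ℝ} (hy : ∀ j, y j ≠ 0) :
    ∫ s : ι → ℝ, ‖wgt a s * (Real.exp (-(qf C (fun j => y j * s j) / 2)) : ℂ)‖ =
      (∏ j, |y j| ^ a.re) * ∫ s : ι → ℝ, ‖wgt a s * (Real.exp (-(qf C s / 2)) : ℂ)‖ := by
  have h1 := integral_diag' hy (fun s : ι → ℝ => ‖wgt a s * (Real.exp (-(qf C s / 2)) : ℂ)‖)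
  have h2 : (∫ s : ι → ℝ, ‖wgt a (fun j => y j * s j) *
      (Real.exp (-(qf C (fun j => y j * s j) / 2)) : ℂ)‖) =
      ‖wgt a y‖ * ∫ s : ι → ℝ, ‖wgt a s *
        (Real.exp (-(qf C (fun j => y j * s j) / 2)) : ℂ)‖ := by
    rw [← integral_const_mul]
    congr 1
    funext s
    rw [wgt_mul, mul_assoc, norm_mul (wgt a y)]
  rw [h1, h2, smul_eq_mul, ← mul_assoc, ← mul_assoc, mul_assoc (∏ j, |y j| ^ a.re),
    norm_wgt a hy, one_mul]

lemma integrable_scaled {C : Matrix ι ι ℝ} (hC : C.PosDef) {a : ℂ} (ha : a.re < 0) {y : ι → ℝ}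
    (hy : ∀ j, y j ≠ 0) : Integrable fun s : ι → ℝ =>
      wgt a s * (Real.exp (-(qf C (fun j => y j * s j) / 2)) : ℂ) := by
  obtain ⟨c, hc, h⟩ := exists_lower hC
  have hb : ∀ j, (∏ k, min 1 (y k ^ 2)) ≤ y j ^ 2 := by
    intro j
    rw [← Finset.mul_prod_erase _ _ (Finset.mem_univ j)]
    have h1 : ∏ k ∈ univ.erase j, min 1 (y k ^ 2) ≤ 1 :=
      Finset.prod_le_one (fun k _ => le_min zero_le_one (sq_nonneg _)) fun k _ => min_le_left _ _
    have h2 : 0 ≤ min 1 (y j ^ 2) := le_min zero_le_one (sq_nonneg _)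
    calc min 1 (y j ^ 2) * ∏ k ∈ univ.erase j, min 1 (y k ^ 2) ≤ min 1 (y j ^ 2) * 1 :=
          mul_le_mul_of_nonneg_left h1 h2
      _ ≤ _ := by rw [mul_one]; exact min_le_right _ _
  have hb0 : 0 < ∏ k, min 1 (y k ^ 2) := by
    refine Finset.prod_pos fun k _ => lt_min one_pos ?_
    have := hy k
    positivity
  refine WB.integrable (s := -1 - a.re) (by linarith) (WB_wgt a)
    (Q := fun s => qf C (fun j => y j * s j) / 2) ?_
    (c := c / 2 * ∏ k, min 1 (y k ^ 2)) (by positivity) fun s => ?_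
  · exact ((PBd.qf C).1.comp (measurable_pi_lambda _ fun j =>
      (measurable_pi_apply j).const_mul _)).div_const 2
  · have h1 := h (fun j => y j * s j)
    have h2 : (∏ k, min 1 (y k ^ 2)) * ∑ j, s j ^ 2 ≤ ∑ j, (y j * s j) ^ 2 := by
      rw [Finset.mul_sum]
      refine Finset.sum_le_sum fun j _ => ?_
      rw [mul_pow]
      exact mul_le_mul_of_nonneg_right (hb j) (sq_nonneg _)
    have h3 := mul_le_mul_of_nonneg_left h2 hc.le
    show c / 2 * (∏ k, min 1 (y k ^ 2)) * ∑ j, s j ^ 2 ≤ qf C (fun j => y j * s j) / 2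
    linarith

variable {Ω : Type*} [MeasurableSpace Ω]

lemma swap_integrable {P : Measure Ω} [IsProbabilityMeasure P] {Y : ι → Ω → ℝ}
    (hYm : ∀ i, Measurable (Y i)) (hY0 : ∀ i, ∀ᵐ ω ∂P, Y i ω ≠ 0) {C : Matrix ι ι ℝ}
    (hC : C.PosDef) {a : ℂ} (ha : a.re < 0)
    (hint : Integrable (fun ω => ∏ i, |Y i ω| ^ a.re) P) :
    Integrable (Function.uncurry fun (ω : Ω) (s : ι → ℝ) =>
      wgt a s * (Real.exp (-(qf C (fun j => Y j ω * s j) / 2)) : ℂ)) (P.prod volume) := by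
  have hm : Measurable (Function.uncurry fun (ω : Ω) (s : ι → ℝ) =>
      wgt a s * (Real.exp (-(qf C (fun j => Y j ω * s j) / 2)) : ℂ)) := by
    refine ((measurable_wgt a).comp measurable_snd).mul
      (Complex.measurable_ofReal.comp (Real.measurable_exp.comp ?_))
    refine Measurable.neg (Measurable.div_const ?_ 2)
    exact (PBd.qf C).1.comp (measurable_pi_lambda _ fun j =>
      ((hYm j).comp measurable_fst).mul ((measurable_pi_apply j).comp measurable_snd))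
  have hY : ∀ᵐ ω ∂P, ∀ i, Y i ω ≠ 0 := ae_all_iff.2 hY0
  rw [integrable_prod_iff hm.aestronglyMeasurable]
  refine ⟨?_, ?_⟩
  · filter_upwards [hY] with ω hω
    simp only [Function.uncurry_apply_pair]
    exact integrable_scaled hC ha (y := fun j => Y j ω) hω
  · refine (hint.mul_const (∫ s : ι → ℝ, ‖wgt a s * (Real.exp (-(qf C s / 2)) : ℂ)‖)).congr ?_
    filter_upwards [hY] with ω hω
    simp only [Function.uncurry_apply_pair]
    rw [scale_norm C a (y := fun j => Y j ω) hω]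

lemma swap {P : Measure Ω} [IsProbabilityMeasure P] {Y : ι → Ω → ℝ}
    (hYm : ∀ i, Measurable (Y i)) (hY0 : ∀ i, ∀ᵐ ω ∂P, Y i ω ≠ 0) {C : Matrix ι ι ℝ}
    (hC : C.PosDef) {a : ℂ} (ha : a.re < 0)
    (hint : Integrable (fun ω => ∏ i, |Y i ω| ^ a.re) P) :
    ∫ s : ι → ℝ, wgt a s * ∫ ω, (Real.exp (-(qf C (fun j => Y j ω * s j) / 2)) : ℂ) ∂P =
      mom C a 1 * ∫ ω, ∏ i, ((|Y i ω| : ℝ) : ℂ) ^ a ∂P := by
  have h1 := integral_integral_swap (swap_integrable hYm hY0 hC ha hint)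
  have hY : ∀ᵐ ω ∂P, ∀ i, Y i ω ≠ 0 := ae_all_iff.2 hY0
  have h2 : ∀ s : ι → ℝ, wgt a s * ∫ ω, (Real.exp (-(qf C (fun j => Y j ω * s j) / 2)) : ℂ) ∂P =
      ∫ ω, wgt a s * (Real.exp (-(qf C (fun j => Y j ω * s j) / 2)) : ℂ) ∂P := fun s => by
    rw [integral_const_mul]
  simp only [h2]
  rw [← h1, ← integral_const_mul]
  refine integral_congr_ae ?_
  filter_upwards [hY] with ω hω
  rw [scale C a hω, mul_comm]

/-- the standard Gaussian measure on `ι → ℝ` -/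
noncomputable abbrev gP (ι : Type*) [Fintype ι] : Measure (ι → ℝ) :=
  Measure.pi fun _ : ι => gaussianReal 0 1

lemma charFun_gP (t : ι → ℝ) :
    ∫ x : ι → ℝ, Complex.exp (((∑ i, t i * x i : ℝ) : ℂ) * Complex.I) ∂(gP ι) =
      (Real.exp (-((∑ i, t i ^ 2) / 2)) : ℂ) := by
  have h1 : ∀ x : ι → ℝ, Complex.exp (((∑ i, t i * x i : ℝ) : ℂ) * Complex.I) =
      ∏ i, Complex.exp ((t i : ℂ) * (x i : ℂ) * Complex.I) := by
    intro x
    rw [← Complex.exp_sum]
    congr 1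
    push_cast
    rw [Finset.sum_mul]
  simp only [h1]
  rw [integral_fintype_prod_eq_prod (fun (i : ι) (x : ℝ) =>
    Complex.exp ((t i : ℂ) * (x : ℂ) * Complex.I))]
  have h2 : ∀ i, ∫ x : ℝ, Complex.exp ((t i : ℂ) * (x : ℂ) * Complex.I) ∂(gaussianReal 0 1) =
      (Real.exp (-(t i ^ 2 / 2)) : ℂ) := by
    intro i
    rw [← charFun_apply_real, charFun_gaussianReal]
    push_cast
    congr 1
    ring
  simp only [h2]
  rw [← Complex.ofReal_prod, ← Real.exp_sum]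
  congr 2
  rw [Finset.sum_neg_distrib, Finset.sum_div]

/-- characteristic function hypothesis -/
def HasCF (P : Measure Ω) (X : ι → Ω → ℝ) (C : Matrix ι ι ℝ) : Prop :=
  ∀ ξ : ι → ℝ, ∫ ω, Complex.exp (((∑ i, ξ i * X i ω : ℝ) : ℂ) * Complex.I) ∂P =
    (Real.exp (-(qf C ξ / 2)) : ℂ)

lemma qf_one (x : ι → ℝ) : qf (1 : Matrix ι ι ℝ) x = ∑ i, x i ^ 2 := by
  have := qf_smul_one (ι := ι) 1 x
  simpa using this

lemma exchange {P : Measure Ω} [IsProbabilityMeasure P] {X : ι → Ω → ℝ}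
    (hXm : ∀ i, Measurable (X i)) {C : Matrix ι ι ℝ} (hch : HasCF P X C) (s : ι → ℝ) :
    ∫ ω, (Real.exp (-(qf (1 : Matrix ι ι ℝ) (fun j => X j ω * s j) / 2)) : ℂ) ∂P =
      ∫ x : ι → ℝ, (Real.exp (-(qf C (fun j => x j * s j) / 2)) : ℂ) ∂(gP ι) := by
  have h1 : ∀ ω, (Real.exp (-(qf (1 : Matrix ι ι ℝ) (fun j => X j ω * s j) / 2)) : ℂ) =
      ∫ x : ι → ℝ, Complex.exp (((∑ i, (X i ω * s i) * x i : ℝ) : ℂ) * Complex.I) ∂(gP ι) := by
    intro ω
    rw [charFun_gP, qf_one]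
  have h2 : ∀ x : ι → ℝ, (Real.exp (-(qf C (fun j => x j * s j) / 2)) : ℂ) =
      ∫ ω, Complex.exp (((∑ i, (X i ω * s i) * x i : ℝ) : ℂ) * Complex.I) ∂P := by
    intro x
    rw [← hch]
    congr 1
    funext ω
    congr 4
    funext i
    ring
  simp only [h1, h2]
  refine integral_integral_swap ?_
  refine (integrable_const (1 : ℝ)).mono' ?_ (ae_of_all _ fun p => ?_)
  · refine Measurable.aestronglyMeasurable ?_
    refine Complex.measurable_exp.comp (Measurable.mul_const (Complex.measurable_ofReal.comp ?_) _)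
    refine Finset.measurable_sum _ fun i _ => ?_
    exact (((hXm i).comp measurable_fst).mul_const _).mul
      ((measurable_pi_apply i).comp measurable_snd)
  · show ‖Complex.exp _‖ ≤ 1
    rw [Complex.norm_exp_ofReal_mul_I]

/-- one dimensional moment -/
noncomputable def g1 (a : ℂ) : ℂ := ∫ x : ℝ, ((|x| : ℝ) : ℂ) ^ a ∂(gaussianReal 0 1)

lemma integrable_abs_rpow_gaussian {r : ℝ} (hr : -1 < r) :
    Integrable (fun x : ℝ => |x| ^ r) (gaussianReal 0 1) := by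
  rw [gaussianReal_of_var_ne_zero 0 one_ne_zero]
  rw [integrable_withDensity_iff_integrable_smul' (measurable_gaussianPDF 0 1)
    (ae_of_all _ fun x => gaussianPDF_lt_top)]
  refine ((integrable_abs_rpow hr (b := 1 / 2) (by norm_num)).const_mul
    ((√(2 * Real.pi))⁻¹)).congr (ae_of_all _ fun x => ?_)
  simp only [toReal_gaussianPDF, gaussianPDFReal, smul_eq_mul, NNReal.coe_one, mul_one, sub_zero]
  have : -(1 / 2) * x ^ 2 = -x ^ 2 / 2 := by ring
  rw [this]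
  ring

lemma gP_ne_zero (i : ι) : ∀ᵐ x : ι → ℝ ∂(gP ι), x i ≠ 0 := by
  have h1 : (gaussianReal 0 1) {(0 : ℝ)} = 0 := by
    have := nullSingletonClass_gaussianReal (μ := 0) (v := 1) one_ne_zero
    exact measure_singleton 0
  have h2 := (measurePreserving_eval (fun _ : ι => gaussianReal 0 1) i).measure_preimage
    (measurableSet_singleton (0 : ℝ)).nullMeasurableSet
  rw [h1] at h2
  rw [ae_iff]
  convert h2 using 2
  ext x
  simp

/-- The Parseval relation. -/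
theorem pars {P : Measure Ω} [IsProbabilityMeasure P] {X : ι → Ω → ℝ}
    (hXm : ∀ i, Measurable (X i)) (hX0 : ∀ i, ∀ᵐ ω ∂P, X i ω ≠ 0) {C : Matrix ι ι ℝ}
    (hC : C.PosDef) (hch : HasCF P X C) {a : ℂ} (ha : a.re < 0) (ha1 : -1 < a.re)
    (hint : Integrable (fun ω => ∏ i, |X i ω| ^ a.re) P) :
    J1 a ^ Fintype.card ι * ∫ ω, ∏ i, ((|X i ω| : ℝ) : ℂ) ^ a ∂P =
      mom C a 1 * g1 a ^ Fintype.card ι := by
  have h1 := swap hXm hX0 Matrix.PosDef.one ha hint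
  have hint2 : Integrable (fun x : ι → ℝ => ∏ i, |x i| ^ a.re) (gP ι) :=
    Integrable.fintype_prod (f := fun (_ : ι) (x : ℝ) => |x| ^ a.re)
      (fun _ => integrable_abs_rpow_gaussian ha1)
  have h2 := swap (Y := fun (i : ι) (x : ι → ℝ) => x i) (P := gP ι)
    (fun i => measurable_pi_apply i) gP_ne_zero hC ha hint2
  have h3 : ∫ x : ι → ℝ, ∏ i, ((|x i| : ℝ) : ℂ) ^ a ∂(gP ι) = g1 a ^ Fintype.card ι := by
    rw [integral_fintype_prod_eq_prod (fun (_ : ι) (x : ℝ) => ((|x| : ℝ) : ℂ) ^ a),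
      Finset.prod_const, Finset.card_univ, g1]
  have h4 : mom (1 : Matrix ι ι ℝ) a 1 = J1 a ^ Fintype.card ι := by
    have h5 := mom_smul_one (ι := ι) a 1 ∅
    have hx0 : (xS (∅ : Finset ι) : MvPolynomial ι ℝ) = 1 := by rw [xS, Finset.prod_empty]
    rw [hx0, one_smul] at h5
    rw [h5]
    simp only [Finset.notMem_empty, if_false, mul_one, one_mul]
    rw [Finset.prod_const, Finset.card_univ, J1]
  simp only [exchange hXm hch] at h1
  rw [h3] at h2
  rw [h4] at h1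
  rw [← h1, ← h2]

end Pool.Agent.Work.MP_8d2b2d_co.PL
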