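import Pool.Agent.Work.MP_8d2b2d_co.PL.Mom

/-!
# The moment functional satisfies the recursion
-/

set_option autoImplicit false
set_option linter.unusedSectionVars false

namespace Pool.Agent.Work.MP_8d2b2d_co.PL

open MeasureTheory Matrix Finset MvPolynomial
open scoped Topology

variable {ι : Type*} [Fintype ι] [DecidableEq ι]

/-- Diagonal change of variables. -/
theorem integral_diag' {E : Type*} [NormedAddCommGroup E] [NormedSpace ℝ E] {c : ι → ℝ}
    (hc : ∀ i, c i ≠ 0) (f : (ι → ℝ) → E) :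
    ∫ l, f l = (∏ i, |c i|) • ∫ y : ι → ℝ, f (fun i => c i * y i) := by
  have hdet : det (diagonal c) ≠ 0 := by
    rw [det_diagonal]; exact Finset.prod_ne_zero_iff.2 fun i _ => hc i
  have h1 := Real.smul_map_diagonal_volume_pi hdet
  have hinj : Function.Injective (fun y : ι → ℝ => (toLin' (diagonal c)) y) := by
    intro x y hxy
    funext i
    have := congrFun hxy i
    simp only [toLin'_apply, mulVec_diagonal] at this
    exact mul_left_cancel₀ (hc i) this
  have hm : MeasurableEmbedding (fun y : ι → ℝ => (toLin' (diagonal c)) y) :=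
    (LinearMap.continuous_on_pi _).measurableEmbedding hinj
  conv_lhs => rw [← h1]
  rw [integral_smul_measure, hm.integral_map, det_diagonal, Finset.abs_prod,
    ENNReal.toReal_ofReal (Finset.prod_nonneg fun i _ => abs_nonneg _)]
  congr 2
  funext y
  congr 1
  funext i
  rw [toLin'_apply, mulVec_diagonal]

theorem integral_diag {c : ι → ℝ} (hc : ∀ i, c i ≠ 0) (f : (ι → ℝ) → ℂ) :
    ∫ l, f l = ((∏ i, |c i| : ℝ) : ℂ) * ∫ y : ι → ℝ, f (fun i => c i * y i) := by
  rw [integral_diag' hc f, Complex.real_smul]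

lemma prod_update_pow (i : ι) (l : ℝ) (s : ι → ℕ) :
    ∏ j, (Function.update (1 : ι → ℝ) i l j) ^ (s j) = l ^ (s i) := by
  rw [Finset.prod_eq_single i]
  · rw [Function.update_self]
  · intro j _ hj
    rw [Function.update_of_ne hj, Pi.one_apply, one_pow]
  · intro h
    exact absurd (Finset.mem_univ i) h

lemma wgt_update (a : ℂ) (i : ι) {l : ℝ} (hl : 0 < l) (y : ι → ℝ) :
    wgt a (fun j => Function.update (1 : ι → ℝ) i l j * y j) = (l : ℂ) ^ (-1 - a) * wgt a y := by
  rw [wgt, wgt]
  have h1 : ∀ j, ((|Function.update (1 : ι → ℝ) i l j * y j| : ℝ) : ℂ) ^ (-1 - a) =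
      ((Function.update (1 : ι → ℝ) i l j : ℝ) : ℂ) ^ (-1 - a) * ((|y j| : ℝ) : ℂ) ^ (-1 - a) := by
    intro j
    have hpos : 0 < Function.update (1 : ι → ℝ) i l j := by
      by_cases hj : j = i
      · subst hj; rw [Function.update_self]; exact hl
      · rw [Function.update_of_ne hj]; exact one_pos
    rw [abs_mul, abs_of_pos hpos, Complex.ofReal_mul,
      Complex.mul_cpow_ofReal_nonneg hpos.le (abs_nonneg _)]
  simp only [h1]
  rw [Finset.prod_mul_distrib]
  congr 1
  rw [Finset.prod_eq_single i]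
  · rw [Function.update_self]
  · intro j _ hj
    rw [Function.update_of_ne hj, Pi.one_apply, Complex.ofReal_one, Complex.one_cpow]
  · intro h
    exact absurd (Finset.mem_univ i) h

lemma qf_add_coord (M : Matrix ι ι ℝ) (hs : ∀ i j, M i j = M j i) (i : ι) (t : ℝ) (x : ι → ℝ) :
    qf M (fun j => Function.update (1 : ι → ℝ) i (1 + t) j * x j) =
      qf M x + 2 * t * (x i * (M *ᵥ x) i) + t ^ 2 * (x i ^ 2 * M i i) := by
  have h1 : (fun j => Function.update (1 : ι → ℝ) i (1 + t) j * x j) =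
      x + (t * x i) • Pi.single i (1 : ℝ) := by
    funext j
    by_cases hj : j = i
    · subst hj
      rw [Function.update_self, Pi.add_apply, Pi.smul_apply, Pi.single_eq_same, smul_eq_mul]
      ring
    · rw [Function.update_of_ne hj, Pi.add_apply, Pi.smul_apply, Pi.single_eq_of_ne hj,
        smul_eq_mul, Pi.one_apply]
      ring
  have h2 : x ⬝ᵥ (M *ᵥ Pi.single i (1 : ℝ)) = (M *ᵥ x) i := by
    rw [Matrix.mulVec_single_one, Matrix.mulVec, dotProduct, dotProduct]
    refine Finset.sum_congr rfl fun j _ => ?_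
    rw [Matrix.col_apply, hs j i, mul_comm]
  have h3 : Pi.single i (1 : ℝ) ⬝ᵥ (M *ᵥ x) = (M *ᵥ x) i := by
    rw [single_dotProduct, one_mul]
  have h4 : Pi.single i (1 : ℝ) ⬝ᵥ (M *ᵥ Pi.single i (1 : ℝ)) = M i i := by
    rw [single_dotProduct, one_mul, Matrix.mulVec_single_one, Matrix.col_apply]
  rw [h1, qf, qf, Matrix.mulVec_add, Matrix.mulVec_smul, add_dotProduct, dotProduct_add,
    dotProduct_add, smul_dotProduct, smul_dotProduct, dotProduct_smul, dotProduct_smul, h2, h3, h4]
  simp only [smul_eq_mul]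
  ring

/-- The recursion for monomials -/
theorem mom_rec_monomial {M : Matrix ι ι ℝ} (hM : M.PosDef) {a : ℂ} (ha : a.re < 0) (i : ι)
    (s : ι →₀ ℕ) (r : ℝ) :
    ∑ j, (M i j : ℂ) * mom M a (X i * X j * monomial s r) =
      -a * mom M a (monomial s r) + (s i : ℂ) * mom M a (monomial s r) := by
  have hsymm : ∀ i j, M i j = M j i := fun i j => by
    have := hM.isHermitian.apply i j
    simpa using this.symm
  obtain ⟨c, hc, h⟩ := exists_lower hM
  set p : MvPolynomial ι ℝ := monomial s r with hp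
  set CN := ∑ i, ∑ j, |M i j| with hCN
  have hCN0 : 0 ≤ CN := Finset.sum_nonneg fun i _ => Finset.sum_nonneg fun j _ => abs_nonneg _
  set I : ℝ → ℂ := fun t => ∫ x : ι → ℝ, (wgt a x * ((MvPolynomial.eval x p : ℝ) : ℂ)) *
    (Real.exp (-(qf M (fun j => Function.update (1 : ι → ℝ) i (1 + t) j * x j) / 2)) : ℂ) with hI
  -- derivative of `I`
  have hx2 : ∀ x : ι → ℝ, x i ^ 2 ≤ ∑ j, x j ^ 2 := fun x =>
    Finset.single_le_sum (f := fun j => x j ^ 2) (fun _ _ => sq_nonneg _) (Finset.mem_univ i)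
  have hMx : ∀ x : ι → ℝ, |x i * (M *ᵥ x) i| ≤ CN * ∑ j, x j ^ 2 := by
    intro x
    have h1 : x i * (M *ᵥ x) i = ∑ j, M i j * (x i * x j) := by
      rw [Matrix.mulVec, dotProduct, Finset.mul_sum]
      exact Finset.sum_congr rfl fun j _ => by ring
    have h2 : ∑ j, |M i j| ≤ CN :=
      Finset.single_le_sum (f := fun i => ∑ j, |M i j|)
        (fun _ _ => Finset.sum_nonneg fun j _ => abs_nonneg _) (Finset.mem_univ i)
    have h3 : 0 ≤ ∑ j, x j ^ 2 := Finset.sum_nonneg fun _ _ => sq_nonneg _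
    rw [h1]
    refine (Finset.abs_sum_le_sum_abs _ _).trans (le_trans ?_ (mul_le_mul_of_nonneg_right h2 h3))
    rw [Finset.sum_mul]
    refine Finset.sum_le_sum fun j _ => ?_
    rw [abs_mul]
    refine mul_le_mul_of_nonneg_left ?_ (abs_nonneg _)
    have h4 : x j ^ 2 ≤ ∑ j, x j ^ 2 :=
      Finset.single_le_sum (f := fun j => x j ^ 2) (fun _ _ => sq_nonneg _) (Finset.mem_univ j)
    have h5 := hx2 x
    rw [abs_mul]
    nlinarith [sq_nonneg (|x i| - |x j|), sq_abs (x i), sq_abs (x j)]
  have hMii : |M i i| ≤ CN := by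
    have h1 : |M i i| ≤ ∑ j, |M i j| :=
      Finset.single_le_sum (f := fun j => |M i j|) (fun _ _ => abs_nonneg _) (Finset.mem_univ i)
    have h2 : ∑ j, |M i j| ≤ CN :=
      Finset.single_le_sum (f := fun i => ∑ j, |M i j|)
        (fun _ _ => Finset.sum_nonneg fun j _ => abs_nonneg _) (Finset.mem_univ i)
    exact h1.trans h2
  have key := hasDerivAt_param (ι := ι) (s := -1 - a.re) (by linarith)
    ((WB_wgt a).mul (PBd.eval p))
    (Q := fun t x => qf M (fun j => Function.update (1 : ι → ℝ) i (1 + t) j * x j) / 2)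
    (Q' := fun t x => x i * (M *ᵥ x) i + t * (x i ^ 2 * M i i)) (t₀ := 0) (ε := 1 / 2)
    (c := c / 8) (C := 2 * CN) (by norm_num) (by positivity) ?_ ?_ ?_ ?_ ?_
  rotate_left
  · intro t
    refine Measurable.div_const ?_ 2
    exact (PBd.qf M).1.comp (measurable_pi_lambda _ fun j => (measurable_pi_apply j).const_mul _)
  · have h1 : PBd (fun x : ι → ℝ => x i * ∑ j, M i j * x j) :=
      (PBd.coord i).mul (PBd.sum _ fun j _ => (PBd.const _).mul (PBd.coord j))
    have h2 : (fun x : ι → ℝ => x i * (M *ᵥ x) i + 0 * (x i ^ 2 * M i i)) =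
        fun x : ι → ℝ => x i * ∑ j, M i j * x j := by
      funext x
      rw [zero_mul, add_zero]
      rfl
    rw [h2]
    exact h1
  · intro t ht x
    rw [Metric.mem_ball, Real.dist_eq, sub_zero, abs_lt] at ht
    have h1 := h (fun j => Function.update (1 : ι → ℝ) i (1 + t) j * x j)
    have h2 : 1 / 4 * ∑ j, x j ^ 2 ≤ ∑ j, (Function.update (1 : ι → ℝ) i (1 + t) j * x j) ^ 2 := by
      rw [Finset.mul_sum]
      refine Finset.sum_le_sum fun j _ => ?_
      rw [mul_pow]
      refine mul_le_mul_of_nonneg_right ?_ (sq_nonneg _)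
      by_cases hj : j = i
      · subst hj; rw [Function.update_self]; nlinarith
      · rw [Function.update_of_ne hj, Pi.one_apply]; norm_num
    have h3 : c * (1 / 4 * ∑ j, x j ^ 2) ≤
        c * ∑ j, (Function.update (1 : ι → ℝ) i (1 + t) j * x j) ^ 2 :=
      mul_le_mul_of_nonneg_left h2 hc.le
    show c / 8 * ∑ j, x j ^ 2 ≤
      qf M (fun j => Function.update (1 : ι → ℝ) i (1 + t) j * x j) / 2
    linarith
  · intro t ht x
    rw [Metric.mem_ball, Real.dist_eq, sub_zero] at ht
    have h1 := hMx x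
    have h2 : |t * (x i ^ 2 * M i i)| ≤ CN * ∑ j, x j ^ 2 := by
      rw [abs_mul, abs_mul, abs_of_nonneg (sq_nonneg (x i))]
      have h3 := hx2 x
      have h4 : 0 ≤ x i ^ 2 * |M i i| := by positivity
      calc |t| * (x i ^ 2 * |M i i|) ≤ 1 * (x i ^ 2 * |M i i|) :=
            mul_le_mul_of_nonneg_right (by linarith) h4
        _ = |M i i| * x i ^ 2 := by ring
        _ ≤ CN * ∑ j, x j ^ 2 := mul_le_mul hMii h3 (sq_nonneg _) hCN0
    refine (abs_add_le _ _).trans ?_
    linarith
  · intro t _ x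
    have h1 : HasDerivAt (fun t : ℝ => (qf M x + 2 * t * (x i * (M *ᵥ x) i) +
        t ^ 2 * (x i ^ 2 * M i i)) / 2) (x i * (M *ᵥ x) i + t * (x i ^ 2 * M i i)) t := by
      have h2 := ((((hasDerivAt_id t).const_mul 2).mul_const (x i * (M *ᵥ x) i)).const_add
        (qf M x)).add (((hasDerivAt_id t).pow 2).mul_const (x i ^ 2 * M i i))
      have h3 := h2.div_const 2
      refine h3.congr_deriv ?_
      simp
      ring
    refine h1.congr_of_eventuallyEq (Filter.Eventually.of_forall fun t => ?_)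
    simp only [qf_add_coord M hsymm]
  -- `I t = (1 + t)^(a - s i) * mom`
  have hscale : ∀ t : ℝ, -1 < t → I t = ((1 + t : ℝ) : ℂ) ^ (a - (s i : ℂ)) * mom M a p := by
    intro t ht
    have hl : 0 < 1 + t := by linarith
    have hlC : ((1 + t : ℝ) : ℂ) ≠ 0 := by
      rw [Ne, Complex.ofReal_eq_zero]; exact hl.ne'
    have h1 := integral_diag (c := Function.update (1 : ι → ℝ) i (1 + t)) (fun j => by
      by_cases hj : j = i
      · subst hj; rw [Function.update_self]; exact hl.ne'
      · rw [Function.update_of_ne hj]; exact one_ne_zero)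
      (fun x : ι → ℝ =>
      wgt a x * ((MvPolynomial.eval x p : ℝ) : ℂ) * (Real.exp (-(qf M x / 2)) : ℂ))
    have h2 : ∏ j, |Function.update (1 : ι → ℝ) i (1 + t) j| = 1 + t := by
      rw [Finset.prod_eq_single i]
      · rw [Function.update_self, abs_of_pos hl]
      · intro j _ hj
        rw [Function.update_of_ne hj, Pi.one_apply, abs_one]
      · intro h
        exact absurd (Finset.mem_univ i) h
    have h3 : ∀ x : ι → ℝ, MvPolynomial.eval (fun j => Function.update (1 : ι → ℝ) i (1 + t) j * x j)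
        p = (1 + t) ^ (s i) * MvPolynomial.eval x p := by
      intro x
      rw [hp, eval_monomial, eval_monomial, Finsupp.prod_fintype _ _ (fun _ => pow_zero _),
        Finsupp.prod_fintype _ _ (fun _ => pow_zero _)]
      simp only [mul_pow]
      rw [Finset.prod_mul_distrib, prod_update_pow]
      ring
    have h4' : (∫ y : ι → ℝ, wgt a (fun j => Function.update (1 : ι → ℝ) i (1 + t) j * y j) *
        ((MvPolynomial.eval (fun j => Function.update (1 : ι → ℝ) i (1 + t) j * y j) p : ℝ) : ℂ) *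
        (Real.exp (-(qf M (fun j => Function.update (1 : ι → ℝ) i (1 + t) j * y j) / 2)) : ℂ)) =
        (((1 + t : ℝ) : ℂ) ^ (-1 - a) * ((1 + t : ℝ) : ℂ) ^ (s i)) * I t := by
      rw [hI]
      show _ = _ * ∫ x : ι → ℝ, _
      rw [← integral_const_mul]
      congr 1
      funext x
      rw [wgt_update a i hl, h3 x]
      push_cast
      ring
    have h4 : mom M a p = ((1 + t : ℝ) : ℂ) * (((1 + t : ℝ) : ℂ) ^ (-1 - a) *
        ((1 + t : ℝ) : ℂ) ^ (s i)) * I t := by
      rw [mom, h1, h2, h4']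
      ring
    rw [h4]
    have h5 : ((1 + t : ℝ) : ℂ) ^ (a - (s i : ℂ)) * (((1 + t : ℝ) : ℂ) * (((1 + t : ℝ) : ℂ) ^ (-1 - a) *
        ((1 + t : ℝ) : ℂ) ^ (s i))) = 1 := by
      rw [← Complex.cpow_natCast, ← Complex.cpow_add _ _ hlC]
      have h6 : ((1 + t : ℝ) : ℂ) * ((1 + t : ℝ) : ℂ) ^ (-1 - a + (s i : ℂ)) =
          ((1 + t : ℝ) : ℂ) ^ (1 + (-1 - a + (s i : ℂ))) := by
        rw [Complex.cpow_add 1 (-1 - a + (s i : ℂ)) hlC, Complex.cpow_one]
      rw [h6, ← Complex.cpow_add _ _ hlC]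
      have h7 : a - (s i : ℂ) + (1 + (-1 - a + (s i : ℂ))) = 0 := by ring
      rw [h7, Complex.cpow_zero]
    linear_combination (-I t) * h5
  have hder2 : HasDerivAt (fun t : ℝ => ((1 + t : ℝ) : ℂ) ^ (a - (s i : ℂ)) * mom M a p)
      ((a - (s i : ℂ)) * mom M a p) 0 := by
    have h1 : HasDerivAt (fun z : ℂ => (1 + z) ^ (a - (s i : ℂ))) (a - (s i : ℂ)) ((0 : ℝ) : ℂ) := by
      have h2 := (((hasDerivAt_id ((0 : ℝ) : ℂ)).const_add 1).cpow_const
        (c := a - (s i : ℂ)) (by simp [Complex.slitPlane]))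
      refine h2.congr_deriv ?_
      simp
    have h3 := (h1.comp_ofReal).mul_const (mom M a p)
    refine h3.congr_of_eventuallyEq (Filter.Eventually.of_forall fun t => ?_)
    push_cast
    ring
  have hder3 : HasDerivAt I ((a - (s i : ℂ)) * mom M a p) 0 := by
    refine hder2.congr_of_eventuallyEq ?_
    filter_upwards [Ioi_mem_nhds (show (-1 : ℝ) < 0 by norm_num)] with t ht
    exact hscale t ht
  have hu := hder3.unique key
  -- identify the derivative
  have hval : (∫ x : ι → ℝ, wgt a x * ((MvPolynomial.eval x p : ℝ) : ℂ) *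
      ((-(x i * (M *ᵥ x) i + 0 * (x i ^ 2 * M i i)) : ℝ) : ℂ) *
      (Real.exp (-(qf M (fun j => Function.update (1 : ι → ℝ) i (1 + 0) j * x j) / 2)) : ℂ)) =
      -∑ j, (M i j : ℂ) * mom M a (X i * X j * p) := by
    have h1 : ∀ j, (M i j : ℂ) * mom M a (X i * X j * p) = ∫ x : ι → ℝ, (M i j : ℂ) *
        (wgt a x * ((MvPolynomial.eval x (X i * X j * p) : ℝ) : ℂ) *
          (Real.exp (-(qf M x / 2)) : ℂ)) := fun j => by
      rw [mom, integral_const_mul]
    simp only [h1]
    rw [← integral_finsetSum _ fun j _ => (mom_integrable hM ha _).const_mul _, ← integral_neg]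
    congr 1
    funext x
    have h2 : (fun j => Function.update (1 : ι → ℝ) i (1 + 0) j * x j) = x := by
      funext j
      rw [add_zero]
      have : Function.update (1 : ι → ℝ) i 1 = 1 := by
        rw [Function.update_eq_self_iff]; rfl
      rw [this, Pi.one_apply, one_mul]
    rw [h2, Matrix.mulVec, dotProduct]
    simp only [map_mul, eval_X]
    push_cast
    rw [zero_mul, add_zero, Finset.mul_sum, ← Finset.sum_neg_distrib, Finset.mul_sum,
      Finset.sum_mul, ← Finset.sum_neg_distrib]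
    refine Finset.sum_congr rfl fun j _ => ?_
    ring
  rw [hval] at hu
  linear_combination hu

theorem mom_rec {M : Matrix ι ι ℝ} (hM : M.PosDef) {a : ℂ} (ha : a.re < 0) :
    Rec M a (momL hM ha) := by
  intro i p
  induction p using MvPolynomial.induction_on' with
  | monomial s r =>
    rw [X_mul_pderiv_monomial, map_nsmul, nsmul_eq_mul]
    simp only [momL_apply]
    exact mom_rec_monomial hM ha i s r
  | add p q hp hq =>
    simp only [mul_add, map_add, Finset.sum_add_distrib] at hp hq ⊢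
    rw [hp, hq]
    ring

end Pool.Agent.Work.MP_8d2b2d_co.PL
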